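import Pool.Agent.NNr.R11_1_2_3.D0
import Pool.Agent.NNr.R11_1_2_3.D1
import Pool.Agent.NNe.Slots

set_option linter.all false
set_option maxRecDepth 1000000
namespace Pool.Agent.NNr.R11_1_2_3

open Pool.Agent.NNe

def rf1_5 : rfCk (nat_lit 61) (nat_lit 5) (nat_lit 61) (nat_lit 2) (nat_lit 1) (nat_lit 262144) (nat_lit 5) TL1 CL0 CL1 = true := by decide +kernel
def wf1_6 : wfC (nat_lit 61) (nat_lit 2) C1_6 = true := by decide +kernel
def rf1_6 : rfCk (nat_lit 61) (nat_lit 5) (nat_lit 61) (nat_lit 2) (nat_lit 1) (nat_lit 262144) (nat_lit 6) TL1 CL0 CL1 = true := by decide +kernel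
def wf1_7 : wfC (nat_lit 61) (nat_lit 2) C1_7 = true := by decide +kernel
def rf1_7 : rfCk (nat_lit 61) (nat_lit 5) (nat_lit 61) (nat_lit 2) (nat_lit 1) (nat_lit 262144) (nat_lit 7) TL1 CL0 CL1 = true := by decide +kernel
def wf1_8 : wfC (nat_lit 61) (nat_lit 2) C1_8 = true := by decide +kernel
def rf1_8 : rfCk (nat_lit 61) (nat_lit 5) (nat_lit 61) (nat_lit 2) (nat_lit 1) (nat_lit 262144) (nat_lit 8) TL1 CL0 CL1 = true := by decide +kernel
def wf1_9 : wfC (nat_lit 61) (nat_lit 2) C1_9 = true := by decide +kernel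
def rf1_9 : rfCk (nat_lit 61) (nat_lit 5) (nat_lit 61) (nat_lit 2) (nat_lit 1) (nat_lit 262144) (nat_lit 9) TL1 CL0 CL1 = true := by decide +kernel
def wf1_10 : wfC (nat_lit 61) (nat_lit 2) C1_10 = true := by decide +kernel
def rf1_10 : rfCk (nat_lit 61) (nat_lit 5) (nat_lit 61) (nat_lit 2) (nat_lit 1) (nat_lit 262144) (nat_lit 10) TL1 CL0 CL1 = true := by decide +kernel
def wf1_11 : wfC (nat_lit 61) (nat_lit 2) C1_11 = true := by decide +kernel
def rf1_11 : rfCk (nat_lit 61) (nat_lit 5) (nat_lit 61) (nat_lit 2) (nat_lit 1) (nat_lit 262144) (nat_lit 11) TL1 CL0 CL1 = true := by decide +kernel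
def wf1_12 : wfC (nat_lit 61) (nat_lit 2) C1_12 = true := by decide +kernel
def rf1_12 : rfCk (nat_lit 61) (nat_lit 5) (nat_lit 61) (nat_lit 2) (nat_lit 1) (nat_lit 262144) (nat_lit 12) TL1 CL0 CL1 = true := by decide +kernel
def wf1_13 : wfC (nat_lit 61) (nat_lit 2) C1_13 = true := by decide +kernel
def rf1_13 : rfCk (nat_lit 61) (nat_lit 5) (nat_lit 61) (nat_lit 2) (nat_lit 1) (nat_lit 262144) (nat_lit 13) TL1 CL0 CL1 = true := by decide +kernel
def wf1_14 : wfC (nat_lit 61) (nat_lit 2) C1_14 = true := by decide +kernel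
def rf1_14 : rfCk (nat_lit 61) (nat_lit 5) (nat_lit 61) (nat_lit 2) (nat_lit 1) (nat_lit 262144) (nat_lit 14) TL1 CL0 CL1 = true := by decide +kernel
def wf1_18 : wfC (nat_lit 61) (nat_lit 2) C1_18 = true := by decide +kernel
def rf1_18 : rfCk (nat_lit 61) (nat_lit 5) (nat_lit 61) (nat_lit 2) (nat_lit 1) (nat_lit 262144) (nat_lit 18) TL1 CL0 CL1 = true := by decide +kernel
def wf1_19 : wfC (nat_lit 61) (nat_lit 2) C1_19 = true := by decide +kernel
def rf1_19 : rfCk (nat_lit 61) (nat_lit 5) (nat_lit 61) (nat_lit 2) (nat_lit 1) (nat_lit 262144) (nat_lit 19) TL1 CL0 CL1 = true := by decide +kernel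
def wf1_20 : wfC (nat_lit 61) (nat_lit 2) C1_20 = true := by decide +kernel
def rf1_20 : rfCk (nat_lit 61) (nat_lit 5) (nat_lit 61) (nat_lit 2) (nat_lit 1) (nat_lit 262144) (nat_lit 20) TL1 CL0 CL1 = true := by decide +kernel
def wf1_21 : wfC (nat_lit 61) (nat_lit 2) C1_21 = true := by decide +kernel
def rf1_21 : rfCk (nat_lit 61) (nat_lit 5) (nat_lit 61) (nat_lit 2) (nat_lit 1) (nat_lit 262144) (nat_lit 21) TL1 CL0 CL1 = true := by decide +kernel
def wf1_22 : wfC (nat_lit 61) (nat_lit 2) C1_22 = true := by decide +kernel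
def rf1_22 : rfCk (nat_lit 61) (nat_lit 5) (nat_lit 61) (nat_lit 2) (nat_lit 1) (nat_lit 262144) (nat_lit 22) TL1 CL0 CL1 = true := by decide +kernel
def wf1_23 : wfC (nat_lit 61) (nat_lit 2) C1_23 = true := by decide +kernel
def rf1_23 : rfCk (nat_lit 61) (nat_lit 5) (nat_lit 61) (nat_lit 2) (nat_lit 1) (nat_lit 262144) (nat_lit 23) TL1 CL0 CL1 = true := by decide +kernel
def wf1_24 : wfC (nat_lit 61) (nat_lit 2) C1_24 = true := by decide +kernel
def rf1_24 : rfCk (nat_lit 61) (nat_lit 5) (nat_lit 61) (nat_lit 2) (nat_lit 1) (nat_lit 262144) (nat_lit 24) TL1 CL0 CL1 = true := by decide +kernel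
def ti1_0 : tileCk (nat_lit 61) (nat_lit 2) (nat_lit 1) (nat_lit 1) (nat_lit 737) (nat_lit 11) (nat_lit 25) ZL1_0 CL1 = true := by decide +kernel
def zl1_0 : zlOK (nat_lit 737) ZL1_0 = true := by decide +kernel
def ti1_1 : tileCk (nat_lit 61) (nat_lit 2) (nat_lit 1) (nat_lit 1) (nat_lit 368) (nat_lit 11) (nat_lit 25) ZL1_1 CL1 = true := by decide +kernel
def zl1_1 : zlOK (nat_lit 368) ZL1_1 = true := by decide +kernel

end Pool.Agent.NNr.R11_1_2_3
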