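import Pool.Agent.NNr.R11_1_2_3.D5

set_option linter.all false
set_option maxRecDepth 1000000
namespace Pool.Agent.NNr.R11_1_2_3

open Pool.Agent.NNe

def ti5_1 : tileCk (nat_lit 61) (nat_lit 2) (nat_lit 1) (nat_lit 1) (nat_lit 86) (nat_lit 11) (nat_lit 25) ZL5_1 CL5 = true := by decide +kernel
def zl5_1 : zlOK (nat_lit 86) ZL5_1 = true := by decide +kernel
def ti5_2 : tileCk (nat_lit 61) (nat_lit 2) (nat_lit 1) (nat_lit 1) (nat_lit 276) (nat_lit 11) (nat_lit 25) ZL5_2 CL5 = true := by decide +kernel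
def zl5_2 : zlOK (nat_lit 276) ZL5_2 = true := by decide +kernel
def ti5_3 : tileCk (nat_lit 61) (nat_lit 2) (nat_lit 1) (nat_lit 1) (nat_lit 320) (nat_lit 11) (nat_lit 25) ZL5_3 CL5 = true := by decide +kernel
def zl5_3 : zlOK (nat_lit 320) ZL5_3 = true := by decide +kernel
def ti5_4 : tileCk (nat_lit 61) (nat_lit 2) (nat_lit 1) (nat_lit 1) (nat_lit 32) (nat_lit 11) (nat_lit 25) ZL5_4 CL5 = true := by decide +kernel
def zl5_4 : zlOK (nat_lit 32) ZL5_4 = true := by decide +kernel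

end Pool.Agent.NNr.R11_1_2_3
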