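import Pool.Agent.NNr.R11_1_2_3.D5
import Pool.Agent.NNr.R11_1_2_3.D6

set_option linter.all false
set_option maxRecDepth 1000000
namespace Pool.Agent.NNr.R11_1_2_3

open Pool.Agent.NNe

def ti5_5 : tileCk (nat_lit 61) (nat_lit 2) (nat_lit 1) (nat_lit 1) (nat_lit 276) (nat_lit 11) (nat_lit 25) ZL5_5 CL5 = true := by decide +kernel
def zl5_5 : zlOK (nat_lit 276) ZL5_5 = true := by decide +kernel
def tc5_0 : tiCov (nat_lit 1) (nat_lit 0) ZZ5 C5_0 = true := by decide +kernel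
def tc5_1 : tiCov (nat_lit 1) (nat_lit 1) ZZ5 C5_1 = true := by decide +kernel
def tc5_2 : tiCov (nat_lit 1) (nat_lit 2) ZZ5 C5_2 = true := by decide +kernel
def tc5_3 : tiCov (nat_lit 1) (nat_lit 3) ZZ5 C5_3 = true := by decide +kernel
def tc5_4 : tiCov (nat_lit 1) (nat_lit 4) ZZ5 C5_4 = true := by decide +kernel
def tc5_5 : tiCov (nat_lit 1) (nat_lit 5) ZZ5 C5_5 = true := by decide +kernel
def tc5_6 : tiCov (nat_lit 1) (nat_lit 6) ZZ5 C5_6 = true := by decide +kernel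
def tc5_7 : tiCov (nat_lit 1) (nat_lit 7) ZZ5 C5_7 = true := by decide +kernel
def tc5_8 : tiCov (nat_lit 1) (nat_lit 8) ZZ5 C5_8 = true := by decide +kernel
def tc5_9 : tiCov (nat_lit 1) (nat_lit 9) ZZ5 C5_9 = true := by decide +kernel
def tc5_10 : tiCov (nat_lit 1) (nat_lit 10) ZZ5 C5_10 = true := by decide +kernel
def tc5_11 : tiCov (nat_lit 1) (nat_lit 11) ZZ5 C5_11 = true := by decide +kernel
def tc5_12 : tiCov (nat_lit 1) (nat_lit 12) ZZ5 C5_12 = true := by decide +kernel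
def tc5_18 : tiCov (nat_lit 1) (nat_lit 18) ZZ5 C5_18 = true := by decide +kernel
def tc5_19 : tiCov (nat_lit 1) (nat_lit 19) ZZ5 C5_19 = true := by decide +kernel
def tc5_20 : tiCov (nat_lit 1) (nat_lit 20) ZZ5 C5_20 = true := by decide +kernel
def tc5_21 : tiCov (nat_lit 1) (nat_lit 21) ZZ5 C5_21 = true := by decide +kernel
def tc5_22 : tiCov (nat_lit 1) (nat_lit 22) ZZ5 C5_22 = true := by decide +kernel
def tc5_23 : tiCov (nat_lit 1) (nat_lit 23) ZZ5 C5_23 = true := by decide +kernel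
def tc5_24 : tiCov (nat_lit 1) (nat_lit 24) ZZ5 C5_24 = true := by decide +kernel
def wf6_0 : wfC (nat_lit 61) (nat_lit 4) C6_0 = true := by decide +kernel
def rf6_0 : rfCk (nat_lit 61) (nat_lit 2) (nat_lit 61) (nat_lit 4) (nat_lit 9) (nat_lit 0) (nat_lit 0) TL6 CL5 CL6 = true := by decide +kernel
def st6_0_0 : starCk (nat_lit 61) (nat_lit 4) (nat_lit 1) (nat_lit 2) (nat_lit 59) (nat_lit 0) (nat_lit 256) C6_0 = true := by decide +kernel
def sc6_0 : stCov (nat_lit 2) (nat_lit 0) (Rl.cons (nat_lit 0) (nat_lit 59) Rl.nil) C6_0 = true := by decide +kernel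
def wf6_1 : wfC (nat_lit 61) (nat_lit 4) C6_1 = true := by decide +kernel
def rf6_1 : rfCk (nat_lit 61) (nat_lit 2) (nat_lit 61) (nat_lit 4) (nat_lit 9) (nat_lit 0) (nat_lit 1) TL6 CL5 CL6 = true := by decide +kernel
def st6_1_0 : starCk (nat_lit 61) (nat_lit 4) (nat_lit 1) (nat_lit 2) (nat_lit 54) (nat_lit 122) (nat_lit 256) C6_1 = true := by decide +kernel
def sc6_1 : stCov (nat_lit 2) (nat_lit 122) (Rl.cons (nat_lit 122) (nat_lit 54) Rl.nil) C6_1 = true := by decide +kernel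
def wf6_2 : wfC (nat_lit 61) (nat_lit 4) C6_2 = true := by decide +kernel
def rf6_2 : rfCk (nat_lit 61) (nat_lit 2) (nat_lit 61) (nat_lit 4) (nat_lit 9) (nat_lit 0) (nat_lit 2) TL6 CL5 CL6 = true := by decide +kernel
def st6_2_0 : starCk (nat_lit 61) (nat_lit 4) (nat_lit 1) (nat_lit 2) (nat_lit 22) (nat_lit 0) (nat_lit 16) C6_2 = true := by decide +kernel
def sc6_2 : stCov (nat_lit 1) (nat_lit 0) (Rl.cons (nat_lit 0) (nat_lit 22) Rl.nil) C6_2 = true := by decide +kernel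
def wf6_3 : wfC (nat_lit 61) (nat_lit 4) C6_3 = true := by decide +kernel
def rf6_3 : rfCk (nat_lit 61) (nat_lit 2) (nat_lit 61) (nat_lit 4) (nat_lit 9) (nat_lit 0) (nat_lit 3) TL6 CL5 CL6 = true := by decide +kernel
def st6_3_0 : starCk (nat_lit 61) (nat_lit 4) (nat_lit 1) (nat_lit 2) (nat_lit 37) (nat_lit 137) (nat_lit 16) C6_3 = true := by decide +kernel
def sc6_3 : stCov (nat_lit 1) (nat_lit 137) (Rl.cons (nat_lit 137) (nat_lit 37) Rl.nil) C6_3 = true := by decide +kernel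
def wf6_4 : wfC (nat_lit 61) (nat_lit 4) C6_4 = true := by decide +kernel
def rf6_4 : rfCk (nat_lit 61) (nat_lit 2) (nat_lit 61) (nat_lit 4) (nat_lit 9) (nat_lit 0) (nat_lit 4) TL6 CL5 CL6 = true := by decide +kernel
def st6_4_0 : starCk (nat_lit 61) (nat_lit 4) (nat_lit 1) (nat_lit 2) (nat_lit 46) (nat_lit 273) (nat_lit 256) C6_4 = true := by decide +kernel
def sc6_4 : stCov (nat_lit 2) (nat_lit 273) (Rl.cons (nat_lit 273) (nat_lit 46) Rl.nil) C6_4 = true := by decide +kernel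
def wf6_5 : wfC (nat_lit 61) (nat_lit 4) C6_5 = true := by decide +kernel
def rf6_5 : rfCk (nat_lit 61) (nat_lit 2) (nat_lit 61) (nat_lit 4) (nat_lit 9) (nat_lit 0) (nat_lit 5) TL6 CL5 CL6 = true := by decide +kernel
def st6_5_0 : starCk (nat_lit 61) (nat_lit 4) (nat_lit 1) (nat_lit 2) (nat_lit 63) (nat_lit 208) (nat_lit 16) C6_5 = true := by decide +kernel
def sc6_5 : stCov (nat_lit 1) (nat_lit 208) (Rl.cons (nat_lit 208) (nat_lit 63) Rl.nil) C6_5 = true := by decide +kernel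
def wf6_6 : wfC (nat_lit 61) (nat_lit 4) C6_6 = true := by decide +kernel
def rf6_6 : rfCk (nat_lit 61) (nat_lit 2) (nat_lit 61) (nat_lit 4) (nat_lit 9) (nat_lit 0) (nat_lit 6) TL6 CL5 CL6 = true := by decide +kernel
def st6_6_0 : starCk (nat_lit 61) (nat_lit 4) (nat_lit 1) (nat_lit 2) (nat_lit 58) (nat_lit 30) (nat_lit 1) C6_6 = true := by decide +kernel
def sc6_6 : stCov (nat_lit 0) (nat_lit 30) (Rl.cons (nat_lit 30) (nat_lit 58) Rl.nil) C6_6 = true := by decide +kernel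
def wf6_7 : wfC (nat_lit 61) (nat_lit 4) C6_7 = true := by decide +kernel
def rf6_7 : rfCk (nat_lit 61) (nat_lit 2) (nat_lit 61) (nat_lit 4) (nat_lit 9) (nat_lit 0) (nat_lit 7) TL6 CL5 CL6 = true := by decide +kernel
def st6_7_0 : starCk (nat_lit 61) (nat_lit 4) (nat_lit 1) (nat_lit 2) (nat_lit 77) (nat_lit 117) (nat_lit 256) C6_7 = true := by decide +kernel
def sc6_7 : stCov (nat_lit 2) (nat_lit 117) (Rl.cons (nat_lit 117) (nat_lit 77) Rl.nil) C6_7 = true := by decide +kernel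
def wf6_8 : wfC (nat_lit 61) (nat_lit 4) C6_8 = true := by decide +kernel
def rf6_8 : rfCk (nat_lit 61) (nat_lit 2) (nat_lit 61) (nat_lit 4) (nat_lit 9) (nat_lit 0) (nat_lit 8) TL6 CL5 CL6 = true := by decide +kernel
def st6_8_0 : starCk (nat_lit 61) (nat_lit 4) (nat_lit 1) (nat_lit 2) (nat_lit 53) (nat_lit 291) (nat_lit 256) C6_8 = true := by decide +kernel
def sc6_8 : stCov (nat_lit 2) (nat_lit 291) (Rl.cons (nat_lit 291) (nat_lit 53) Rl.nil) C6_8 = true := by decide +kernel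
def wf6_9 : wfC (nat_lit 61) (nat_lit 4) C6_9 = true := by decide +kernel
def rf6_9 : rfCk (nat_lit 61) (nat_lit 2) (nat_lit 61) (nat_lit 4) (nat_lit 9) (nat_lit 0) (nat_lit 9) TL6 CL5 CL6 = true := by decide +kernel
def st6_9_0 : starCk (nat_lit 61) (nat_lit 4) (nat_lit 1) (nat_lit 2) (nat_lit 25) (nat_lit 163) (nat_lit 16) C6_9 = true := by decide +kernel
def sc6_9 : stCov (nat_lit 1) (nat_lit 163) (Rl.cons (nat_lit 163) (nat_lit 25) Rl.nil) C6_9 = true := by decide +kernel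
def wf6_10 : wfC (nat_lit 61) (nat_lit 4) C6_10 = true := by decide +kernel
def rf6_10 : rfCk (nat_lit 61) (nat_lit 2) (nat_lit 61) (nat_lit 4) (nat_lit 9) (nat_lit 0) (nat_lit 10) TL6 CL5 CL6 = true := by decide +kernel
def st6_10_0 : starCk (nat_lit 61) (nat_lit 4) (nat_lit 1) (nat_lit 2) (nat_lit 23) (nat_lit 68) (nat_lit 16) C6_10 = true := by decide +kernel
def sc6_10 : stCov (nat_lit 1) (nat_lit 68) (Rl.cons (nat_lit 68) (nat_lit 23) Rl.nil) C6_10 = true := by decide +kernel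
def wf6_11 : wfC (nat_lit 61) (nat_lit 4) C6_11 = true := by decide +kernel
def rf6_11 : rfCk (nat_lit 61) (nat_lit 2) (nat_lit 61) (nat_lit 4) (nat_lit 9) (nat_lit 0) (nat_lit 11) TL6 CL5 CL6 = true := by decide +kernel
def st6_11_0 : starCk (nat_lit 61) (nat_lit 4) (nat_lit 1) (nat_lit 2) (nat_lit 24) (nat_lit 158) (nat_lit 256) C6_11 = true := by decide +kernel
def sc6_11 : stCov (nat_lit 2) (nat_lit 158) (Rl.cons (nat_lit 158) (nat_lit 24) Rl.nil) C6_11 = true := by decide +kernel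
def wf6_12 : wfC (nat_lit 61) (nat_lit 4) C6_12 = true := by decide +kernel
def rf6_12 : rfCk (nat_lit 61) (nat_lit 2) (nat_lit 61) (nat_lit 4) (nat_lit 9) (nat_lit 0) (nat_lit 12) TL6 CL5 CL6 = true := by decide +kernel
def st6_12_0 : starCk (nat_lit 61) (nat_lit 4) (nat_lit 1) (nat_lit 2) (nat_lit 19) (nat_lit 73) (nat_lit 256) C6_12 = true := by decide +kernel
def sc6_12 : stCov (nat_lit 2) (nat_lit 73) (Rl.cons (nat_lit 73) (nat_lit 19) Rl.nil) C6_12 = true := by decide +kernel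
def wf6_18 : wfC (nat_lit 61) (nat_lit 4) C6_18 = true := by decide +kernel

end Pool.Agent.NNr.R11_1_2_3
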