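import Pool.Agent.NNr.R11_1_2_3.D5
import Pool.Agent.NNr.R11_1_2_3.D6

set_option linter.all false
set_option maxRecDepth 1000000
namespace Pool.Agent.NNr.R11_1_2_3

open Pool.Agent.NNe

def rf6_18 : rfCk (nat_lit 61) (nat_lit 2) (nat_lit 61) (nat_lit 4) (nat_lit 9) (nat_lit 0) (nat_lit 18) TL6 CL5 CL6 = true := by decide +kernel
def st6_18_0 : starCk (nat_lit 61) (nat_lit 4) (nat_lit 1) (nat_lit 2) (nat_lit 621) (nat_lit 913) (nat_lit 4096) C6_18 = true := by decide +kernel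
def sc6_18 : stCov (nat_lit 3) (nat_lit 913) (Rl.cons (nat_lit 913) (nat_lit 621) Rl.nil) C6_18 = true := by decide +kernel
def wf6_19 : wfC (nat_lit 61) (nat_lit 4) C6_19 = true := by decide +kernel
def rf6_19 : rfCk (nat_lit 61) (nat_lit 2) (nat_lit 61) (nat_lit 4) (nat_lit 9) (nat_lit 0) (nat_lit 19) TL6 CL5 CL6 = true := by decide +kernel
def st6_19_0 : starCk (nat_lit 61) (nat_lit 4) (nat_lit 1) (nat_lit 2) (nat_lit 382) (nat_lit 490) (nat_lit 4096) C6_19 = true := by decide +kernel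
def sc6_19 : stCov (nat_lit 3) (nat_lit 490) (Rl.cons (nat_lit 490) (nat_lit 382) Rl.nil) C6_19 = true := by decide +kernel
def wf6_20 : wfC (nat_lit 61) (nat_lit 4) C6_20 = true := by decide +kernel
def rf6_20 : rfCk (nat_lit 61) (nat_lit 2) (nat_lit 61) (nat_lit 4) (nat_lit 9) (nat_lit 0) (nat_lit 20) TL6 CL5 CL6 = true := by decide +kernel
def st6_20_0 : starCk (nat_lit 61) (nat_lit 4) (nat_lit 1) (nat_lit 2) (nat_lit 177) (nat_lit 602) (nat_lit 16) C6_20 = true := by decide +kernel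
def sc6_20 : stCov (nat_lit 1) (nat_lit 602) (Rl.cons (nat_lit 602) (nat_lit 177) Rl.nil) C6_20 = true := by decide +kernel
def wf6_21 : wfC (nat_lit 61) (nat_lit 4) C6_21 = true := by decide +kernel
def rf6_21 : rfCk (nat_lit 61) (nat_lit 2) (nat_lit 61) (nat_lit 4) (nat_lit 9) (nat_lit 0) (nat_lit 21) TL6 CL5 CL6 = true := by decide +kernel
def st6_21_0 : starCk (nat_lit 61) (nat_lit 4) (nat_lit 1) (nat_lit 2) (nat_lit 170) (nat_lit 577) (nat_lit 16) C6_21 = true := by decide +kernel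
def sc6_21 : stCov (nat_lit 1) (nat_lit 577) (Rl.cons (nat_lit 577) (nat_lit 170) Rl.nil) C6_21 = true := by decide +kernel
def wf6_22 : wfC (nat_lit 61) (nat_lit 4) C6_22 = true := by decide +kernel
def rf6_22 : rfCk (nat_lit 61) (nat_lit 2) (nat_lit 61) (nat_lit 4) (nat_lit 9) (nat_lit 0) (nat_lit 22) TL6 CL5 CL6 = true := by decide +kernel

end Pool.Agent.NNr.R11_1_2_3
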