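import Pool.Agent.NNr.R11_1_2_3.D5
import Pool.Agent.NNr.R11_1_2_3.D6

set_option linter.all false
set_option maxRecDepth 1000000
namespace Pool.Agent.NNr.R11_1_2_3

open Pool.Agent.NNe

def st6_22_0 : starCk (nat_lit 61) (nat_lit 4) (nat_lit 1) (nat_lit 2) (nat_lit 264) (nat_lit 529) (nat_lit 256) C6_22 = true := by decide +kernel
def sc6_22 : stCov (nat_lit 2) (nat_lit 529) (Rl.cons (nat_lit 529) (nat_lit 264) Rl.nil) C6_22 = true := by decide +kernel
def wf6_23 : wfC (nat_lit 61) (nat_lit 4) C6_23 = true := by decide +kernel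
def rf6_23 : rfCk (nat_lit 61) (nat_lit 2) (nat_lit 61) (nat_lit 4) (nat_lit 9) (nat_lit 0) (nat_lit 23) TL6 CL5 CL6 = true := by decide +kernel
def st6_23_0 : starCk (nat_lit 61) (nat_lit 4) (nat_lit 1) (nat_lit 2) (nat_lit 89) (nat_lit 516) (nat_lit 16) C6_23 = true := by decide +kernel
def sc6_23 : stCov (nat_lit 1) (nat_lit 516) (Rl.cons (nat_lit 516) (nat_lit 89) Rl.nil) C6_23 = true := by decide +kernel
def wf6_24 : wfC (nat_lit 61) (nat_lit 4) C6_24 = true := by decide +kernel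
def rf6_24 : rfCk (nat_lit 61) (nat_lit 2) (nat_lit 61) (nat_lit 4) (nat_lit 9) (nat_lit 0) (nat_lit 24) TL6 CL5 CL6 = true := by decide +kernel
def st6_24_0 : starCk (nat_lit 61) (nat_lit 4) (nat_lit 1) (nat_lit 2) (nat_lit 109) (nat_lit 222) (nat_lit 4096) C6_24 = true := by decide +kernel
def sc6_24 : stCov (nat_lit 3) (nat_lit 222) (Rl.cons (nat_lit 222) (nat_lit 109) Rl.nil) C6_24 = true := by decide +kernel
def ti6_0 : tileCk (nat_lit 61) (nat_lit 4) (nat_lit 2) (nat_lit 1) (nat_lit 297) (nat_lit 11) (nat_lit 25) ZL6_0 CL6 = true := by decide +kernel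
def zl6_0 : zlOK (nat_lit 297) ZL6_0 = true := by decide +kernel
def ti6_1 : tileCk (nat_lit 61) (nat_lit 4) (nat_lit 2) (nat_lit 1) (nat_lit 58) (nat_lit 11) (nat_lit 25) ZL6_1 CL6 = true := by decide +kernel
def zl6_1 : zlOK (nat_lit 58) ZL6_1 = true := by decide +kernel
def ti6_2 : tileCk (nat_lit 61) (nat_lit 4) (nat_lit 2) (nat_lit 1) (nat_lit 198) (nat_lit 11) (nat_lit 25) ZL6_2 CL6 = true := by decide +kernel
def zl6_2 : zlOK (nat_lit 198) ZL6_2 = true := by decide +kernel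
def ti6_3 : tileCk (nat_lit 61) (nat_lit 4) (nat_lit 2) (nat_lit 1) (nat_lit 204) (nat_lit 11) (nat_lit 25) ZL6_3 CL6 = true := by decide +kernel
def zl6_3 : zlOK (nat_lit 204) ZL6_3 = true := by decide +kernel
def ti6_4 : tileCk (nat_lit 61) (nat_lit 4) (nat_lit 2) (nat_lit 1) (nat_lit 16) (nat_lit 11) (nat_lit 25) ZL6_4 CL6 = true := by decide +kernel
def zl6_4 : zlOK (nat_lit 16) ZL6_4 = true := by decide +kernel
def ti6_5 : tileCk (nat_lit 61) (nat_lit 4) (nat_lit 2) (nat_lit 1) (nat_lit 215) (nat_lit 11) (nat_lit 25) ZL6_5 CL6 = true := by decide +kernel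
def zl6_5 : zlOK (nat_lit 215) ZL6_5 = true := by decide +kernel
def tc6_0 : tiCov (nat_lit 1) (nat_lit 0) ZZ6 C6_0 = true := by decide +kernel
def tc6_1 : tiCov (nat_lit 1) (nat_lit 1) ZZ6 C6_1 = true := by decide +kernel
def tc6_2 : tiCov (nat_lit 1) (nat_lit 2) ZZ6 C6_2 = true := by decide +kernel
def tc6_3 : tiCov (nat_lit 1) (nat_lit 3) ZZ6 C6_3 = true := by decide +kernel
def tc6_4 : tiCov (nat_lit 1) (nat_lit 4) ZZ6 C6_4 = true := by decide +kernel
def tc6_5 : tiCov (nat_lit 1) (nat_lit 5) ZZ6 C6_5 = true := by decide +kernel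
def tc6_6 : tiCov (nat_lit 1) (nat_lit 6) ZZ6 C6_6 = true := by decide +kernel

end Pool.Agent.NNr.R11_1_2_3
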