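import Pool.Agent.NNr.R11_1_2_3.D6
import Pool.Agent.NNr.R11_1_2_3.D7

set_option linter.all false
set_option maxRecDepth 1000000
namespace Pool.Agent.NNr.R11_1_2_3

open Pool.Agent.NNe

def tc6_7 : tiCov (nat_lit 1) (nat_lit 7) ZZ6 C6_7 = true := by decide +kernel
def tc6_8 : tiCov (nat_lit 1) (nat_lit 8) ZZ6 C6_8 = true := by decide +kernel
def tc6_9 : tiCov (nat_lit 1) (nat_lit 9) ZZ6 C6_9 = true := by decide +kernel
def tc6_10 : tiCov (nat_lit 1) (nat_lit 10) ZZ6 C6_10 = true := by decide +kernel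
def tc6_11 : tiCov (nat_lit 1) (nat_lit 11) ZZ6 C6_11 = true := by decide +kernel
def tc6_12 : tiCov (nat_lit 1) (nat_lit 12) ZZ6 C6_12 = true := by decide +kernel
def tc6_18 : tiCov (nat_lit 1) (nat_lit 18) ZZ6 C6_18 = true := by decide +kernel
def tc6_19 : tiCov (nat_lit 1) (nat_lit 19) ZZ6 C6_19 = true := by decide +kernel
def tc6_20 : tiCov (nat_lit 1) (nat_lit 20) ZZ6 C6_20 = true := by decide +kernel
def tc6_21 : tiCov (nat_lit 1) (nat_lit 21) ZZ6 C6_21 = true := by decide +kernel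
def tc6_22 : tiCov (nat_lit 1) (nat_lit 22) ZZ6 C6_22 = true := by decide +kernel
def tc6_23 : tiCov (nat_lit 1) (nat_lit 23) ZZ6 C6_23 = true := by decide +kernel
def tc6_24 : tiCov (nat_lit 1) (nat_lit 24) ZZ6 C6_24 = true := by decide +kernel
def wf7_0 : wfC (nat_lit 61) (nat_lit 3) C7_0 = true := by decide +kernel
def rf7_0 : rfCk (nat_lit 61) (nat_lit 4) (nat_lit 61) (nat_lit 3) (nat_lit 3) (nat_lit 2097152) (nat_lit 0) TL7 CL6 CL7 = true := by decide +kernel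
def st7_0_0 : starCk (nat_lit 61) (nat_lit 3) (nat_lit 1) (nat_lit 1) (nat_lit 232) (nat_lit 0) (nat_lit 256) C7_0 = true := by decide +kernel
def sc7_0 : stCov (nat_lit 2) (nat_lit 0) (Rl.cons (nat_lit 0) (nat_lit 232) Rl.nil) C7_0 = true := by decide +kernel
def wf7_1 : wfC (nat_lit 61) (nat_lit 3) C7_1 = true := by decide +kernel
def rf7_1 : rfCk (nat_lit 61) (nat_lit 4) (nat_lit 61) (nat_lit 3) (nat_lit 3) (nat_lit 2097152) (nat_lit 1) TL7 CL6 CL7 = true := by decide +kernel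
def st7_1_0 : starCk (nat_lit 61) (nat_lit 3) (nat_lit 1) (nat_lit 1) (nat_lit 204) (nat_lit 436) (nat_lit 256) C7_1 = true := by decide +kernel
def sc7_1 : stCov (nat_lit 2) (nat_lit 436) (Rl.cons (nat_lit 436) (nat_lit 204) Rl.nil) C7_1 = true := by decide +kernel
def wf7_2 : wfC (nat_lit 61) (nat_lit 3) C7_2 = true := by decide +kernel
def rf7_2 : rfCk (nat_lit 61) (nat_lit 4) (nat_lit 61) (nat_lit 3) (nat_lit 3) (nat_lit 2097152) (nat_lit 2) TL7 CL6 CL7 = true := by decide +kernel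
def st7_2_0 : starCk (nat_lit 61) (nat_lit 3) (nat_lit 1) (nat_lit 1) (nat_lit 80) (nat_lit 0) (nat_lit 16) C7_2 = true := by decide +kernel
def sc7_2 : stCov (nat_lit 1) (nat_lit 0) (Rl.cons (nat_lit 0) (nat_lit 80) Rl.nil) C7_2 = true := by decide +kernel
def wf7_3 : wfC (nat_lit 61) (nat_lit 3) C7_3 = true := by decide +kernel
def rf7_3 : rfCk (nat_lit 61) (nat_lit 4) (nat_lit 61) (nat_lit 3) (nat_lit 3) (nat_lit 2097152) (nat_lit 3) TL7 CL6 CL7 = true := by decide +kernel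
def st7_3_0 : starCk (nat_lit 61) (nat_lit 3) (nat_lit 1) (nat_lit 1) (nat_lit 110) (nat_lit 148) (nat_lit 1) C7_3 = true := by decide +kernel
def sc7_3 : stCov (nat_lit 0) (nat_lit 148) (Rl.cons (nat_lit 148) (nat_lit 110) Rl.nil) C7_3 = true := by decide +kernel
def wf7_4 : wfC (nat_lit 61) (nat_lit 3) C7_4 = true := by decide +kernel
def rf7_4 : rfCk (nat_lit 61) (nat_lit 4) (nat_lit 61) (nat_lit 3) (nat_lit 3) (nat_lit 2097152) (nat_lit 4) TL7 CL6 CL7 = true := by decide +kernel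
def st7_4_0 : starCk (nat_lit 61) (nat_lit 3) (nat_lit 1) (nat_lit 1) (nat_lit 92) (nat_lit 118) (nat_lit 1) C7_4 = true := by decide +kernel
def sc7_4 : stCov (nat_lit 0) (nat_lit 118) (Rl.cons (nat_lit 118) (nat_lit 92) Rl.nil) C7_4 = true := by decide +kernel
def wf7_5 : wfC (nat_lit 61) (nat_lit 3) C7_5 = true := by decide +kernel
def rf7_5 : rfCk (nat_lit 61) (nat_lit 4) (nat_lit 61) (nat_lit 3) (nat_lit 3) (nat_lit 2097152) (nat_lit 5) TL7 CL6 CL7 = true := by decide +kernel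
def st7_5_0 : starCk (nat_lit 61) (nat_lit 3) (nat_lit 1) (nat_lit 1) (nat_lit 181) (nat_lit 210) (nat_lit 1) C7_5 = true := by decide +kernel
def sc7_5 : stCov (nat_lit 0) (nat_lit 210) (Rl.cons (nat_lit 210) (nat_lit 181) Rl.nil) C7_5 = true := by decide +kernel
def wf7_6 : wfC (nat_lit 61) (nat_lit 3) C7_6 = true := by decide +kernel
def rf7_6 : rfCk (nat_lit 61) (nat_lit 4) (nat_lit 61) (nat_lit 3) (nat_lit 3) (nat_lit 2097152) (nat_lit 6) TL7 CL6 CL7 = true := by decide +kernel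
def st7_6_0 : starCk (nat_lit 61) (nat_lit 3) (nat_lit 1) (nat_lit 1) (nat_lit 78) (nat_lit 106) (nat_lit 1) C7_6 = true := by decide +kernel
def sc7_6 : stCov (nat_lit 0) (nat_lit 106) (Rl.cons (nat_lit 106) (nat_lit 78) Rl.nil) C7_6 = true := by decide +kernel
def wf7_7 : wfC (nat_lit 61) (nat_lit 3) C7_7 = true := by decide +kernel
def rf7_7 : rfCk (nat_lit 61) (nat_lit 4) (nat_lit 61) (nat_lit 3) (nat_lit 3) (nat_lit 2097152) (nat_lit 7) TL7 CL6 CL7 = true := by decide +kernel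
def st7_7_0 : starCk (nat_lit 61) (nat_lit 3) (nat_lit 1) (nat_lit 1) (nat_lit 101) (nat_lit 112) (nat_lit 1) C7_7 = true := by decide +kernel
def sc7_7 : stCov (nat_lit 0) (nat_lit 112) (Rl.cons (nat_lit 112) (nat_lit 101) Rl.nil) C7_7 = true := by decide +kernel
def wf7_8 : wfC (nat_lit 61) (nat_lit 3) C7_8 = true := by decide +kernel
def rf7_8 : rfCk (nat_lit 61) (nat_lit 4) (nat_lit 61) (nat_lit 3) (nat_lit 3) (nat_lit 2097152) (nat_lit 8) TL7 CL6 CL7 = true := by decide +kernel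

end Pool.Agent.NNr.R11_1_2_3
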