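import Pool.Agent.NNr.R11_1_2_3.D6
import Pool.Agent.NNr.R11_1_2_3.D7

set_option linter.all false
set_option maxRecDepth 1000000
namespace Pool.Agent.NNr.R11_1_2_3

open Pool.Agent.NNe

def st7_8_0 : starCk (nat_lit 61) (nat_lit 3) (nat_lit 1) (nat_lit 1) (nat_lit 156) (nat_lit 710) (nat_lit 256) C7_8 = true := by decide +kernel
def sc7_8 : stCov (nat_lit 2) (nat_lit 710) (Rl.cons (nat_lit 710) (nat_lit 156) Rl.nil) C7_8 = true := by decide +kernel
def wf7_9 : wfC (nat_lit 61) (nat_lit 3) C7_9 = true := by decide +kernel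
def rf7_9 : rfCk (nat_lit 61) (nat_lit 4) (nat_lit 61) (nat_lit 3) (nat_lit 3) (nat_lit 2097152) (nat_lit 9) TL7 CL6 CL7 = true := by decide +kernel
def st7_9_0 : starCk (nat_lit 61) (nat_lit 3) (nat_lit 1) (nat_lit 1) (nat_lit 80) (nat_lit 317) (nat_lit 16) C7_9 = true := by decide +kernel
def sc7_9 : stCov (nat_lit 1) (nat_lit 317) (Rl.cons (nat_lit 317) (nat_lit 80) Rl.nil) C7_9 = true := by decide +kernel
def wf7_10 : wfC (nat_lit 61) (nat_lit 3) C7_10 = true := by decide +kernel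
def rf7_10 : rfCk (nat_lit 61) (nat_lit 4) (nat_lit 61) (nat_lit 3) (nat_lit 3) (nat_lit 2097152) (nat_lit 10) TL7 CL6 CL7 = true := by decide +kernel
def st7_10_0 : starCk (nat_lit 61) (nat_lit 3) (nat_lit 1) (nat_lit 1) (nat_lit 54) (nat_lit 88) (nat_lit 1) C7_10 = true := by decide +kernel
def sc7_10 : stCov (nat_lit 0) (nat_lit 88) (Rl.cons (nat_lit 88) (nat_lit 54) Rl.nil) C7_10 = true := by decide +kernel
def wf7_11 : wfC (nat_lit 61) (nat_lit 3) C7_11 = true := by decide +kernel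
def rf7_11 : rfCk (nat_lit 61) (nat_lit 4) (nat_lit 61) (nat_lit 3) (nat_lit 3) (nat_lit 2097152) (nat_lit 11) TL7 CL6 CL7 = true := by decide +kernel
def st7_11_0 : starCk (nat_lit 61) (nat_lit 3) (nat_lit 1) (nat_lit 1) (nat_lit 66) (nat_lit 363) (nat_lit 256) C7_11 = true := by decide +kernel
def sc7_11 : stCov (nat_lit 2) (nat_lit 363) (Rl.cons (nat_lit 363) (nat_lit 66) Rl.nil) C7_11 = true := by decide +kernel
def wf7_12 : wfC (nat_lit 61) (nat_lit 3) C7_12 = true := by decide +kernel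
def rf7_12 : rfCk (nat_lit 61) (nat_lit 4) (nat_lit 61) (nat_lit 3) (nat_lit 3) (nat_lit 2097152) (nat_lit 12) TL7 CL6 CL7 = true := by decide +kernel
def st7_12_0 : starCk (nat_lit 61) (nat_lit 3) (nat_lit 1) (nat_lit 1) (nat_lit 54) (nat_lit 131) (nat_lit 256) C7_12 = true := by decide +kernel
def sc7_12 : stCov (nat_lit 2) (nat_lit 131) (Rl.cons (nat_lit 131) (nat_lit 54) Rl.nil) C7_12 = true := by decide +kernel
def wf7_18 : wfC (nat_lit 61) (nat_lit 3) C7_18 = true := by decide +kernel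
def rf7_18 : rfCk (nat_lit 61) (nat_lit 4) (nat_lit 61) (nat_lit 3) (nat_lit 3) (nat_lit 2097152) (nat_lit 18) TL7 CL6 CL7 = true := by decide +kernel
def st7_18_0 : starCk (nat_lit 61) (nat_lit 3) (nat_lit 1) (nat_lit 1) (nat_lit 779) (nat_lit 2078) (nat_lit 4096) C7_18 = true := by decide +kernel
def st7_18_1 : starCk (nat_lit 61) (nat_lit 3) (nat_lit 1) (nat_lit 1) (nat_lit 779) (nat_lit 2857) (nat_lit 4096) C7_18 = true := by decide +kernel
def sc7_18 : stCov (nat_lit 3) (nat_lit 2078) (Rl.cons (nat_lit 2078) (nat_lit 779) (Rl.cons (nat_lit 2857) (nat_lit 779) Rl.nil)) C7_18 = true := by decide +kernel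
def wf7_19 : wfC (nat_lit 61) (nat_lit 3) C7_19 = true := by decide +kernel
def rf7_19 : rfCk (nat_lit 61) (nat_lit 4) (nat_lit 61) (nat_lit 3) (nat_lit 3) (nat_lit 2097152) (nat_lit 19) TL7 CL6 CL7 = true := by decide +kernel

end Pool.Agent.NNr.R11_1_2_3
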