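import Pool.Agent.NNr.R11_1_2_3.D6
import Pool.Agent.NNr.R11_1_2_3.D7

set_option linter.all false
set_option maxRecDepth 1000000
namespace Pool.Agent.NNr.R11_1_2_3

open Pool.Agent.NNe

def st7_19_0 : starCk (nat_lit 61) (nat_lit 3) (nat_lit 1) (nat_lit 1) (nat_lit 1002) (nat_lit 1418) (nat_lit 4096) C7_19 = true := by decide +kernel
def sc7_19 : stCov (nat_lit 3) (nat_lit 1418) (Rl.cons (nat_lit 1418) (nat_lit 1002) Rl.nil) C7_19 = true := by decide +kernel
def wf7_20 : wfC (nat_lit 61) (nat_lit 3) C7_20 = true := by decide +kernel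
def rf7_20 : rfCk (nat_lit 61) (nat_lit 4) (nat_lit 61) (nat_lit 3) (nat_lit 3) (nat_lit 2097152) (nat_lit 20) TL7 CL6 CL7 = true := by decide +kernel
def st7_20_0 : starCk (nat_lit 61) (nat_lit 3) (nat_lit 1) (nat_lit 1) (nat_lit 258) (nat_lit 672) (nat_lit 1) C7_20 = true := by decide +kernel

end Pool.Agent.NNr.R11_1_2_3
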