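import Pool.Agent.NNr.R11_1_2_3.D6
import Pool.Agent.NNr.R11_1_2_3.D7

set_option linter.all false
set_option maxRecDepth 1000000
namespace Pool.Agent.NNr.R11_1_2_3

open Pool.Agent.NNe

def st7_20_1 : starCk (nat_lit 61) (nat_lit 3) (nat_lit 1) (nat_lit 1) (nat_lit 259) (nat_lit 930) (nat_lit 1) C7_20 = true := by decide +kernel
def sc7_20 : stCov (nat_lit 0) (nat_lit 672) (Rl.cons (nat_lit 672) (nat_lit 258) (Rl.cons (nat_lit 930) (nat_lit 259) Rl.nil)) C7_20 = true := by decide +kernel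
def wf7_21 : wfC (nat_lit 61) (nat_lit 3) C7_21 = true := by decide +kernel
def rf7_21 : rfCk (nat_lit 61) (nat_lit 4) (nat_lit 61) (nat_lit 3) (nat_lit 3) (nat_lit 2097152) (nat_lit 21) TL7 CL6 CL7 = true := by decide +kernel
def st7_21_0 : starCk (nat_lit 61) (nat_lit 3) (nat_lit 1) (nat_lit 1) (nat_lit 224) (nat_lit 592) (nat_lit 1) C7_21 = true := by decide +kernel

end Pool.Agent.NNr.R11_1_2_3
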