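import Pool.Agent.NNr.R11_1_2_3.D6
import Pool.Agent.NNr.R11_1_2_3.D7

set_option linter.all false
set_option maxRecDepth 1000000
namespace Pool.Agent.NNr.R11_1_2_3

open Pool.Agent.NNe

def st7_21_1 : starCk (nat_lit 61) (nat_lit 3) (nat_lit 1) (nat_lit 1) (nat_lit 224) (nat_lit 816) (nat_lit 1) C7_21 = true := by decide +kernel
def sc7_21 : stCov (nat_lit 0) (nat_lit 592) (Rl.cons (nat_lit 592) (nat_lit 224) (Rl.cons (nat_lit 816) (nat_lit 224) Rl.nil)) C7_21 = true := by decide +kernel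
def wf7_22 : wfC (nat_lit 61) (nat_lit 3) C7_22 = true := by decide +kernel
def rf7_22 : rfCk (nat_lit 61) (nat_lit 4) (nat_lit 61) (nat_lit 3) (nat_lit 3) (nat_lit 2097152) (nat_lit 22) TL7 CL6 CL7 = true := by decide +kernel
def st7_22_0 : starCk (nat_lit 61) (nat_lit 3) (nat_lit 1) (nat_lit 1) (nat_lit 492) (nat_lit 936) (nat_lit 256) C7_22 = true := by decide +kernel
def sc7_22 : stCov (nat_lit 2) (nat_lit 936) (Rl.cons (nat_lit 936) (nat_lit 492) Rl.nil) C7_22 = true := by decide +kernel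
def wf7_23 : wfC (nat_lit 61) (nat_lit 3) C7_23 = true := by decide +kernel
def rf7_23 : rfCk (nat_lit 61) (nat_lit 4) (nat_lit 61) (nat_lit 3) (nat_lit 3) (nat_lit 2097152) (nat_lit 23) TL7 CL6 CL7 = true := by decide +kernel
def st7_23_0 : starCk (nat_lit 61) (nat_lit 3) (nat_lit 1) (nat_lit 1) (nat_lit 272) (nat_lit 927) (nat_lit 16) C7_23 = true := by decide +kernel
def sc7_23 : stCov (nat_lit 1) (nat_lit 927) (Rl.cons (nat_lit 927) (nat_lit 272) Rl.nil) C7_23 = true := by decide +kernel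
def wf7_24 : wfC (nat_lit 61) (nat_lit 3) C7_24 = true := by decide +kernel
def rf7_24 : rfCk (nat_lit 61) (nat_lit 4) (nat_lit 61) (nat_lit 3) (nat_lit 3) (nat_lit 2097152) (nat_lit 24) TL7 CL6 CL7 = true := by decide +kernel

end Pool.Agent.NNr.R11_1_2_3
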