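import Pool.Agent.NNr.R11_1_2_3.D7

set_option linter.all false
set_option maxRecDepth 1000000
namespace Pool.Agent.NNr.R11_1_2_3

open Pool.Agent.NNe

def st7_24_0 : starCk (nat_lit 61) (nat_lit 3) (nat_lit 1) (nat_lit 1) (nat_lit 269) (nat_lit 411) (nat_lit 4096) C7_24 = true := by decide +kernel
def sc7_24 : stCov (nat_lit 3) (nat_lit 411) (Rl.cons (nat_lit 411) (nat_lit 269) Rl.nil) C7_24 = true := by decide +kernel
def ti7_0 : tileCk (nat_lit 61) (nat_lit 3) (nat_lit 2) (nat_lit 1) (nat_lit 540) (nat_lit 11) (nat_lit 25) ZL7_0 CL7 = true := by decide +kernel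
def zl7_0 : zlOK (nat_lit 540) ZL7_0 = true := by decide +kernel
def ti7_1 : tileCk (nat_lit 61) (nat_lit 3) (nat_lit 2) (nat_lit 1) (nat_lit 106) (nat_lit 11) (nat_lit 25) ZL7_1 CL7 = true := by decide +kernel
def zl7_1 : zlOK (nat_lit 106) ZL7_1 = true := by decide +kernel
def ti7_2 : tileCk (nat_lit 61) (nat_lit 3) (nat_lit 2) (nat_lit 1) (nat_lit 317) (nat_lit 11) (nat_lit 25) ZL7_2 CL7 = true := by decide +kernel
def zl7_2 : zlOK (nat_lit 317) ZL7_2 = true := by decide +kernel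
def ti7_3 : tileCk (nat_lit 61) (nat_lit 3) (nat_lit 2) (nat_lit 1) (nat_lit 280) (nat_lit 11) (nat_lit 25) ZL7_3 CL7 = true := by decide +kernel
def zl7_3 : zlOK (nat_lit 280) ZL7_3 = true := by decide +kernel
def ti7_4 : tileCk (nat_lit 61) (nat_lit 3) (nat_lit 2) (nat_lit 1) (nat_lit 25) (nat_lit 11) (nat_lit 25) ZL7_4 CL7 = true := by decide +kernel
def zl7_4 : zlOK (nat_lit 25) ZL7_4 = true := by decide +kernel
def ti7_5 : tileCk (nat_lit 61) (nat_lit 3) (nat_lit 2) (nat_lit 1) (nat_lit 340) (nat_lit 11) (nat_lit 25) ZL7_5 CL7 = true := by decide +kernel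
def zl7_5 : zlOK (nat_lit 340) ZL7_5 = true := by decide +kernel

end Pool.Agent.NNr.R11_1_2_3
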