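import Pool.Agent.NNr.R11_1_2_3.D1
import Pool.Agent.NNr.R11_1_2_3.D2

set_option linter.all false
set_option maxRecDepth 1000000
namespace Pool.Agent.NNr.R11_1_2_3

open Pool.Agent.NNe

def ti1_2 : tileCk (nat_lit 61) (nat_lit 2) (nat_lit 1) (nat_lit 1) (nat_lit 369) (nat_lit 11) (nat_lit 25) ZL1_2 CL1 = true := by decide +kernel
def zl1_2 : zlOK (nat_lit 369) ZL1_2 = true := by decide +kernel
def tc1_0 : tiCov (nat_lit 1) (nat_lit 0) ZZ1 C1_0 = true := by decide +kernel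
def tc1_1 : tiCov (nat_lit 1) (nat_lit 1) ZZ1 C1_1 = true := by decide +kernel
def tc1_2 : tiCov (nat_lit 1) (nat_lit 2) ZZ1 C1_2 = true := by decide +kernel
def tc1_3 : tiCov (nat_lit 1) (nat_lit 3) ZZ1 C1_3 = true := by decide +kernel
def tc1_4 : tiCov (nat_lit 1) (nat_lit 4) ZZ1 C1_4 = true := by decide +kernel
def tc1_5 : tiCov (nat_lit 1) (nat_lit 5) ZZ1 C1_5 = true := by decide +kernel
def tc1_6 : tiCov (nat_lit 1) (nat_lit 6) ZZ1 C1_6 = true := by decide +kernel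
def tc1_7 : tiCov (nat_lit 1) (nat_lit 7) ZZ1 C1_7 = true := by decide +kernel
def tc1_8 : tiCov (nat_lit 1) (nat_lit 8) ZZ1 C1_8 = true := by decide +kernel
def tc1_9 : tiCov (nat_lit 1) (nat_lit 9) ZZ1 C1_9 = true := by decide +kernel
def tc1_10 : tiCov (nat_lit 1) (nat_lit 10) ZZ1 C1_10 = true := by decide +kernel
def tc1_11 : tiCov (nat_lit 1) (nat_lit 11) ZZ1 C1_11 = true := by decide +kernel
def tc1_12 : tiCov (nat_lit 1) (nat_lit 12) ZZ1 C1_12 = true := by decide +kernel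
def tc1_13 : tiCov (nat_lit 1) (nat_lit 13) ZZ1 C1_13 = true := by decide +kernel
def tc1_14 : tiCov (nat_lit 1) (nat_lit 14) ZZ1 C1_14 = true := by decide +kernel
def tc1_18 : tiCov (nat_lit 1) (nat_lit 18) ZZ1 C1_18 = true := by decide +kernel
def tc1_19 : tiCov (nat_lit 1) (nat_lit 19) ZZ1 C1_19 = true := by decide +kernel
def tc1_20 : tiCov (nat_lit 1) (nat_lit 20) ZZ1 C1_20 = true := by decide +kernel
def tc1_21 : tiCov (nat_lit 1) (nat_lit 21) ZZ1 C1_21 = true := by decide +kernel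
def tc1_22 : tiCov (nat_lit 1) (nat_lit 22) ZZ1 C1_22 = true := by decide +kernel
def tc1_23 : tiCov (nat_lit 1) (nat_lit 23) ZZ1 C1_23 = true := by decide +kernel
def tc1_24 : tiCov (nat_lit 1) (nat_lit 24) ZZ1 C1_24 = true := by decide +kernel
def wf2_0 : wfC (nat_lit 61) (nat_lit 4) C2_0 = true := by decide +kernel
def rf2_0 : rfCk (nat_lit 61) (nat_lit 2) (nat_lit 61) (nat_lit 4) (nat_lit 9) (nat_lit 0) (nat_lit 0) TL2 CL1 CL2 = true := by decide +kernel
def st2_0_0 : starCk (nat_lit 61) (nat_lit 4) (nat_lit 1) (nat_lit 2) (nat_lit 18) (nat_lit 0) (nat_lit 256) C2_0 = true := by decide +kernel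
def sc2_0 : stCov (nat_lit 2) (nat_lit 0) (Rl.cons (nat_lit 0) (nat_lit 18) Rl.nil) C2_0 = true := by decide +kernel
def wf2_1 : wfC (nat_lit 61) (nat_lit 4) C2_1 = true := by decide +kernel
def rf2_1 : rfCk (nat_lit 61) (nat_lit 2) (nat_lit 61) (nat_lit 4) (nat_lit 9) (nat_lit 0) (nat_lit 1) TL2 CL1 CL2 = true := by decide +kernel
def st2_1_0 : starCk (nat_lit 61) (nat_lit 4) (nat_lit 1) (nat_lit 2) (nat_lit 29) (nat_lit 49) (nat_lit 256) C2_1 = true := by decide +kernel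
def sc2_1 : stCov (nat_lit 2) (nat_lit 49) (Rl.cons (nat_lit 49) (nat_lit 29) Rl.nil) C2_1 = true := by decide +kernel
def wf2_2 : wfC (nat_lit 61) (nat_lit 4) C2_2 = true := by decide +kernel
def rf2_2 : rfCk (nat_lit 61) (nat_lit 2) (nat_lit 61) (nat_lit 4) (nat_lit 9) (nat_lit 0) (nat_lit 2) TL2 CL1 CL2 = true := by decide +kernel
def st2_2_0 : starCk (nat_lit 61) (nat_lit 4) (nat_lit 1) (nat_lit 2) (nat_lit 15) (nat_lit 0) (nat_lit 16) C2_2 = true := by decide +kernel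
def sc2_2 : stCov (nat_lit 1) (nat_lit 0) (Rl.cons (nat_lit 0) (nat_lit 15) Rl.nil) C2_2 = true := by decide +kernel
def wf2_3 : wfC (nat_lit 61) (nat_lit 4) C2_3 = true := by decide +kernel
def rf2_3 : rfCk (nat_lit 61) (nat_lit 2) (nat_lit 61) (nat_lit 4) (nat_lit 9) (nat_lit 0) (nat_lit 3) TL2 CL1 CL2 = true := by decide +kernel
def st2_3_0 : starCk (nat_lit 61) (nat_lit 4) (nat_lit 1) (nat_lit 2) (nat_lit 26) (nat_lit 88) (nat_lit 16) C2_3 = true := by decide +kernel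
def sc2_3 : stCov (nat_lit 1) (nat_lit 88) (Rl.cons (nat_lit 88) (nat_lit 26) Rl.nil) C2_3 = true := by decide +kernel
def wf2_4 : wfC (nat_lit 61) (nat_lit 4) C2_4 = true := by decide +kernel
def rf2_4 : rfCk (nat_lit 61) (nat_lit 2) (nat_lit 61) (nat_lit 4) (nat_lit 9) (nat_lit 0) (nat_lit 4) TL2 CL1 CL2 = true := by decide +kernel
def st2_4_0 : starCk (nat_lit 61) (nat_lit 4) (nat_lit 1) (nat_lit 2) (nat_lit 25) (nat_lit 159) (nat_lit 256) C2_4 = true := by decide +kernel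
def sc2_4 : stCov (nat_lit 2) (nat_lit 159) (Rl.cons (nat_lit 159) (nat_lit 25) Rl.nil) C2_4 = true := by decide +kernel
def wf2_5 : wfC (nat_lit 61) (nat_lit 4) C2_5 = true := by decide +kernel
def rf2_5 : rfCk (nat_lit 61) (nat_lit 2) (nat_lit 61) (nat_lit 4) (nat_lit 9) (nat_lit 0) (nat_lit 5) TL2 CL1 CL2 = true := by decide +kernel
def st2_5_0 : starCk (nat_lit 61) (nat_lit 4) (nat_lit 1) (nat_lit 2) (nat_lit 40) (nat_lit 208) (nat_lit 256) C2_5 = true := by decide +kernel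
def sc2_5 : stCov (nat_lit 2) (nat_lit 208) (Rl.cons (nat_lit 208) (nat_lit 40) Rl.nil) C2_5 = true := by decide +kernel
def wf2_6 : wfC (nat_lit 61) (nat_lit 4) C2_6 = true := by decide +kernel
def rf2_6 : rfCk (nat_lit 61) (nat_lit 2) (nat_lit 61) (nat_lit 4) (nat_lit 9) (nat_lit 0) (nat_lit 6) TL2 CL1 CL2 = true := by decide +kernel
def st2_6_0 : starCk (nat_lit 61) (nat_lit 4) (nat_lit 1) (nat_lit 2) (nat_lit 35) (nat_lit 29) (nat_lit 1) C2_6 = true := by decide +kernel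
def sc2_6 : stCov (nat_lit 0) (nat_lit 29) (Rl.cons (nat_lit 29) (nat_lit 35) Rl.nil) C2_6 = true := by decide +kernel
def wf2_7 : wfC (nat_lit 61) (nat_lit 4) C2_7 = true := by decide +kernel
def rf2_7 : rfCk (nat_lit 61) (nat_lit 2) (nat_lit 61) (nat_lit 4) (nat_lit 9) (nat_lit 0) (nat_lit 7) TL2 CL1 CL2 = true := by decide +kernel
def st2_7_0 : starCk (nat_lit 61) (nat_lit 4) (nat_lit 1) (nat_lit 2) (nat_lit 28) (nat_lit 80) (nat_lit 256) C2_7 = true := by decide +kernel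
def sc2_7 : stCov (nat_lit 2) (nat_lit 80) (Rl.cons (nat_lit 80) (nat_lit 28) Rl.nil) C2_7 = true := by decide +kernel
def wf2_8 : wfC (nat_lit 61) (nat_lit 4) C2_8 = true := by decide +kernel
def rf2_8 : rfCk (nat_lit 61) (nat_lit 2) (nat_lit 61) (nat_lit 4) (nat_lit 9) (nat_lit 0) (nat_lit 8) TL2 CL1 CL2 = true := by decide +kernel
def st2_8_0 : starCk (nat_lit 61) (nat_lit 4) (nat_lit 1) (nat_lit 2) (nat_lit 20) (nat_lit 182) (nat_lit 256) C2_8 = true := by decide +kernel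
def sc2_8 : stCov (nat_lit 2) (nat_lit 182) (Rl.cons (nat_lit 182) (nat_lit 20) Rl.nil) C2_8 = true := by decide +kernel
def wf2_9 : wfC (nat_lit 61) (nat_lit 4) C2_9 = true := by decide +kernel
def rf2_9 : rfCk (nat_lit 61) (nat_lit 2) (nat_lit 61) (nat_lit 4) (nat_lit 9) (nat_lit 0) (nat_lit 9) TL2 CL1 CL2 = true := by decide +kernel
def st2_9_0 : starCk (nat_lit 61) (nat_lit 4) (nat_lit 1) (nat_lit 2) (nat_lit 20) (nat_lit 117) (nat_lit 16) C2_9 = true := by decide +kernel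
def sc2_9 : stCov (nat_lit 1) (nat_lit 117) (Rl.cons (nat_lit 117) (nat_lit 20) Rl.nil) C2_9 = true := by decide +kernel
def wf2_10 : wfC (nat_lit 61) (nat_lit 4) C2_10 = true := by decide +kernel
def rf2_10 : rfCk (nat_lit 61) (nat_lit 2) (nat_lit 61) (nat_lit 4) (nat_lit 9) (nat_lit 0) (nat_lit 10) TL2 CL1 CL2 = true := by decide +kernel
def st2_10_0 : starCk (nat_lit 61) (nat_lit 4) (nat_lit 1) (nat_lit 2) (nat_lit 19) (nat_lit 53) (nat_lit 16) C2_10 = true := by decide +kernel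
def sc2_10 : stCov (nat_lit 1) (nat_lit 53) (Rl.cons (nat_lit 53) (nat_lit 19) Rl.nil) C2_10 = true := by decide +kernel
def wf2_11 : wfC (nat_lit 61) (nat_lit 4) C2_11 = true := by decide +kernel
def rf2_11 : rfCk (nat_lit 61) (nat_lit 2) (nat_lit 61) (nat_lit 4) (nat_lit 9) (nat_lit 0) (nat_lit 11) TL2 CL1 CL2 = true := by decide +kernel
def st2_11_0 : starCk (nat_lit 61) (nat_lit 4) (nat_lit 1) (nat_lit 2) (nat_lit 11) (nat_lit 113) (nat_lit 256) C2_11 = true := by decide +kernel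
def sc2_11 : stCov (nat_lit 2) (nat_lit 113) (Rl.cons (nat_lit 113) (nat_lit 11) Rl.nil) C2_11 = true := by decide +kernel
def wf2_12 : wfC (nat_lit 61) (nat_lit 4) C2_12 = true := by decide +kernel
def rf2_12 : rfCk (nat_lit 61) (nat_lit 2) (nat_lit 61) (nat_lit 4) (nat_lit 9) (nat_lit 0) (nat_lit 12) TL2 CL1 CL2 = true := by decide +kernel
def st2_12_0 : starCk (nat_lit 61) (nat_lit 4) (nat_lit 1) (nat_lit 2) (nat_lit 10) (nat_lit 53) (nat_lit 256) C2_12 = true := by decide +kernel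
def sc2_12 : stCov (nat_lit 2) (nat_lit 53) (Rl.cons (nat_lit 53) (nat_lit 10) Rl.nil) C2_12 = true := by decide +kernel
def wf2_13 : wfC (nat_lit 61) (nat_lit 4) C2_13 = true := by decide +kernel
def rf2_13 : rfCk (nat_lit 61) (nat_lit 2) (nat_lit 61) (nat_lit 4) (nat_lit 9) (nat_lit 0) (nat_lit 13) TL2 CL1 CL2 = true := by decide +kernel
def st2_13_0 : starCk (nat_lit 61) (nat_lit 4) (nat_lit 1) (nat_lit 2) (nat_lit 2) (nat_lit 26) (nat_lit 16) C2_13 = true := by decide +kernel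
def sc2_13 : stCov (nat_lit 1) (nat_lit 26) (Rl.cons (nat_lit 26) (nat_lit 2) Rl.nil) C2_13 = true := by decide +kernel
def wf2_14 : wfC (nat_lit 61) (nat_lit 4) C2_14 = true := by decide +kernel
def rf2_14 : rfCk (nat_lit 61) (nat_lit 2) (nat_lit 61) (nat_lit 4) (nat_lit 9) (nat_lit 0) (nat_lit 14) TL2 CL1 CL2 = true := by decide +kernel
def sc2_14 : stCov (nat_lit 1) (nat_lit 0) Rl.nil C2_14 = true := by decide +kernel
def wf2_18 : wfC (nat_lit 61) (nat_lit 4) C2_18 = true := by decide +kernel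
def rf2_18 : rfCk (nat_lit 61) (nat_lit 2) (nat_lit 61) (nat_lit 4) (nat_lit 9) (nat_lit 0) (nat_lit 18) TL2 CL1 CL2 = true := by decide +kernel
def st2_18_0 : starCk (nat_lit 61) (nat_lit 4) (nat_lit 1) (nat_lit 2) (nat_lit 242) (nat_lit 324) (nat_lit 4096) C2_18 = true := by decide +kernel
def sc2_18 : stCov (nat_lit 3) (nat_lit 324) (Rl.cons (nat_lit 324) (nat_lit 242) Rl.nil) C2_18 = true := by decide +kernel
def wf2_19 : wfC (nat_lit 61) (nat_lit 4) C2_19 = true := by decide +kernel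
def rf2_19 : rfCk (nat_lit 61) (nat_lit 2) (nat_lit 61) (nat_lit 4) (nat_lit 9) (nat_lit 0) (nat_lit 19) TL2 CL1 CL2 = true := by decide +kernel
def st2_19_0 : starCk (nat_lit 61) (nat_lit 4) (nat_lit 1) (nat_lit 2) (nat_lit 139) (nat_lit 215) (nat_lit 4096) C2_19 = true := by decide +kernel
def sc2_19 : stCov (nat_lit 3) (nat_lit 215) (Rl.cons (nat_lit 215) (nat_lit 139) Rl.nil) C2_19 = true := by decide +kernel
def wf2_20 : wfC (nat_lit 61) (nat_lit 4) C2_20 = true := by decide +kernel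
def rf2_20 : rfCk (nat_lit 61) (nat_lit 2) (nat_lit 61) (nat_lit 4) (nat_lit 9) (nat_lit 0) (nat_lit 20) TL2 CL1 CL2 = true := by decide +kernel

end Pool.Agent.NNr.R11_1_2_3
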