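import Pool.Agent.NNr.R11_1_2_3.D7
import Pool.Agent.NNr.R11_1_2_3.D8

set_option linter.all false
set_option maxRecDepth 1000000
namespace Pool.Agent.NNr.R11_1_2_3

open Pool.Agent.NNe

def ti7_6 : tileCk (nat_lit 61) (nat_lit 3) (nat_lit 2) (nat_lit 1) (nat_lit 540) (nat_lit 11) (nat_lit 25) ZL7_6 CL7 = true := by decide +kernel
def zl7_6 : zlOK (nat_lit 540) ZL7_6 = true := by decide +kernel
def ti7_7 : tileCk (nat_lit 61) (nat_lit 3) (nat_lit 2) (nat_lit 1) (nat_lit 106) (nat_lit 11) (nat_lit 25) ZL7_7 CL7 = true := by decide +kernel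
def zl7_7 : zlOK (nat_lit 106) ZL7_7 = true := by decide +kernel
def ti7_8 : tileCk (nat_lit 61) (nat_lit 3) (nat_lit 2) (nat_lit 1) (nat_lit 317) (nat_lit 11) (nat_lit 25) ZL7_8 CL7 = true := by decide +kernel
def zl7_8 : zlOK (nat_lit 317) ZL7_8 = true := by decide +kernel
def ti7_9 : tileCk (nat_lit 61) (nat_lit 3) (nat_lit 2) (nat_lit 1) (nat_lit 280) (nat_lit 11) (nat_lit 25) ZL7_9 CL7 = true := by decide +kernel
def zl7_9 : zlOK (nat_lit 280) ZL7_9 = true := by decide +kernel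
def ti7_10 : tileCk (nat_lit 61) (nat_lit 3) (nat_lit 2) (nat_lit 1) (nat_lit 25) (nat_lit 11) (nat_lit 25) ZL7_10 CL7 = true := by decide +kernel
def zl7_10 : zlOK (nat_lit 25) ZL7_10 = true := by decide +kernel
def ti7_11 : tileCk (nat_lit 61) (nat_lit 3) (nat_lit 2) (nat_lit 1) (nat_lit 340) (nat_lit 11) (nat_lit 25) ZL7_11 CL7 = true := by decide +kernel
def zl7_11 : zlOK (nat_lit 340) ZL7_11 = true := by decide +kernel
def tc7_0 : tiCov (nat_lit 1) (nat_lit 0) ZZ7 C7_0 = true := by decide +kernel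
def tc7_1 : tiCov (nat_lit 1) (nat_lit 1) ZZ7 C7_1 = true := by decide +kernel
def tc7_2 : tiCov (nat_lit 1) (nat_lit 2) ZZ7 C7_2 = true := by decide +kernel
def tc7_3 : tiCov (nat_lit 1) (nat_lit 3) ZZ7 C7_3 = true := by decide +kernel
def tc7_4 : tiCov (nat_lit 1) (nat_lit 4) ZZ7 C7_4 = true := by decide +kernel
def tc7_5 : tiCov (nat_lit 1) (nat_lit 5) ZZ7 C7_5 = true := by decide +kernel
def tc7_6 : tiCov (nat_lit 1) (nat_lit 6) ZZ7 C7_6 = true := by decide +kernel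
def tc7_7 : tiCov (nat_lit 1) (nat_lit 7) ZZ7 C7_7 = true := by decide +kernel
def tc7_8 : tiCov (nat_lit 1) (nat_lit 8) ZZ7 C7_8 = true := by decide +kernel
def tc7_9 : tiCov (nat_lit 1) (nat_lit 9) ZZ7 C7_9 = true := by decide +kernel
def tc7_10 : tiCov (nat_lit 1) (nat_lit 10) ZZ7 C7_10 = true := by decide +kernel
def tc7_11 : tiCov (nat_lit 1) (nat_lit 11) ZZ7 C7_11 = true := by decide +kernel
def tc7_12 : tiCov (nat_lit 1) (nat_lit 12) ZZ7 C7_12 = true := by decide +kernel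
def tc7_18 : tiCov (nat_lit 1) (nat_lit 18) ZZ7 C7_18 = true := by decide +kernel
def tc7_19 : tiCov (nat_lit 1) (nat_lit 19) ZZ7 C7_19 = true := by decide +kernel
def tc7_20 : tiCov (nat_lit 1) (nat_lit 20) ZZ7 C7_20 = true := by decide +kernel
def tc7_21 : tiCov (nat_lit 1) (nat_lit 21) ZZ7 C7_21 = true := by decide +kernel
def tc7_22 : tiCov (nat_lit 1) (nat_lit 22) ZZ7 C7_22 = true := by decide +kernel
def tc7_23 : tiCov (nat_lit 1) (nat_lit 23) ZZ7 C7_23 = true := by decide +kernel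
def tc7_24 : tiCov (nat_lit 1) (nat_lit 24) ZZ7 C7_24 = true := by decide +kernel
def wf8_0 : wfC (nat_lit 61) (nat_lit 15) C8_0 = true := by decide +kernel
def rf8_0 : rfCk (nat_lit 61) (nat_lit 3) (nat_lit 61) (nat_lit 15) (nat_lit 9) (nat_lit 0) (nat_lit 0) TL8 CL7 CL8 = true := by decide +kernel
def st8_0_0 : starCk (nat_lit 61) (nat_lit 15) (nat_lit 1) (nat_lit 7) (nat_lit 82) (nat_lit 0) (nat_lit 256) C8_0 = true := by decide +kernel
def sc8_0 : stCov (nat_lit 2) (nat_lit 0) (Rl.cons (nat_lit 0) (nat_lit 82) Rl.nil) C8_0 = true := by decide +kernel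
def wf8_1 : wfC (nat_lit 61) (nat_lit 15) C8_1 = true := by decide +kernel
def rf8_1 : rfCk (nat_lit 61) (nat_lit 3) (nat_lit 61) (nat_lit 15) (nat_lit 9) (nat_lit 0) (nat_lit 1) TL8 CL7 CL8 = true := by decide +kernel
def st8_1_0 : starCk (nat_lit 61) (nat_lit 15) (nat_lit 1) (nat_lit 7) (nat_lit 56) (nat_lit 0) (nat_lit 16) C8_1 = true := by decide +kernel
def sc8_1 : stCov (nat_lit 1) (nat_lit 0) (Rl.cons (nat_lit 0) (nat_lit 56) Rl.nil) C8_1 = true := by decide +kernel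
def wf8_2 : wfC (nat_lit 61) (nat_lit 15) C8_2 = true := by decide +kernel
def rf8_2 : rfCk (nat_lit 61) (nat_lit 3) (nat_lit 61) (nat_lit 15) (nat_lit 9) (nat_lit 0) (nat_lit 2) TL8 CL7 CL8 = true := by decide +kernel
def st8_2_0 : starCk (nat_lit 61) (nat_lit 15) (nat_lit 1) (nat_lit 7) (nat_lit 33) (nat_lit 0) (nat_lit 16) C8_2 = true := by decide +kernel
def sc8_2 : stCov (nat_lit 1) (nat_lit 0) (Rl.cons (nat_lit 0) (nat_lit 33) Rl.nil) C8_2 = true := by decide +kernel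
def wf8_3 : wfC (nat_lit 61) (nat_lit 15) C8_3 = true := by decide +kernel
def rf8_3 : rfCk (nat_lit 61) (nat_lit 3) (nat_lit 61) (nat_lit 15) (nat_lit 9) (nat_lit 0) (nat_lit 3) TL8 CL7 CL8 = true := by decide +kernel
def st8_3_0 : starCk (nat_lit 61) (nat_lit 15) (nat_lit 1) (nat_lit 7) (nat_lit 38) (nat_lit 120) (nat_lit 16) C8_3 = true := by decide +kernel
def sc8_3 : stCov (nat_lit 1) (nat_lit 120) (Rl.cons (nat_lit 120) (nat_lit 38) Rl.nil) C8_3 = true := by decide +kernel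
def wf8_4 : wfC (nat_lit 61) (nat_lit 15) C8_4 = true := by decide +kernel

end Pool.Agent.NNr.R11_1_2_3
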