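import Pool.Agent.NNr.R11_1_2_3.D7
import Pool.Agent.NNr.R11_1_2_3.D8

set_option linter.all false
set_option maxRecDepth 1000000
namespace Pool.Agent.NNr.R11_1_2_3

open Pool.Agent.NNe

def rf8_20 : rfCk (nat_lit 61) (nat_lit 3) (nat_lit 61) (nat_lit 15) (nat_lit 9) (nat_lit 0) (nat_lit 20) TL8 CL7 CL8 = true := by decide +kernel
def st8_20_0 : starCk (nat_lit 61) (nat_lit 15) (nat_lit 1) (nat_lit 7) (nat_lit 103) (nat_lit 557) (nat_lit 16) C8_20 = true := by decide +kernel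
def st8_20_1 : starCk (nat_lit 61) (nat_lit 15) (nat_lit 1) (nat_lit 7) (nat_lit 104) (nat_lit 660) (nat_lit 16) C8_20 = true := by decide +kernel
def sc8_20 : stCov (nat_lit 1) (nat_lit 557) (Rl.cons (nat_lit 557) (nat_lit 103) (Rl.cons (nat_lit 660) (nat_lit 104) Rl.nil)) C8_20 = true := by decide +kernel
def wf8_21 : wfC (nat_lit 61) (nat_lit 15) C8_21 = true := by decide +kernel
def rf8_21 : rfCk (nat_lit 61) (nat_lit 3) (nat_lit 61) (nat_lit 15) (nat_lit 9) (nat_lit 0) (nat_lit 21) TL8 CL7 CL8 = true := by decide +kernel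
def st8_21_0 : starCk (nat_lit 61) (nat_lit 15) (nat_lit 1) (nat_lit 7) (nat_lit 108) (nat_lit 498) (nat_lit 16) C8_21 = true := by decide +kernel

end Pool.Agent.NNr.R11_1_2_3
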