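import Pool.Agent.NNr.R11_1_2_3.D7
import Pool.Agent.NNr.R11_1_2_3.D8

set_option linter.all false
set_option maxRecDepth 1000000
namespace Pool.Agent.NNr.R11_1_2_3

open Pool.Agent.NNe

def st8_21_1 : starCk (nat_lit 61) (nat_lit 15) (nat_lit 1) (nat_lit 7) (nat_lit 108) (nat_lit 606) (nat_lit 16) C8_21 = true := by decide +kernel
def sc8_21 : stCov (nat_lit 1) (nat_lit 498) (Rl.cons (nat_lit 498) (nat_lit 108) (Rl.cons (nat_lit 606) (nat_lit 108) Rl.nil)) C8_21 = true := by decide +kernel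
def wf8_22 : wfC (nat_lit 61) (nat_lit 15) C8_22 = true := by decide +kernel
def rf8_22 : rfCk (nat_lit 61) (nat_lit 3) (nat_lit 61) (nat_lit 15) (nat_lit 9) (nat_lit 0) (nat_lit 22) TL8 CL7 CL8 = true := by decide +kernel
def st8_22_0 : starCk (nat_lit 61) (nat_lit 15) (nat_lit 1) (nat_lit 7) (nat_lit 219) (nat_lit 505) (nat_lit 256) C8_22 = true := by decide +kernel
def sc8_22 : stCov (nat_lit 2) (nat_lit 505) (Rl.cons (nat_lit 505) (nat_lit 219) Rl.nil) C8_22 = true := by decide +kernel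
def wf8_23 : wfC (nat_lit 61) (nat_lit 15) C8_23 = true := by decide +kernel
def rf8_23 : rfCk (nat_lit 61) (nat_lit 3) (nat_lit 61) (nat_lit 15) (nat_lit 9) (nat_lit 0) (nat_lit 23) TL8 CL7 CL8 = true := by decide +kernel
def st8_23_0 : starCk (nat_lit 61) (nat_lit 15) (nat_lit 1) (nat_lit 7) (nat_lit 86) (nat_lit 448) (nat_lit 16) C8_23 = true := by decide +kernel
def sc8_23 : stCov (nat_lit 1) (nat_lit 448) (Rl.cons (nat_lit 448) (nat_lit 86) Rl.nil) C8_23 = true := by decide +kernel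
def wf8_24 : wfC (nat_lit 61) (nat_lit 15) C8_24 = true := by decide +kernel
def rf8_24 : rfCk (nat_lit 61) (nat_lit 3) (nat_lit 61) (nat_lit 15) (nat_lit 9) (nat_lit 0) (nat_lit 24) TL8 CL7 CL8 = true := by decide +kernel
def st8_24_0 : starCk (nat_lit 61) (nat_lit 15) (nat_lit 1) (nat_lit 7) (nat_lit 104) (nat_lit 218) (nat_lit 4096) C8_24 = true := by decide +kernel
def sc8_24 : stCov (nat_lit 3) (nat_lit 218) (Rl.cons (nat_lit 218) (nat_lit 104) Rl.nil) C8_24 = true := by decide +kernel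
def ti8_0 : tileCk (nat_lit 61) (nat_lit 15) (nat_lit 2) (nat_lit 7) (nat_lit 298) (nat_lit 11) (nat_lit 25) ZL8_0 CL8 = true := by decide +kernel
def zl8_0 : zlOK (nat_lit 298) ZL8_0 = true := by decide +kernel
def ti8_1 : tileCk (nat_lit 61) (nat_lit 15) (nat_lit 2) (nat_lit 7) (nat_lit 54) (nat_lit 11) (nat_lit 25) ZL8_1 CL8 = true := by decide +kernel
def zl8_1 : zlOK (nat_lit 54) ZL8_1 = true := by decide +kernel
def ti8_2 : tileCk (nat_lit 61) (nat_lit 15) (nat_lit 2) (nat_lit 7) (nat_lit 184) (nat_lit 11) (nat_lit 25) ZL8_2 CL8 = true := by decide +kernel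
def zl8_2 : zlOK (nat_lit 184) ZL8_2 = true := by decide +kernel

end Pool.Agent.NNr.R11_1_2_3
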