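import Pool.Agent.NNr.R11_1_2_3.D8
import Pool.Agent.NNr.R11_1_2_3.D9

set_option linter.all false
set_option maxRecDepth 1000000
namespace Pool.Agent.NNr.R11_1_2_3

open Pool.Agent.NNe

def ti8_3 : tileCk (nat_lit 61) (nat_lit 15) (nat_lit 2) (nat_lit 7) (nat_lit 210) (nat_lit 11) (nat_lit 25) ZL8_3 CL8 = true := by decide +kernel
def zl8_3 : zlOK (nat_lit 210) ZL8_3 = true := by decide +kernel
def ti8_4 : tileCk (nat_lit 61) (nat_lit 15) (nat_lit 2) (nat_lit 7) (nat_lit 15) (nat_lit 11) (nat_lit 25) ZL8_4 CL8 = true := by decide +kernel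
def zl8_4 : zlOK (nat_lit 15) ZL8_4 = true := by decide +kernel
def ti8_5 : tileCk (nat_lit 61) (nat_lit 15) (nat_lit 2) (nat_lit 7) (nat_lit 214) (nat_lit 11) (nat_lit 25) ZL8_5 CL8 = true := by decide +kernel
def zl8_5 : zlOK (nat_lit 214) ZL8_5 = true := by decide +kernel
def ti8_6 : tileCk (nat_lit 61) (nat_lit 15) (nat_lit 2) (nat_lit 7) (nat_lit 95) (nat_lit 11) (nat_lit 25) ZL8_6 CL8 = true := by decide +kernel
def zl8_6 : zlOK (nat_lit 95) ZL8_6 = true := by decide +kernel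
def ti8_7 : tileCk (nat_lit 61) (nat_lit 15) (nat_lit 2) (nat_lit 7) (nat_lit 3) (nat_lit 11) (nat_lit 25) ZL8_7 CL8 = true := by decide +kernel
def zl8_7 : zlOK (nat_lit 3) ZL8_7 = true := by decide +kernel
def ti8_8 : tileCk (nat_lit 61) (nat_lit 15) (nat_lit 2) (nat_lit 7) (nat_lit 131) (nat_lit 11) (nat_lit 25) ZL8_8 CL8 = true := by decide +kernel
def zl8_8 : zlOK (nat_lit 131) ZL8_8 = true := by decide +kernel
def tc8_0 : tiCov (nat_lit 1) (nat_lit 0) ZZ8 C8_0 = true := by decide +kernel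
def tc8_1 : tiCov (nat_lit 1) (nat_lit 1) ZZ8 C8_1 = true := by decide +kernel
def tc8_2 : tiCov (nat_lit 1) (nat_lit 2) ZZ8 C8_2 = true := by decide +kernel
def tc8_3 : tiCov (nat_lit 1) (nat_lit 3) ZZ8 C8_3 = true := by decide +kernel
def tc8_4 : tiCov (nat_lit 1) (nat_lit 4) ZZ8 C8_4 = true := by decide +kernel
def tc8_5 : tiCov (nat_lit 1) (nat_lit 5) ZZ8 C8_5 = true := by decide +kernel
def tc8_6 : tiCov (nat_lit 1) (nat_lit 6) ZZ8 C8_6 = true := by decide +kernel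
def tc8_7 : tiCov (nat_lit 1) (nat_lit 7) ZZ8 C8_7 = true := by decide +kernel
def tc8_8 : tiCov (nat_lit 1) (nat_lit 8) ZZ8 C8_8 = true := by decide +kernel
def tc8_9 : tiCov (nat_lit 1) (nat_lit 9) ZZ8 C8_9 = true := by decide +kernel
def tc8_10 : tiCov (nat_lit 1) (nat_lit 10) ZZ8 C8_10 = true := by decide +kernel
def tc8_11 : tiCov (nat_lit 1) (nat_lit 11) ZZ8 C8_11 = true := by decide +kernel
def tc8_12 : tiCov (nat_lit 1) (nat_lit 12) ZZ8 C8_12 = true := by decide +kernel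
def tc8_18 : tiCov (nat_lit 1) (nat_lit 18) ZZ8 C8_18 = true := by decide +kernel
def tc8_19 : tiCov (nat_lit 1) (nat_lit 19) ZZ8 C8_19 = true := by decide +kernel
def tc8_20 : tiCov (nat_lit 1) (nat_lit 20) ZZ8 C8_20 = true := by decide +kernel
def tc8_21 : tiCov (nat_lit 1) (nat_lit 21) ZZ8 C8_21 = true := by decide +kernel
def tc8_22 : tiCov (nat_lit 1) (nat_lit 22) ZZ8 C8_22 = true := by decide +kernel
def tc8_23 : tiCov (nat_lit 1) (nat_lit 23) ZZ8 C8_23 = true := by decide +kernel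
def tc8_24 : tiCov (nat_lit 1) (nat_lit 24) ZZ8 C8_24 = true := by decide +kernel
def wf9_0 : wfC (nat_lit 59) (nat_lit 21) C9_0 = true := by decide +kernel
def rf9_0 : rfCk (nat_lit 61) (nat_lit 15) (nat_lit 59) (nat_lit 21) (nat_lit 9) (nat_lit 0) (nat_lit 0) TL9 CL8 CL9 = true := by decide +kernel
def st9_0_0 : starCk (nat_lit 59) (nat_lit 21) (nat_lit 1) (nat_lit 10) (nat_lit 50) (nat_lit 0) (nat_lit 256) C9_0 = true := by decide +kernel
def sc9_0 : stCov (nat_lit 2) (nat_lit 0) (Rl.cons (nat_lit 0) (nat_lit 50) Rl.nil) C9_0 = true := by decide +kernel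
def wf9_1 : wfC (nat_lit 59) (nat_lit 21) C9_1 = true := by decide +kernel
def rf9_1 : rfCk (nat_lit 61) (nat_lit 15) (nat_lit 59) (nat_lit 21) (nat_lit 9) (nat_lit 0) (nat_lit 1) TL9 CL8 CL9 = true := by decide +kernel
def st9_1_0 : starCk (nat_lit 59) (nat_lit 21) (nat_lit 1) (nat_lit 10) (nat_lit 28) (nat_lit 67) (nat_lit 256) C9_1 = true := by decide +kernel
def sc9_1 : stCov (nat_lit 2) (nat_lit 67) (Rl.cons (nat_lit 67) (nat_lit 28) Rl.nil) C9_1 = true := by decide +kernel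
def wf9_2 : wfC (nat_lit 59) (nat_lit 21) C9_2 = true := by decide +kernel
def rf9_2 : rfCk (nat_lit 61) (nat_lit 15) (nat_lit 59) (nat_lit 21) (nat_lit 9) (nat_lit 0) (nat_lit 2) TL9 CL8 CL9 = true := by decide +kernel
def st9_2_0 : starCk (nat_lit 59) (nat_lit 21) (nat_lit 1) (nat_lit 10) (nat_lit 22) (nat_lit 0) (nat_lit 16) C9_2 = true := by decide +kernel
def sc9_2 : stCov (nat_lit 1) (nat_lit 0) (Rl.cons (nat_lit 0) (nat_lit 22) Rl.nil) C9_2 = true := by decide +kernel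
def wf9_3 : wfC (nat_lit 59) (nat_lit 21) C9_3 = true := by decide +kernel
def rf9_3 : rfCk (nat_lit 61) (nat_lit 15) (nat_lit 59) (nat_lit 21) (nat_lit 9) (nat_lit 0) (nat_lit 3) TL9 CL8 CL9 = true := by decide +kernel
def st9_3_0 : starCk (nat_lit 59) (nat_lit 21) (nat_lit 1) (nat_lit 10) (nat_lit 19) (nat_lit 47) (nat_lit 16) C9_3 = true := by decide +kernel
def sc9_3 : stCov (nat_lit 1) (nat_lit 47) (Rl.cons (nat_lit 47) (nat_lit 19) Rl.nil) C9_3 = true := by decide +kernel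
def wf9_4 : wfC (nat_lit 59) (nat_lit 21) C9_4 = true := by decide +kernel
def rf9_4 : rfCk (nat_lit 61) (nat_lit 15) (nat_lit 59) (nat_lit 21) (nat_lit 9) (nat_lit 0) (nat_lit 4) TL9 CL8 CL9 = true := by decide +kernel
def st9_4_0 : starCk (nat_lit 59) (nat_lit 21) (nat_lit 1) (nat_lit 10) (nat_lit 35) (nat_lit 22) (nat_lit 1) C9_4 = true := by decide +kernel
def sc9_4 : stCov (nat_lit 0) (nat_lit 22) (Rl.cons (nat_lit 22) (nat_lit 35) Rl.nil) C9_4 = true := by decide +kernel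
def wf9_5 : wfC (nat_lit 59) (nat_lit 21) C9_5 = true := by decide +kernel
def rf9_5 : rfCk (nat_lit 61) (nat_lit 15) (nat_lit 59) (nat_lit 21) (nat_lit 9) (nat_lit 0) (nat_lit 5) TL9 CL8 CL9 = true := by decide +kernel
def st9_5_0 : starCk (nat_lit 59) (nat_lit 21) (nat_lit 1) (nat_lit 10) (nat_lit 44) (nat_lit 124) (nat_lit 16) C9_5 = true := by decide +kernel
def sc9_5 : stCov (nat_lit 1) (nat_lit 124) (Rl.cons (nat_lit 124) (nat_lit 44) Rl.nil) C9_5 = true := by decide +kernel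
def wf9_6 : wfC (nat_lit 59) (nat_lit 21) C9_6 = true := by decide +kernel
def rf9_6 : rfCk (nat_lit 61) (nat_lit 15) (nat_lit 59) (nat_lit 21) (nat_lit 9) (nat_lit 0) (nat_lit 6) TL9 CL8 CL9 = true := by decide +kernel
def st9_6_0 : starCk (nat_lit 59) (nat_lit 21) (nat_lit 1) (nat_lit 10) (nat_lit 41) (nat_lit 25) (nat_lit 1) C9_6 = true := by decide +kernel
def sc9_6 : stCov (nat_lit 0) (nat_lit 25) (Rl.cons (nat_lit 25) (nat_lit 41) Rl.nil) C9_6 = true := by decide +kernel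
def wf9_7 : wfC (nat_lit 59) (nat_lit 21) C9_7 = true := by decide +kernel
def rf9_7 : rfCk (nat_lit 61) (nat_lit 15) (nat_lit 59) (nat_lit 21) (nat_lit 9) (nat_lit 0) (nat_lit 7) TL9 CL8 CL9 = true := by decide +kernel
def st9_7_0 : starCk (nat_lit 59) (nat_lit 21) (nat_lit 1) (nat_lit 10) (nat_lit 19) (nat_lit 38) (nat_lit 256) C9_7 = true := by decide +kernel
def sc9_7 : stCov (nat_lit 2) (nat_lit 38) (Rl.cons (nat_lit 38) (nat_lit 19) Rl.nil) C9_7 = true := by decide +kernel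
def wf9_8 : wfC (nat_lit 59) (nat_lit 21) C9_8 = true := by decide +kernel
def rf9_8 : rfCk (nat_lit 61) (nat_lit 15) (nat_lit 59) (nat_lit 21) (nat_lit 9) (nat_lit 0) (nat_lit 8) TL9 CL8 CL9 = true := by decide +kernel
def st9_8_0 : starCk (nat_lit 59) (nat_lit 21) (nat_lit 1) (nat_lit 10) (nat_lit 36) (nat_lit 247) (nat_lit 256) C9_8 = true := by decide +kernel
def sc9_8 : stCov (nat_lit 2) (nat_lit 247) (Rl.cons (nat_lit 247) (nat_lit 36) Rl.nil) C9_8 = true := by decide +kernel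
def wf9_9 : wfC (nat_lit 59) (nat_lit 21) C9_9 = true := by decide +kernel
def rf9_9 : rfCk (nat_lit 61) (nat_lit 15) (nat_lit 59) (nat_lit 21) (nat_lit 9) (nat_lit 0) (nat_lit 9) TL9 CL8 CL9 = true := by decide +kernel
def st9_9_0 : starCk (nat_lit 59) (nat_lit 21) (nat_lit 1) (nat_lit 10) (nat_lit 16) (nat_lit 95) (nat_lit 16) C9_9 = true := by decide +kernel
def sc9_9 : stCov (nat_lit 1) (nat_lit 95) (Rl.cons (nat_lit 95) (nat_lit 16) Rl.nil) C9_9 = true := by decide +kernel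
def wf9_10 : wfC (nat_lit 59) (nat_lit 21) C9_10 = true := by decide +kernel
def rf9_10 : rfCk (nat_lit 61) (nat_lit 15) (nat_lit 59) (nat_lit 21) (nat_lit 9) (nat_lit 0) (nat_lit 10) TL9 CL8 CL9 = true := by decide +kernel
def st9_10_0 : starCk (nat_lit 59) (nat_lit 21) (nat_lit 1) (nat_lit 10) (nat_lit 28) (nat_lit 59) (nat_lit 16) C9_10 = true := by decide +kernel
def sc9_10 : stCov (nat_lit 1) (nat_lit 59) (Rl.cons (nat_lit 59) (nat_lit 28) Rl.nil) C9_10 = true := by decide +kernel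
def wf9_11 : wfC (nat_lit 59) (nat_lit 21) C9_11 = true := by decide +kernel
def rf9_11 : rfCk (nat_lit 61) (nat_lit 15) (nat_lit 59) (nat_lit 21) (nat_lit 9) (nat_lit 0) (nat_lit 11) TL9 CL8 CL9 = true := by decide +kernel

end Pool.Agent.NNr.R11_1_2_3
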