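import Pool.Agent.NNr.R11_1_2_3.D0
import Pool.Agent.NNr.R11_1_2_3.D1
import Pool.Agent.NNr.R11_1_2_3.D8
import Pool.Agent.NNr.R11_1_2_3.D9
import Pool.Agent.NNr.R11_1_2_3.D10
import Pool.Agent.NNe.Slots

set_option linter.all false
set_option maxRecDepth 1000000
namespace Pool.Agent.NNr.R11_1_2_3

open Pool.Agent.NNe

def st9_11_0 : starCk (nat_lit 59) (nat_lit 21) (nat_lit 1) (nat_lit 10) (nat_lit 16) (nat_lit 98) (nat_lit 256) C9_11 = true := by decide +kernel
def sc9_11 : stCov (nat_lit 2) (nat_lit 98) (Rl.cons (nat_lit 98) (nat_lit 16) Rl.nil) C9_11 = true := by decide +kernel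
def wf9_12 : wfC (nat_lit 59) (nat_lit 21) C9_12 = true := by decide +kernel
def rf9_12 : rfCk (nat_lit 61) (nat_lit 15) (nat_lit 59) (nat_lit 21) (nat_lit 9) (nat_lit 0) (nat_lit 12) TL9 CL8 CL9 = true := by decide +kernel
def st9_12_0 : starCk (nat_lit 59) (nat_lit 21) (nat_lit 1) (nat_lit 10) (nat_lit 8) (nat_lit 38) (nat_lit 256) C9_12 = true := by decide +kernel
def sc9_12 : stCov (nat_lit 2) (nat_lit 38) (Rl.cons (nat_lit 38) (nat_lit 8) Rl.nil) C9_12 = true := by decide +kernel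
def wf9_18 : wfC (nat_lit 59) (nat_lit 21) C9_18 = true := by decide +kernel
def rf9_18 : rfCk (nat_lit 61) (nat_lit 15) (nat_lit 59) (nat_lit 21) (nat_lit 9) (nat_lit 0) (nat_lit 18) TL9 CL8 CL9 = true := by decide +kernel
def st9_18_0 : starCk (nat_lit 59) (nat_lit 21) (nat_lit 1) (nat_lit 10) (nat_lit 125) (nat_lit 425) (nat_lit 4096) C9_18 = true := by decide +kernel
def st9_18_1 : starCk (nat_lit 59) (nat_lit 21) (nat_lit 1) (nat_lit 10) (nat_lit 125) (nat_lit 550) (nat_lit 4096) C9_18 = true := by decide +kernel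
def sc9_18 : stCov (nat_lit 3) (nat_lit 425) (Rl.cons (nat_lit 425) (nat_lit 125) (Rl.cons (nat_lit 550) (nat_lit 125) Rl.nil)) C9_18 = true := by decide +kernel
def wf9_19 : wfC (nat_lit 59) (nat_lit 21) C9_19 = true := by decide +kernel
def rf9_19 : rfCk (nat_lit 61) (nat_lit 15) (nat_lit 59) (nat_lit 21) (nat_lit 9) (nat_lit 0) (nat_lit 19) TL9 CL8 CL9 = true := by decide +kernel
def st9_19_0 : starCk (nat_lit 59) (nat_lit 21) (nat_lit 1) (nat_lit 10) (nat_lit 129) (nat_lit 241) (nat_lit 4096) C9_19 = true := by decide +kernel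
def sc9_19 : stCov (nat_lit 3) (nat_lit 241) (Rl.cons (nat_lit 241) (nat_lit 129) Rl.nil) C9_19 = true := by decide +kernel
def wf9_20 : wfC (nat_lit 59) (nat_lit 21) C9_20 = true := by decide +kernel
def rf9_20 : rfCk (nat_lit 61) (nat_lit 15) (nat_lit 59) (nat_lit 21) (nat_lit 9) (nat_lit 0) (nat_lit 20) TL9 CL8 CL9 = true := by decide +kernel
def st9_20_0 : starCk (nat_lit 59) (nat_lit 21) (nat_lit 1) (nat_lit 10) (nat_lit 104) (nat_lit 259) (nat_lit 16) C9_20 = true := by decide +kernel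
def sc9_20 : stCov (nat_lit 1) (nat_lit 259) (Rl.cons (nat_lit 259) (nat_lit 104) Rl.nil) C9_20 = true := by decide +kernel
def wf9_21 : wfC (nat_lit 59) (nat_lit 21) C9_21 = true := by decide +kernel
def rf9_21 : rfCk (nat_lit 61) (nat_lit 15) (nat_lit 59) (nat_lit 21) (nat_lit 9) (nat_lit 0) (nat_lit 21) TL9 CL8 CL9 = true := by decide +kernel
def st9_21_0 : starCk (nat_lit 59) (nat_lit 21) (nat_lit 1) (nat_lit 10) (nat_lit 87) (nat_lit 181) (nat_lit 16) C9_21 = true := by decide +kernel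
def sc9_21 : stCov (nat_lit 1) (nat_lit 181) (Rl.cons (nat_lit 181) (nat_lit 87) Rl.nil) C9_21 = true := by decide +kernel
def wf9_22 : wfC (nat_lit 59) (nat_lit 21) C9_22 = true := by decide +kernel
def rf9_22 : rfCk (nat_lit 61) (nat_lit 15) (nat_lit 59) (nat_lit 21) (nat_lit 9) (nat_lit 0) (nat_lit 22) TL9 CL8 CL9 = true := by decide +kernel
def st9_22_0 : starCk (nat_lit 59) (nat_lit 21) (nat_lit 1) (nat_lit 10) (nat_lit 63) (nat_lit 198) (nat_lit 256) C9_22 = true := by decide +kernel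
def sc9_22 : stCov (nat_lit 2) (nat_lit 198) (Rl.cons (nat_lit 198) (nat_lit 63) Rl.nil) C9_22 = true := by decide +kernel
def wf9_23 : wfC (nat_lit 59) (nat_lit 21) C9_23 = true := by decide +kernel
def rf9_23 : rfCk (nat_lit 61) (nat_lit 15) (nat_lit 59) (nat_lit 21) (nat_lit 9) (nat_lit 0) (nat_lit 23) TL9 CL8 CL9 = true := by decide +kernel
def st9_23_0 : starCk (nat_lit 59) (nat_lit 21) (nat_lit 1) (nat_lit 10) (nat_lit 42) (nat_lit 221) (nat_lit 16) C9_23 = true := by decide +kernel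
def sc9_23 : stCov (nat_lit 1) (nat_lit 221) (Rl.cons (nat_lit 221) (nat_lit 42) Rl.nil) C9_23 = true := by decide +kernel
def wf9_24 : wfC (nat_lit 59) (nat_lit 21) C9_24 = true := by decide +kernel
def rf9_24 : rfCk (nat_lit 61) (nat_lit 15) (nat_lit 59) (nat_lit 21) (nat_lit 9) (nat_lit 0) (nat_lit 24) TL9 CL8 CL9 = true := by decide +kernel
def st9_24_0 : starCk (nat_lit 59) (nat_lit 21) (nat_lit 1) (nat_lit 10) (nat_lit 39) (nat_lit 101) (nat_lit 4096) C9_24 = true := by decide +kernel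
def sc9_24 : stCov (nat_lit 3) (nat_lit 101) (Rl.cons (nat_lit 101) (nat_lit 39) Rl.nil) C9_24 = true := by decide +kernel
def ti9_0 : tileCk (nat_lit 59) (nat_lit 21) (nat_lit 2) (nat_lit 10) (nat_lit 221) (nat_lit 11) (nat_lit 25) ZL9_0 CL9 = true := by decide +kernel
def zl9_0 : zlOK (nat_lit 221) ZL9_0 = true := by decide +kernel
def ti9_1 : tileCk (nat_lit 59) (nat_lit 21) (nat_lit 2) (nat_lit 10) (nat_lit 32) (nat_lit 11) (nat_lit 25) ZL9_1 CL9 = true := by decide +kernel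
def zl9_1 : zlOK (nat_lit 32) ZL9_1 = true := by decide +kernel
def ti9_2 : tileCk (nat_lit 59) (nat_lit 21) (nat_lit 2) (nat_lit 10) (nat_lit 85) (nat_lit 11) (nat_lit 25) ZL9_2 CL9 = true := by decide +kernel
def zl9_2 : zlOK (nat_lit 85) ZL9_2 = true := by decide +kernel
def ti9_3 : tileCk (nat_lit 59) (nat_lit 21) (nat_lit 2) (nat_lit 10) (nat_lit 99) (nat_lit 11) (nat_lit 25) ZL9_3 CL9 = true := by decide +kernel
def zl9_3 : zlOK (nat_lit 99) ZL9_3 = true := by decide +kernel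
def ti9_4 : tileCk (nat_lit 59) (nat_lit 21) (nat_lit 2) (nat_lit 10) (nat_lit 8) (nat_lit 11) (nat_lit 25) ZL9_4 CL9 = true := by decide +kernel
def zl9_4 : zlOK (nat_lit 8) ZL9_4 = true := by decide +kernel
def ti9_5 : tileCk (nat_lit 59) (nat_lit 21) (nat_lit 2) (nat_lit 10) (nat_lit 98) (nat_lit 11) (nat_lit 25) ZL9_5 CL9 = true := by decide +kernel
def zl9_5 : zlOK (nat_lit 98) ZL9_5 = true := by decide +kernel
def ti9_6 : tileCk (nat_lit 59) (nat_lit 21) (nat_lit 2) (nat_lit 10) (nat_lit 58) (nat_lit 11) (nat_lit 25) ZL9_6 CL9 = true := by decide +kernel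
def zl9_6 : zlOK (nat_lit 58) ZL9_6 = true := by decide +kernel
def ti9_7 : tileCk (nat_lit 59) (nat_lit 21) (nat_lit 2) (nat_lit 10) (nat_lit 2) (nat_lit 11) (nat_lit 25) ZL9_7 CL9 = true := by decide +kernel
def zl9_7 : zlOK (nat_lit 2) ZL9_7 = true := by decide +kernel
def ti9_8 : tileCk (nat_lit 59) (nat_lit 21) (nat_lit 2) (nat_lit 10) (nat_lit 45) (nat_lit 11) (nat_lit 25) ZL9_8 CL9 = true := by decide +kernel
def zl9_8 : zlOK (nat_lit 45) ZL9_8 = true := by decide +kernel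
def tc9_0 : tiCov (nat_lit 1) (nat_lit 0) ZZ9 C9_0 = true := by decide +kernel
def tc9_1 : tiCov (nat_lit 1) (nat_lit 1) ZZ9 C9_1 = true := by decide +kernel
def tc9_2 : tiCov (nat_lit 1) (nat_lit 2) ZZ9 C9_2 = true := by decide +kernel
def tc9_3 : tiCov (nat_lit 1) (nat_lit 3) ZZ9 C9_3 = true := by decide +kernel
def tc9_4 : tiCov (nat_lit 1) (nat_lit 4) ZZ9 C9_4 = true := by decide +kernel
def tc9_5 : tiCov (nat_lit 1) (nat_lit 5) ZZ9 C9_5 = true := by decide +kernel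
def tc9_6 : tiCov (nat_lit 1) (nat_lit 6) ZZ9 C9_6 = true := by decide +kernel
def tc9_7 : tiCov (nat_lit 1) (nat_lit 7) ZZ9 C9_7 = true := by decide +kernel
def tc9_8 : tiCov (nat_lit 1) (nat_lit 8) ZZ9 C9_8 = true := by decide +kernel
def tc9_9 : tiCov (nat_lit 1) (nat_lit 9) ZZ9 C9_9 = true := by decide +kernel
def tc9_10 : tiCov (nat_lit 1) (nat_lit 10) ZZ9 C9_10 = true := by decide +kernel
def tc9_11 : tiCov (nat_lit 1) (nat_lit 11) ZZ9 C9_11 = true := by decide +kernel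
def tc9_12 : tiCov (nat_lit 1) (nat_lit 12) ZZ9 C9_12 = true := by decide +kernel
def tc9_18 : tiCov (nat_lit 1) (nat_lit 18) ZZ9 C9_18 = true := by decide +kernel
def tc9_19 : tiCov (nat_lit 1) (nat_lit 19) ZZ9 C9_19 = true := by decide +kernel
def tc9_20 : tiCov (nat_lit 1) (nat_lit 20) ZZ9 C9_20 = true := by decide +kernel
def tc9_21 : tiCov (nat_lit 1) (nat_lit 21) ZZ9 C9_21 = true := by decide +kernel
def tc9_22 : tiCov (nat_lit 1) (nat_lit 22) ZZ9 C9_22 = true := by decide +kernel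
def tc9_23 : tiCov (nat_lit 1) (nat_lit 23) ZZ9 C9_23 = true := by decide +kernel
def tc9_24 : tiCov (nat_lit 1) (nat_lit 24) ZZ9 C9_24 = true := by decide +kernel
def wf10_0 : wfC (nat_lit 14) (nat_lit 7) C10_0 = true := by decide +kernel
def rf10_0 : rfCk (nat_lit 59) (nat_lit 21) (nat_lit 14) (nat_lit 7) (nat_lit 9) (nat_lit 0) (nat_lit 0) TL10 CL9 CL10 = true := by decide +kernel
def st10_0_0 : starCk (nat_lit 14) (nat_lit 7) (nat_lit 1) (nat_lit 3) (nat_lit 6) (nat_lit 0) (nat_lit 256) C10_0 = true := by decide +kernel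
def sc10_0 : stCov (nat_lit 2) (nat_lit 0) (Rl.cons (nat_lit 0) (nat_lit 6) Rl.nil) C10_0 = true := by decide +kernel
def wf10_2 : wfC (nat_lit 14) (nat_lit 7) C10_2 = true := by decide +kernel
def rf10_2 : rfCk (nat_lit 59) (nat_lit 21) (nat_lit 14) (nat_lit 7) (nat_lit 9) (nat_lit 0) (nat_lit 2) TL10 CL9 CL10 = true := by decide +kernel
def st10_2_0 : starCk (nat_lit 14) (nat_lit 7) (nat_lit 1) (nat_lit 3) (nat_lit 4) (nat_lit 0) (nat_lit 16) C10_2 = true := by decide +kernel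
def sc10_2 : stCov (nat_lit 1) (nat_lit 0) (Rl.cons (nat_lit 0) (nat_lit 4) Rl.nil) C10_2 = true := by decide +kernel
def wf10_3 : wfC (nat_lit 14) (nat_lit 7) C10_3 = true := by decide +kernel
def rf10_3 : rfCk (nat_lit 59) (nat_lit 21) (nat_lit 14) (nat_lit 7) (nat_lit 9) (nat_lit 0) (nat_lit 3) TL10 CL9 CL10 = true := by decide +kernel
def st10_3_0 : starCk (nat_lit 14) (nat_lit 7) (nat_lit 1) (nat_lit 3) (nat_lit 1) (nat_lit 1) (nat_lit 1) C10_3 = true := by decide +kernel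
def sc10_3 : stCov (nat_lit 0) (nat_lit 1) (Rl.cons (nat_lit 1) (nat_lit 1) Rl.nil) C10_3 = true := by decide +kernel
def wf10_4 : wfC (nat_lit 14) (nat_lit 7) C10_4 = true := by decide +kernel
def rf10_4 : rfCk (nat_lit 59) (nat_lit 21) (nat_lit 14) (nat_lit 7) (nat_lit 9) (nat_lit 0) (nat_lit 4) TL10 CL9 CL10 = true := by decide +kernel
def st10_4_0 : starCk (nat_lit 14) (nat_lit 7) (nat_lit 1) (nat_lit 3) (nat_lit 1) (nat_lit 1) (nat_lit 1) C10_4 = true := by decide +kernel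
def sc10_4 : stCov (nat_lit 0) (nat_lit 1) (Rl.cons (nat_lit 1) (nat_lit 1) Rl.nil) C10_4 = true := by decide +kernel
def wf10_5 : wfC (nat_lit 14) (nat_lit 7) C10_5 = true := by decide +kernel
def rf10_5 : rfCk (nat_lit 59) (nat_lit 21) (nat_lit 14) (nat_lit 7) (nat_lit 9) (nat_lit 0) (nat_lit 5) TL10 CL9 CL10 = true := by decide +kernel
def st10_5_0 : starCk (nat_lit 14) (nat_lit 7) (nat_lit 1) (nat_lit 3) (nat_lit 6) (nat_lit 15) (nat_lit 16) C10_5 = true := by decide +kernel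
def sc10_5 : stCov (nat_lit 1) (nat_lit 15) (Rl.cons (nat_lit 15) (nat_lit 6) Rl.nil) C10_5 = true := by decide +kernel
def wf10_6 : wfC (nat_lit 14) (nat_lit 7) C10_6 = true := by decide +kernel
def rf10_6 : rfCk (nat_lit 59) (nat_lit 21) (nat_lit 14) (nat_lit 7) (nat_lit 9) (nat_lit 0) (nat_lit 6) TL10 CL9 CL10 = true := by decide +kernel
def st10_6_0 : starCk (nat_lit 14) (nat_lit 7) (nat_lit 1) (nat_lit 3) (nat_lit 4) (nat_lit 3) (nat_lit 1) C10_6 = true := by decide +kernel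
def sc10_6 : stCov (nat_lit 0) (nat_lit 3) (Rl.cons (nat_lit 3) (nat_lit 4) Rl.nil) C10_6 = true := by decide +kernel
def wf10_8 : wfC (nat_lit 14) (nat_lit 7) C10_8 = true := by decide +kernel
def rf10_8 : rfCk (nat_lit 59) (nat_lit 21) (nat_lit 14) (nat_lit 7) (nat_lit 9) (nat_lit 0) (nat_lit 8) TL10 CL9 CL10 = true := by decide +kernel
def st10_8_0 : starCk (nat_lit 14) (nat_lit 7) (nat_lit 1) (nat_lit 3) (nat_lit 1) (nat_lit 12) (nat_lit 256) C10_8 = true := by decide +kernel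
def sc10_8 : stCov (nat_lit 2) (nat_lit 12) (Rl.cons (nat_lit 12) (nat_lit 1) Rl.nil) C10_8 = true := by decide +kernel
def wf10_10 : wfC (nat_lit 14) (nat_lit 7) C10_10 = true := by decide +kernel
def rf10_10 : rfCk (nat_lit 59) (nat_lit 21) (nat_lit 14) (nat_lit 7) (nat_lit 9) (nat_lit 0) (nat_lit 10) TL10 CL9 CL10 = true := by decide +kernel
def st10_10_0 : starCk (nat_lit 14) (nat_lit 7) (nat_lit 1) (nat_lit 3) (nat_lit 2) (nat_lit 4) (nat_lit 1) C10_10 = true := by decide +kernel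
def sc10_10 : stCov (nat_lit 0) (nat_lit 4) (Rl.cons (nat_lit 4) (nat_lit 2) Rl.nil) C10_10 = true := by decide +kernel
def wf10_12 : wfC (nat_lit 14) (nat_lit 7) C10_12 = true := by decide +kernel
def rf10_12 : rfCk (nat_lit 59) (nat_lit 21) (nat_lit 14) (nat_lit 7) (nat_lit 9) (nat_lit 0) (nat_lit 12) TL10 CL9 CL10 = true := by decide +kernel
def sc10_12 : stCov (nat_lit 2) (nat_lit 0) Rl.nil C10_12 = true := by decide +kernel
def wf10_18 : wfC (nat_lit 14) (nat_lit 7) C10_18 = true := by decide +kernel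
def rf10_18 : rfCk (nat_lit 59) (nat_lit 21) (nat_lit 14) (nat_lit 7) (nat_lit 9) (nat_lit 0) (nat_lit 18) TL10 CL9 CL10 = true := by decide +kernel
def st10_18_0 : starCk (nat_lit 14) (nat_lit 7) (nat_lit 1) (nat_lit 3) (nat_lit 15) (nat_lit 27) (nat_lit 4096) C10_18 = true := by decide +kernel
def sc10_18 : stCov (nat_lit 3) (nat_lit 27) (Rl.cons (nat_lit 27) (nat_lit 15) Rl.nil) C10_18 = true := by decide +kernel
def wf10_19 : wfC (nat_lit 14) (nat_lit 7) C10_19 = true := by decide +kernel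
def rf10_19 : rfCk (nat_lit 59) (nat_lit 21) (nat_lit 14) (nat_lit 7) (nat_lit 9) (nat_lit 0) (nat_lit 19) TL10 CL9 CL10 = true := by decide +kernel
def st10_19_0 : starCk (nat_lit 14) (nat_lit 7) (nat_lit 1) (nat_lit 3) (nat_lit 2) (nat_lit 6) (nat_lit 4096) C10_19 = true := by decide +kernel
def sc10_19 : stCov (nat_lit 3) (nat_lit 6) (Rl.cons (nat_lit 6) (nat_lit 2) Rl.nil) C10_19 = true := by decide +kernel
def wf10_20 : wfC (nat_lit 14) (nat_lit 7) C10_20 = true := by decide +kernel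
def rf10_20 : rfCk (nat_lit 59) (nat_lit 21) (nat_lit 14) (nat_lit 7) (nat_lit 9) (nat_lit 0) (nat_lit 20) TL10 CL9 CL10 = true := by decide +kernel
def st10_20_0 : starCk (nat_lit 14) (nat_lit 7) (nat_lit 1) (nat_lit 3) (nat_lit 4) (nat_lit 18) (nat_lit 256) C10_20 = true := by decide +kernel
def sc10_20 : stCov (nat_lit 2) (nat_lit 18) (Rl.cons (nat_lit 18) (nat_lit 4) Rl.nil) C10_20 = true := by decide +kernel
def wf10_21 : wfC (nat_lit 14) (nat_lit 7) C10_21 = true := by decide +kernel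
def rf10_21 : rfCk (nat_lit 59) (nat_lit 21) (nat_lit 14) (nat_lit 7) (nat_lit 9) (nat_lit 0) (nat_lit 21) TL10 CL9 CL10 = true := by decide +kernel
def sc10_21 : stCov (nat_lit 1) (nat_lit 0) Rl.nil C10_21 = true := by decide +kernel
def wf10_22 : wfC (nat_lit 14) (nat_lit 7) C10_22 = true := by decide +kernel
def rf10_22 : rfCk (nat_lit 59) (nat_lit 21) (nat_lit 14) (nat_lit 7) (nat_lit 9) (nat_lit 0) (nat_lit 22) TL10 CL9 CL10 = true := by decide +kernel
def st10_22_0 : starCk (nat_lit 14) (nat_lit 7) (nat_lit 1) (nat_lit 3) (nat_lit 1) (nat_lit 5) (nat_lit 256) C10_22 = true := by decide +kernel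
def sc10_22 : stCov (nat_lit 2) (nat_lit 5) (Rl.cons (nat_lit 5) (nat_lit 1) Rl.nil) C10_22 = true := by decide +kernel
def ti10_0 : tileCk (nat_lit 14) (nat_lit 7) (nat_lit 2) (nat_lit 3) (nat_lit 20) (nat_lit 11) (nat_lit 25) ZL10_0 CL10 = true := by decide +kernel
def zl10_0 : zlOK (nat_lit 20) ZL10_0 = true := by decide +kernel
def ti10_1 : tileCk (nat_lit 14) (nat_lit 7) (nat_lit 2) (nat_lit 3) (nat_lit 2) (nat_lit 11) (nat_lit 25) ZL10_1 CL10 = true := by decide +kernel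
def zl10_1 : zlOK (nat_lit 2) ZL10_1 = true := by decide +kernel
def ti10_2 : tileCk (nat_lit 14) (nat_lit 7) (nat_lit 2) (nat_lit 3) (nat_lit 4) (nat_lit 11) (nat_lit 25) ZL10_2 CL10 = true := by decide +kernel
def zl10_2 : zlOK (nat_lit 4) ZL10_2 = true := by decide +kernel
def ti10_3 : tileCk (nat_lit 14) (nat_lit 7) (nat_lit 2) (nat_lit 3) (nat_lit 2) (nat_lit 11) (nat_lit 25) ZL10_3 CL10 = true := by decide +kernel
def zl10_3 : zlOK (nat_lit 2) ZL10_3 = true := by decide +kernel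
def ti10_4 : tileCk (nat_lit 14) (nat_lit 7) (nat_lit 2) (nat_lit 3) (nat_lit 1) (nat_lit 11) (nat_lit 25) ZL10_4 CL10 = true := by decide +kernel
def zl10_4 : zlOK (nat_lit 1) ZL10_4 = true := by decide +kernel
def tc10_0 : tiCov (nat_lit 1) (nat_lit 0) ZZ10 C10_0 = true := by decide +kernel
def tc10_2 : tiCov (nat_lit 1) (nat_lit 2) ZZ10 C10_2 = true := by decide +kernel
def tc10_3 : tiCov (nat_lit 1) (nat_lit 3) ZZ10 C10_3 = true := by decide +kernel
def tc10_4 : tiCov (nat_lit 1) (nat_lit 4) ZZ10 C10_4 = true := by decide +kernel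
def tc10_5 : tiCov (nat_lit 1) (nat_lit 5) ZZ10 C10_5 = true := by decide +kernel
def tc10_6 : tiCov (nat_lit 1) (nat_lit 6) ZZ10 C10_6 = true := by decide +kernel
def tc10_8 : tiCov (nat_lit 1) (nat_lit 8) ZZ10 C10_8 = true := by decide +kernel
def tc10_10 : tiCov (nat_lit 1) (nat_lit 10) ZZ10 C10_10 = true := by decide +kernel
def tc10_12 : tiCov (nat_lit 1) (nat_lit 12) ZZ10 C10_12 = true := by decide +kernel
def tc10_18 : tiCov (nat_lit 1) (nat_lit 18) ZZ10 C10_18 = true := by decide +kernel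
def tc10_19 : tiCov (nat_lit 1) (nat_lit 19) ZZ10 C10_19 = true := by decide +kernel
def tc10_20 : tiCov (nat_lit 1) (nat_lit 20) ZZ10 C10_20 = true := by decide +kernel
def tc10_21 : tiCov (nat_lit 1) (nat_lit 21) ZZ10 C10_21 = true := by decide +kernel
def tc10_22 : tiCov (nat_lit 1) (nat_lit 22) ZZ10 C10_22 = true := by decide +kernel
def wf1_15 : wfC (nat_lit 61) (nat_lit 2) C1_15 = true := by decide +kernel
def wf1_16 : wfC (nat_lit 61) (nat_lit 2) C1_16 = true := by decide +kernel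
def wf1_17 : wfC (nat_lit 61) (nat_lit 2) C1_17 = true := by decide +kernel
def rf1_15 : rfCk (nat_lit 61) (nat_lit 5) (nat_lit 61) (nat_lit 2) (nat_lit 1) (nat_lit 262144) (nat_lit 15) TL1 CL0 CL1 = true := by decide +kernel
def rf1_16 : rfCk (nat_lit 61) (nat_lit 5) (nat_lit 61) (nat_lit 2) (nat_lit 1) (nat_lit 262144) (nat_lit 16) TL1 CL0 CL1 = true := by decide +kernel
def rf1_17 : rfCk (nat_lit 61) (nat_lit 5) (nat_lit 61) (nat_lit 2) (nat_lit 1) (nat_lit 262144) (nat_lit 17) TL1 CL0 CL1 = true := by decide +kernel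
def sc1_0 : stCov (nat_lit 2) (nat_lit 0) (Rl.cons (nat_lit 0) (nat_lit 82) Rl.nil) C1_0 = true := by decide +kernel
def sc1_1 : stCov (nat_lit 1) (nat_lit 0) (Rl.cons (nat_lit 0) (nat_lit 222) Rl.nil) C1_1 = true := by decide +kernel
def sc1_2 : stCov (nat_lit 1) (nat_lit 0) (Rl.cons (nat_lit 0) (nat_lit 66) Rl.nil) C1_2 = true := by decide +kernel
def sc1_3 : stCov (nat_lit 0) (nat_lit 0) (Rl.cons (nat_lit 0) (nat_lit 436) Rl.nil) C1_3 = true := by decide +kernel

end Pool.Agent.NNr.R11_1_2_3
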