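import Pool.Agent.NNe.Chk

set_option linter.all false
set_option maxRecDepth 1000000
namespace Pool.Agent.NNr.R11_1_2_3

open Pool.Agent.NNe

noncomputable def C11_0 : Cd := (Cd.mk (nat_lit 0) (nat_lit 4) (nat_lit 1024) (nat_lit 0) (nat_lit 0) (nat_lit 0) (nat_lit 0) Sl.nil)
noncomputable def C11_1 : Cd := (Cd.mk (nat_lit 0) (nat_lit 5) (nat_lit 560) (nat_lit 0) (nat_lit 0) (nat_lit 0) (nat_lit 0) Sl.nil)
noncomputable def C11_2 : Cd := (Cd.mk (nat_lit 0) (nat_lit 6) (nat_lit 96) (nat_lit 0) (nat_lit 0) (nat_lit 0) (nat_lit 0) Sl.nil)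
noncomputable def C11_3 : Cd := (Cd.mk (nat_lit 0) (nat_lit 5) (nat_lit 785) (nat_lit 0) (nat_lit 0) (nat_lit 0) (nat_lit 0) Sl.nil)
noncomputable def C11_4 : Cd := (Cd.mk (nat_lit 0) (nat_lit 6) (nat_lit 321) (nat_lit 0) (nat_lit 0) (nat_lit 0) (nat_lit 0) Sl.nil)
noncomputable def C11_5 : Cd := (Cd.mk (nat_lit 0) (nat_lit 6) (nat_lit 546) (nat_lit 0) (nat_lit 0) (nat_lit 0) (nat_lit 0) Sl.nil)
noncomputable def C11_6 : Cd := (Cd.mk (nat_lit 0) (nat_lit 7) (nat_lit 82) (nat_lit 0) (nat_lit 0) (nat_lit 0) (nat_lit 0) Sl.nil)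
noncomputable def C11_7 : Cd := (Cd.mk (nat_lit 0) (nat_lit 6) (nat_lit 771) (nat_lit 0) (nat_lit 0) (nat_lit 0) (nat_lit 0) Sl.nil)
noncomputable def C11_8 : Cd := (Cd.mk (nat_lit 0) (nat_lit 7) (nat_lit 307) (nat_lit 0) (nat_lit 0) (nat_lit 0) (nat_lit 0) Sl.nil)
noncomputable def C11_9 : Cd := (Cd.mk (nat_lit 0) (nat_lit 7) (nat_lit 532) (nat_lit 0) (nat_lit 0) (nat_lit 0) (nat_lit 0) Sl.nil)
noncomputable def C11_10 : Cd := (Cd.mk (nat_lit 0) (nat_lit 8) (nat_lit 68) (nat_lit 0) (nat_lit 0) (nat_lit 0) (nat_lit 0) Sl.nil)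
noncomputable def C11_11 : Cd := (Cd.mk (nat_lit 0) (nat_lit 8) (nat_lit 293) (nat_lit 0) (nat_lit 0) (nat_lit 0) (nat_lit 0) Sl.nil)
noncomputable def C11_12 : Cd := (Cd.mk (nat_lit 0) (nat_lit 8) (nat_lit 518) (nat_lit 0) (nat_lit 0) (nat_lit 0) (nat_lit 0) Sl.nil)
noncomputable def C11_13 : Cd := (Cd.mk (nat_lit 0) (nat_lit 9) (nat_lit 54) (nat_lit 0) (nat_lit 0) (nat_lit 0) (nat_lit 0) Sl.nil)
noncomputable def C11_14 : Cd := (Cd.mk (nat_lit 0) (nat_lit 9) (nat_lit 279) (nat_lit 0) (nat_lit 0) (nat_lit 0) (nat_lit 0) Sl.nil)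
noncomputable def C11_15 : Cd := (Cd.mk (nat_lit 0) (nat_lit 10) (nat_lit 40) (nat_lit 0) (nat_lit 0) (nat_lit 0) (nat_lit 0) Sl.nil)
noncomputable def C11_16 : Cd := (Cd.mk (nat_lit 0) (nat_lit 10) (nat_lit 265) (nat_lit 0) (nat_lit 0) (nat_lit 0) (nat_lit 0) Sl.nil)
noncomputable def C11_17 : Cd := (Cd.mk (nat_lit 0) (nat_lit 11) (nat_lit 26) (nat_lit 0) (nat_lit 0) (nat_lit 0) (nat_lit 0) Sl.nil)
noncomputable def C11_18 : Cd := (Cd.mk (nat_lit 0) (nat_lit 3) (nat_lit 4608) (nat_lit 0) (nat_lit 0) (nat_lit 0) (nat_lit 0) Sl.nil)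
noncomputable def C11_19 : Cd := (Cd.mk (nat_lit 0) (nat_lit 4) (nat_lit 4144) (nat_lit 0) (nat_lit 0) (nat_lit 0) (nat_lit 0) Sl.nil)
noncomputable def C11_20 : Cd := (Cd.mk (nat_lit 0) (nat_lit 4) (nat_lit 4369) (nat_lit 0) (nat_lit 0) (nat_lit 0) (nat_lit 0) Sl.nil)
noncomputable def C11_21 : Cd := (Cd.mk (nat_lit 0) (nat_lit 5) (nat_lit 4130) (nat_lit 0) (nat_lit 0) (nat_lit 0) (nat_lit 0) Sl.nil)
noncomputable def C11_22 : Cd := (Cd.mk (nat_lit 0) (nat_lit 5) (nat_lit 4355) (nat_lit 0) (nat_lit 0) (nat_lit 0) (nat_lit 0) Sl.nil)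
noncomputable def C11_23 : Cd := (Cd.mk (nat_lit 0) (nat_lit 6) (nat_lit 4116) (nat_lit 0) (nat_lit 0) (nat_lit 0) (nat_lit 0) Sl.nil)
noncomputable def C11_24 : Cd := (Cd.mk (nat_lit 0) (nat_lit 7) (nat_lit 4102) (nat_lit 0) (nat_lit 0) (nat_lit 0) (nat_lit 0) Sl.nil)
noncomputable def CL11 : Cl := (Cl.cons C11_0 (Cl.cons C11_1 (Cl.cons C11_2 (Cl.cons C11_3 (Cl.cons C11_4 (Cl.cons C11_5 (Cl.cons C11_6 (Cl.cons C11_7 (Cl.cons C11_8 (Cl.cons C11_9 (Cl.cons C11_10 (Cl.cons C11_11 (Cl.cons C11_12 (Cl.cons C11_13 (Cl.cons C11_14 (Cl.cons C11_15 (Cl.cons C11_16 (Cl.cons C11_17 (Cl.cons C11_18 (Cl.cons C11_19 (Cl.cons C11_20 (Cl.cons C11_21 (Cl.cons C11_22 (Cl.cons C11_23 (Cl.cons C11_24 Cl.nil)))))))))))))))))))))))))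
noncomputable def AL11_0 : Nat := (nat_lit 0x318)
noncomputable def A411_0 : Nat := (nat_lit 0)
noncomputable def IX11_0 : Nat := (nat_lit 0)
noncomputable def OL11_0 : Nat := (nat_lit 0)
noncomputable def AL11_1 : Nat := (nat_lit 0)
noncomputable def A411_1 : Nat := (nat_lit 0)
noncomputable def IX11_1 : Nat := (nat_lit 0)
noncomputable def OL11_1 : Nat := (nat_lit 0)
noncomputable def AL11_2 : Nat := (nat_lit 0)
noncomputable def A411_2 : Nat := (nat_lit 0)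
noncomputable def IX11_2 : Nat := (nat_lit 0)
noncomputable def OL11_2 : Nat := (nat_lit 0)
noncomputable def AL11_3 : Nat := (nat_lit 0)
noncomputable def A411_3 : Nat := (nat_lit 0)
noncomputable def IX11_3 : Nat := (nat_lit 0)
noncomputable def OL11_3 : Nat := (nat_lit 0)
noncomputable def AL11_4 : Nat := (nat_lit 0)
noncomputable def A411_4 : Nat := (nat_lit 0)
noncomputable def IX11_4 : Nat := (nat_lit 0)
noncomputable def OL11_4 : Nat := (nat_lit 0)
noncomputable def AL11_5 : Nat := (nat_lit 0)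
noncomputable def A411_5 : Nat := (nat_lit 0)
noncomputable def IX11_5 : Nat := (nat_lit 0)
noncomputable def OL11_5 : Nat := (nat_lit 0)
noncomputable def AL11_6 : Nat := (nat_lit 0)
noncomputable def A411_6 : Nat := (nat_lit 0)
noncomputable def IX11_6 : Nat := (nat_lit 0)
noncomputable def OL11_6 : Nat := (nat_lit 0)
noncomputable def AL11_7 : Nat := (nat_lit 0)
noncomputable def A411_7 : Nat := (nat_lit 0)
noncomputable def IX11_7 : Nat := (nat_lit 0)
noncomputable def OL11_7 : Nat := (nat_lit 0)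
noncomputable def AL11_8 : Nat := (nat_lit 0)
noncomputable def A411_8 : Nat := (nat_lit 0)
noncomputable def IX11_8 : Nat := (nat_lit 0)
noncomputable def OL11_8 : Nat := (nat_lit 0)
noncomputable def AL11_9 : Nat := (nat_lit 0)
noncomputable def A411_9 : Nat := (nat_lit 0)
noncomputable def IX11_9 : Nat := (nat_lit 0)
noncomputable def OL11_9 : Nat := (nat_lit 0)
noncomputable def AL11_10 : Nat := (nat_lit 0)
noncomputable def A411_10 : Nat := (nat_lit 0)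
noncomputable def IX11_10 : Nat := (nat_lit 0)
noncomputable def OL11_10 : Nat := (nat_lit 0)
noncomputable def AL11_11 : Nat := (nat_lit 0)
noncomputable def A411_11 : Nat := (nat_lit 0)
noncomputable def IX11_11 : Nat := (nat_lit 0)
noncomputable def OL11_11 : Nat := (nat_lit 0)
noncomputable def AL11_12 : Nat := (nat_lit 0)
noncomputable def A411_12 : Nat := (nat_lit 0)
noncomputable def IX11_12 : Nat := (nat_lit 0)
noncomputable def OL11_12 : Nat := (nat_lit 0)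
noncomputable def AL11_13 : Nat := (nat_lit 0)
noncomputable def A411_13 : Nat := (nat_lit 0)
noncomputable def IX11_13 : Nat := (nat_lit 0)
noncomputable def OL11_13 : Nat := (nat_lit 0)
noncomputable def AL11_14 : Nat := (nat_lit 0)
noncomputable def A411_14 : Nat := (nat_lit 0)
noncomputable def IX11_14 : Nat := (nat_lit 0)
noncomputable def OL11_14 : Nat := (nat_lit 0)
noncomputable def AL11_15 : Nat := (nat_lit 0)
noncomputable def A411_15 : Nat := (nat_lit 0)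
noncomputable def IX11_15 : Nat := (nat_lit 0)
noncomputable def OL11_15 : Nat := (nat_lit 0)
noncomputable def AL11_16 : Nat := (nat_lit 0)
noncomputable def A411_16 : Nat := (nat_lit 0)
noncomputable def IX11_16 : Nat := (nat_lit 0)
noncomputable def OL11_16 : Nat := (nat_lit 0)
noncomputable def AL11_17 : Nat := (nat_lit 0)
noncomputable def A411_17 : Nat := (nat_lit 0)
noncomputable def IX11_17 : Nat := (nat_lit 0)
noncomputable def OL11_17 : Nat := (nat_lit 0)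
noncomputable def AL11_18 : Nat := (nat_lit 0)
noncomputable def A411_18 : Nat := (nat_lit 0)
noncomputable def IX11_18 : Nat := (nat_lit 0)
noncomputable def OL11_18 : Nat := (nat_lit 0)
noncomputable def AL11_19 : Nat := (nat_lit 0)
noncomputable def A411_19 : Nat := (nat_lit 0)
noncomputable def IX11_19 : Nat := (nat_lit 0)
noncomputable def OL11_19 : Nat := (nat_lit 0)
noncomputable def AL11_20 : Nat := (nat_lit 0)
noncomputable def A411_20 : Nat := (nat_lit 0)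
noncomputable def IX11_20 : Nat := (nat_lit 0)
noncomputable def OL11_20 : Nat := (nat_lit 0)
noncomputable def AL11_21 : Nat := (nat_lit 0)
noncomputable def A411_21 : Nat := (nat_lit 0)
noncomputable def IX11_21 : Nat := (nat_lit 0)
noncomputable def OL11_21 : Nat := (nat_lit 0)
noncomputable def AL11_22 : Nat := (nat_lit 0)
noncomputable def A411_22 : Nat := (nat_lit 0)
noncomputable def IX11_22 : Nat := (nat_lit 0)
noncomputable def OL11_22 : Nat := (nat_lit 0)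
noncomputable def AL11_23 : Nat := (nat_lit 0)
noncomputable def A411_23 : Nat := (nat_lit 0)
noncomputable def IX11_23 : Nat := (nat_lit 0)
noncomputable def OL11_23 : Nat := (nat_lit 0)
noncomputable def AL11_24 : Nat := (nat_lit 0)
noncomputable def A411_24 : Nat := (nat_lit 0)
noncomputable def IX11_24 : Nat := (nat_lit 0)
noncomputable def OL11_24 : Nat := (nat_lit 0)
noncomputable def TL11 : Tl := (Tl.cons (Tr.mk AL11_0 A411_0 IX11_0 OL11_0) (Tl.cons (Tr.mk AL11_1 A411_1 IX11_1 OL11_1) (Tl.cons (Tr.mk AL11_2 A411_2 IX11_2 OL11_2) (Tl.cons (Tr.mk AL11_3 A411_3 IX11_3 OL11_3) (Tl.cons (Tr.mk AL11_4 A411_4 IX11_4 OL11_4) (Tl.cons (Tr.mk AL11_5 A411_5 IX11_5 OL11_5) (Tl.cons (Tr.mk AL11_6 A411_6 IX11_6 OL11_6) (Tl.cons (Tr.mk AL11_7 A411_7 IX11_7 OL11_7) (Tl.cons (Tr.mk AL11_8 A411_8 IX11_8 OL11_8) (Tl.cons (Tr.mk AL11_9 A411_9 IX11_9 OL11_9) (Tl.cons (Tr.mk AL11_10 A411_10 IX11_10 OL11_10) (Tl.cons (Tr.mk AL11_11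 A411_11 IX11_11 OL11_11) (Tl.cons (Tr.mk AL11_12 A411_12 IX11_12 OL11_12) (Tl.cons (Tr.mk AL11_13 A411_13 IX11_13 OL11_13) (Tl.cons (Tr.mk AL11_14 A411_14 IX11_14 OL11_14) (Tl.cons (Tr.mk AL11_15 A411_15 IX11_15 OL11_15) (Tl.cons (Tr.mk AL11_16 A411_16 IX11_16 OL11_16) (Tl.cons (Tr.mk AL11_17 A411_17 IX11_17 OL11_17) (Tl.cons (Tr.mk AL11_18 A411_18 IX11_18 OL11_18) (Tl.cons (Tr.mk AL11_19 A411_19 IX11_19 OL11_19) (Tl.cons (Tr.mk AL11_20 A411_20 IX11_20 OL11_20) (Tl.cons (Tr.mk AL11_21 A411_21 IX11_21 OL11_21) (Tl.cons (Tr.mk AL11_22 A411_22 IX11_22 OL11_22) (Tl.cons (Tr.mk AL11_23 A411_23 IX11_23 OL11_23) (Tl.cons (Tr.mk AL11_24 A411_24 IX11_24 OL11_24) Tl.nil)))))))))))))))))))))))))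

end Pool.Agent.NNr.R11_1_2_3
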