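import Pool.Agent.NNr.R11_1_2_3.D1
import Pool.Agent.NNr.R11_1_2_3.D2
import Pool.Agent.NNr.R11_1_2_3.D3
import Pool.Agent.NNr.R11_1_2_3.D4
import Pool.Agent.NNr.R11_1_2_3.D5
import Pool.Agent.NNr.R11_1_2_3.D6
import Pool.Agent.NNr.R11_1_2_3.D7
import Pool.Agent.NNr.R11_1_2_3.D8
import Pool.Agent.NNr.R11_1_2_3.D9
import Pool.Agent.NNr.R11_1_2_3.D10
import Pool.Agent.NNr.R11_1_2_3.D11

set_option linter.all false
set_option maxRecDepth 1000000
namespace Pool.Agent.NNr.R11_1_2_3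

open Pool.Agent.NNe

def sc1_4 : stCov (nat_lit 0) (nat_lit 0) (Rl.cons (nat_lit 0) (nat_lit 404) Rl.nil) C1_4 = true := by decide +kernel
def sc1_5 : stCov (nat_lit 0) (nat_lit 0) (Rl.cons (nat_lit 0) (nat_lit 541) Rl.nil) C1_5 = true := by decide +kernel
def sc1_6 : stCov (nat_lit 0) (nat_lit 0) (Rl.cons (nat_lit 0) (nat_lit 246) Rl.nil) C1_6 = true := by decide +kernel
def sc1_7 : stCov (nat_lit 0) (nat_lit 0) (Rl.cons (nat_lit 0) (nat_lit 248) Rl.nil) C1_7 = true := by decide +kernel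
def sc1_8 : stCov (nat_lit 0) (nat_lit 0) (Rl.cons (nat_lit 0) (nat_lit 400) Rl.nil) C1_8 = true := by decide +kernel
def sc1_9 : stCov (nat_lit 0) (nat_lit 0) (Rl.cons (nat_lit 0) (nat_lit 349) Rl.nil) C1_9 = true := by decide +kernel
def sc1_10 : stCov (nat_lit 0) (nat_lit 0) (Rl.cons (nat_lit 0) (nat_lit 160) Rl.nil) C1_10 = true := by decide +kernel
def sc1_11 : stCov (nat_lit 0) (nat_lit 0) (Rl.cons (nat_lit 0) (nat_lit 226) Rl.nil) C1_11 = true := by decide +kernel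
def sc1_12 : stCov (nat_lit 0) (nat_lit 0) (Rl.cons (nat_lit 0) (nat_lit 110) Rl.nil) C1_12 = true := by decide +kernel
def sc1_13 : stCov (nat_lit 0) (nat_lit 0) (Rl.cons (nat_lit 0) (nat_lit 40) Rl.nil) C1_13 = true := by decide +kernel
def sc1_14 : stCov (nat_lit 0) (nat_lit 0) (Rl.cons (nat_lit 0) (nat_lit 34) Rl.nil) C1_14 = true := by decide +kernel
def sc1_15 : stCov (nat_lit 0) (nat_lit 0) Rl.nil C1_15 = true := by decide +kernel
def sc1_16 : stCov (nat_lit 0) (nat_lit 0) Rl.nil C1_16 = true := by decide +kernel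
def sc1_17 : stCov (nat_lit 0) (nat_lit 0) Rl.nil C1_17 = true := by decide +kernel
def sc1_18 : stCov (nat_lit 2) (nat_lit 0) (Rl.cons (nat_lit 0) (nat_lit 866) Rl.nil) C1_18 = true := by decide +kernel
def sc1_19 : stCov (nat_lit 1) (nat_lit 0) (Rl.cons (nat_lit 0) (nat_lit 504) Rl.nil) C1_19 = true := by decide +kernel
def sc1_20 : stCov (nat_lit 0) (nat_lit 0) (Rl.cons (nat_lit 0) (nat_lit 2058) Rl.nil) C1_20 = true := by decide +kernel
def sc1_21 : stCov (nat_lit 0) (nat_lit 0) (Rl.cons (nat_lit 0) (nat_lit 1172) Rl.nil) C1_21 = true := by decide +kernel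
def sc1_22 : stCov (nat_lit 0) (nat_lit 0) (Rl.cons (nat_lit 0) (nat_lit 1344) Rl.nil) C1_22 = true := by decide +kernel
def sc1_23 : stCov (nat_lit 0) (nat_lit 0) (Rl.cons (nat_lit 0) (nat_lit 926) Rl.nil) C1_23 = true := by decide +kernel
def sc1_24 : stCov (nat_lit 0) (nat_lit 0) (Rl.cons (nat_lit 0) (nat_lit 344) Rl.nil) C1_24 = true := by decide +kernel
def tc1_15 : tiCov (nat_lit 1) (nat_lit 15) ZZ1 C1_15 = true := by decide +kernel
def tc1_16 : tiCov (nat_lit 1) (nat_lit 16) ZZ1 C1_16 = true := by decide +kernel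
def tc1_17 : tiCov (nat_lit 1) (nat_lit 17) ZZ1 C1_17 = true := by decide +kernel
def wf2_15 : wfC (nat_lit 61) (nat_lit 4) C2_15 = true := by decide +kernel
def wf2_16 : wfC (nat_lit 61) (nat_lit 4) C2_16 = true := by decide +kernel
def wf2_17 : wfC (nat_lit 61) (nat_lit 4) C2_17 = true := by decide +kernel
def rf2_15 : rfCk (nat_lit 61) (nat_lit 2) (nat_lit 61) (nat_lit 4) (nat_lit 9) (nat_lit 0) (nat_lit 15) TL2 CL1 CL2 = true := by decide +kernel
def rf2_16 : rfCk (nat_lit 61) (nat_lit 2) (nat_lit 61) (nat_lit 4) (nat_lit 9) (nat_lit 0) (nat_lit 16) TL2 CL1 CL2 = true := by decide +kernel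
def rf2_17 : rfCk (nat_lit 61) (nat_lit 2) (nat_lit 61) (nat_lit 4) (nat_lit 9) (nat_lit 0) (nat_lit 17) TL2 CL1 CL2 = true := by decide +kernel
def sc2_15 : stCov (nat_lit 0) (nat_lit 0) Rl.nil C2_15 = true := by decide +kernel
def sc2_16 : stCov (nat_lit 0) (nat_lit 0) Rl.nil C2_16 = true := by decide +kernel
def sc2_17 : stCov (nat_lit 0) (nat_lit 0) Rl.nil C2_17 = true := by decide +kernel
def tc2_15 : tiCov (nat_lit 1) (nat_lit 15) ZZ2 C2_15 = true := by decide +kernel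
def tc2_16 : tiCov (nat_lit 1) (nat_lit 16) ZZ2 C2_16 = true := by decide +kernel
def tc2_17 : tiCov (nat_lit 1) (nat_lit 17) ZZ2 C2_17 = true := by decide +kernel
def wf3_14 : wfC (nat_lit 61) (nat_lit 2) C3_14 = true := by decide +kernel
def wf3_15 : wfC (nat_lit 61) (nat_lit 2) C3_15 = true := by decide +kernel
def wf3_16 : wfC (nat_lit 61) (nat_lit 2) C3_16 = true := by decide +kernel
def wf3_17 : wfC (nat_lit 61) (nat_lit 2) C3_17 = true := by decide +kernel
def rf3_14 : rfCk (nat_lit 61) (nat_lit 4) (nat_lit 61) (nat_lit 2) (nat_lit 4) (nat_lit 524288) (nat_lit 14) TL3 CL2 CL3 = true := by decide +kernel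
def rf3_15 : rfCk (nat_lit 61) (nat_lit 4) (nat_lit 61) (nat_lit 2) (nat_lit 4) (nat_lit 524288) (nat_lit 15) TL3 CL2 CL3 = true := by decide +kernel
def rf3_16 : rfCk (nat_lit 61) (nat_lit 4) (nat_lit 61) (nat_lit 2) (nat_lit 4) (nat_lit 524288) (nat_lit 16) TL3 CL2 CL3 = true := by decide +kernel
def rf3_17 : rfCk (nat_lit 61) (nat_lit 4) (nat_lit 61) (nat_lit 2) (nat_lit 4) (nat_lit 524288) (nat_lit 17) TL3 CL2 CL3 = true := by decide +kernel
def sc3_0 : stCov (nat_lit 2) (nat_lit 0) (Rl.cons (nat_lit 0) (nat_lit 280) Rl.nil) C3_0 = true := by decide +kernel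
def sc3_1 : stCov (nat_lit 1) (nat_lit 0) (Rl.cons (nat_lit 0) (nat_lit 448) Rl.nil) C3_1 = true := by decide +kernel
def sc3_2 : stCov (nat_lit 1) (nat_lit 0) (Rl.cons (nat_lit 0) (nat_lit 48) Rl.nil) C3_2 = true := by decide +kernel
def sc3_3 : stCov (nat_lit 0) (nat_lit 0) (Rl.cons (nat_lit 0) (nat_lit 988) Rl.nil) C3_3 = true := by decide +kernel
def sc3_4 : stCov (nat_lit 0) (nat_lit 0) (Rl.cons (nat_lit 0) (nat_lit 664) Rl.nil) C3_4 = true := by decide +kernel
def sc3_5 : stCov (nat_lit 0) (nat_lit 0) (Rl.cons (nat_lit 0) (nat_lit 1053) Rl.nil) C3_5 = true := by decide +kernel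
def sc3_6 : stCov (nat_lit 0) (nat_lit 0) (Rl.cons (nat_lit 0) (nat_lit 286) Rl.nil) C3_6 = true := by decide +kernel
def sc3_7 : stCov (nat_lit 0) (nat_lit 0) (Rl.cons (nat_lit 0) (nat_lit 600) Rl.nil) C3_7 = true := by decide +kernel
def sc3_8 : stCov (nat_lit 0) (nat_lit 0) (Rl.cons (nat_lit 0) (nat_lit 702) Rl.nil) C3_8 = true := by decide +kernel
def sc3_9 : stCov (nat_lit 0) (nat_lit 0) (Rl.cons (nat_lit 0) (nat_lit 708) Rl.nil) C3_9 = true := by decide +kernel
def sc3_10 : stCov (nat_lit 0) (nat_lit 0) (Rl.cons (nat_lit 0) (nat_lit 212) Rl.nil) C3_10 = true := by decide +kernel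
def sc3_11 : stCov (nat_lit 0) (nat_lit 0) (Rl.cons (nat_lit 0) (nat_lit 377) Rl.nil) C3_11 = true := by decide +kernel
def sc3_12 : stCov (nat_lit 0) (nat_lit 0) (Rl.cons (nat_lit 0) (nat_lit 237) Rl.nil) C3_12 = true := by decide +kernel
def sc3_13 : stCov (nat_lit 0) (nat_lit 0) (Rl.cons (nat_lit 0) (nat_lit 30) Rl.nil) C3_13 = true := by decide +kernel
def sc3_14 : stCov (nat_lit 0) (nat_lit 0) Rl.nil C3_14 = true := by decide +kernel
def sc3_15 : stCov (nat_lit 0) (nat_lit 0) Rl.nil C3_15 = true := by decide +kernel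
def sc3_16 : stCov (nat_lit 0) (nat_lit 0) Rl.nil C3_16 = true := by decide +kernel
def sc3_17 : stCov (nat_lit 0) (nat_lit 0) Rl.nil C3_17 = true := by decide +kernel
def sc3_18 : stCov (nat_lit 2) (nat_lit 0) (Rl.cons (nat_lit 0) (nat_lit 1924) Rl.nil) C3_18 = true := by decide +kernel
def sc3_19 : stCov (nat_lit 1) (nat_lit 0) (Rl.cons (nat_lit 0) (nat_lit 958) Rl.nil) C3_19 = true := by decide +kernel
def sc3_20 : stCov (nat_lit 0) (nat_lit 0) (Rl.cons (nat_lit 0) (nat_lit 4278) Rl.nil) C3_20 = true := by decide +kernel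
def sc3_21 : stCov (nat_lit 0) (nat_lit 0) (Rl.cons (nat_lit 0) (nat_lit 2151) Rl.nil) C3_21 = true := by decide +kernel
def sc3_22 : stCov (nat_lit 0) (nat_lit 0) (Rl.cons (nat_lit 0) (nat_lit 2496) Rl.nil) C3_22 = true := by decide +kernel
def sc3_23 : stCov (nat_lit 0) (nat_lit 0) (Rl.cons (nat_lit 0) (nat_lit 1674) Rl.nil) C3_23 = true := by decide +kernel
def sc3_24 : stCov (nat_lit 0) (nat_lit 0) (Rl.cons (nat_lit 0) (nat_lit 614) Rl.nil) C3_24 = true := by decide +kernel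
def tc3_14 : tiCov (nat_lit 1) (nat_lit 14) ZZ3 C3_14 = true := by decide +kernel
def tc3_15 : tiCov (nat_lit 1) (nat_lit 15) ZZ3 C3_15 = true := by decide +kernel
def tc3_16 : tiCov (nat_lit 1) (nat_lit 16) ZZ3 C3_16 = true := by decide +kernel
def tc3_17 : tiCov (nat_lit 1) (nat_lit 17) ZZ3 C3_17 = true := by decide +kernel
def wf4_14 : wfC (nat_lit 61) (nat_lit 4) C4_14 = true := by decide +kernel
def wf4_15 : wfC (nat_lit 61) (nat_lit 4) C4_15 = true := by decide +kernel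
def wf4_16 : wfC (nat_lit 61) (nat_lit 4) C4_16 = true := by decide +kernel
def wf4_17 : wfC (nat_lit 61) (nat_lit 4) C4_17 = true := by decide +kernel
def rf4_14 : rfCk (nat_lit 61) (nat_lit 2) (nat_lit 61) (nat_lit 4) (nat_lit 9) (nat_lit 0) (nat_lit 14) TL4 CL3 CL4 = true := by decide +kernel
def rf4_15 : rfCk (nat_lit 61) (nat_lit 2) (nat_lit 61) (nat_lit 4) (nat_lit 9) (nat_lit 0) (nat_lit 15) TL4 CL3 CL4 = true := by decide +kernel
def rf4_16 : rfCk (nat_lit 61) (nat_lit 2) (nat_lit 61) (nat_lit 4) (nat_lit 9) (nat_lit 0) (nat_lit 16) TL4 CL3 CL4 = true := by decide +kernel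
def rf4_17 : rfCk (nat_lit 61) (nat_lit 2) (nat_lit 61) (nat_lit 4) (nat_lit 9) (nat_lit 0) (nat_lit 17) TL4 CL3 CL4 = true := by decide +kernel
def sc4_14 : stCov (nat_lit 0) (nat_lit 0) Rl.nil C4_14 = true := by decide +kernel
def sc4_15 : stCov (nat_lit 0) (nat_lit 0) Rl.nil C4_15 = true := by decide +kernel
def sc4_16 : stCov (nat_lit 0) (nat_lit 0) Rl.nil C4_16 = true := by decide +kernel
def sc4_17 : stCov (nat_lit 0) (nat_lit 0) Rl.nil C4_17 = true := by decide +kernel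
def tc4_14 : tiCov (nat_lit 1) (nat_lit 14) ZZ4 C4_14 = true := by decide +kernel
def tc4_15 : tiCov (nat_lit 1) (nat_lit 15) ZZ4 C4_15 = true := by decide +kernel
def tc4_16 : tiCov (nat_lit 1) (nat_lit 16) ZZ4 C4_16 = true := by decide +kernel
def tc4_17 : tiCov (nat_lit 1) (nat_lit 17) ZZ4 C4_17 = true := by decide +kernel
def wf5_13 : wfC (nat_lit 61) (nat_lit 2) C5_13 = true := by decide +kernel
def wf5_14 : wfC (nat_lit 61) (nat_lit 2) C5_14 = true := by decide +kernel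
def wf5_15 : wfC (nat_lit 61) (nat_lit 2) C5_15 = true := by decide +kernel
def wf5_16 : wfC (nat_lit 61) (nat_lit 2) C5_16 = true := by decide +kernel
def wf5_17 : wfC (nat_lit 61) (nat_lit 2) C5_17 = true := by decide +kernel
def rf5_13 : rfCk (nat_lit 61) (nat_lit 4) (nat_lit 61) (nat_lit 2) (nat_lit 0) (nat_lit 1048576) (nat_lit 13) TL5 CL4 CL5 = true := by decide +kernel
def rf5_14 : rfCk (nat_lit 61) (nat_lit 4) (nat_lit 61) (nat_lit 2) (nat_lit 0) (nat_lit 1048576) (nat_lit 14) TL5 CL4 CL5 = true := by decide +kernel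
def rf5_15 : rfCk (nat_lit 61) (nat_lit 4) (nat_lit 61) (nat_lit 2) (nat_lit 0) (nat_lit 1048576) (nat_lit 15) TL5 CL4 CL5 = true := by decide +kernel
def rf5_16 : rfCk (nat_lit 61) (nat_lit 4) (nat_lit 61) (nat_lit 2) (nat_lit 0) (nat_lit 1048576) (nat_lit 16) TL5 CL4 CL5 = true := by decide +kernel
def rf5_17 : rfCk (nat_lit 61) (nat_lit 4) (nat_lit 61) (nat_lit 2) (nat_lit 0) (nat_lit 1048576) (nat_lit 17) TL5 CL4 CL5 = true := by decide +kernel
def sc5_0 : stCov (nat_lit 2) (nat_lit 0) (Rl.cons (nat_lit 0) (nat_lit 496) Rl.nil) C5_0 = true := by decide +kernel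
def sc5_1 : stCov (nat_lit 1) (nat_lit 0) (Rl.cons (nat_lit 0) (nat_lit 688) Rl.nil) C5_1 = true := by decide +kernel
def sc5_2 : stCov (nat_lit 1) (nat_lit 0) (Rl.cons (nat_lit 0) (nat_lit 60) Rl.nil) C5_2 = true := by decide +kernel
def sc5_3 : stCov (nat_lit 0) (nat_lit 0) (Rl.cons (nat_lit 0) (nat_lit 1388) Rl.nil) C5_3 = true := by decide +kernel
def sc5_4 : stCov (nat_lit 0) (nat_lit 0) (Rl.cons (nat_lit 0) (nat_lit 920) Rl.nil) C5_4 = true := by decide +kernel
def sc5_5 : stCov (nat_lit 0) (nat_lit 0) (Rl.cons (nat_lit 0) (nat_lit 1521) Rl.nil) C5_5 = true := by decide +kernel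
def sc5_6 : stCov (nat_lit 0) (nat_lit 0) (Rl.cons (nat_lit 0) (nat_lit 386) Rl.nil) C5_6 = true := by decide +kernel
def sc5_7 : stCov (nat_lit 0) (nat_lit 0) (Rl.cons (nat_lit 0) (nat_lit 740) Rl.nil) C5_7 = true := by decide +kernel
def sc5_8 : stCov (nat_lit 0) (nat_lit 0) (Rl.cons (nat_lit 0) (nat_lit 942) Rl.nil) C5_8 = true := by decide +kernel
def sc5_9 : stCov (nat_lit 0) (nat_lit 0) (Rl.cons (nat_lit 0) (nat_lit 860) Rl.nil) C5_9 = true := by decide +kernel
def sc5_10 : stCov (nat_lit 0) (nat_lit 0) (Rl.cons (nat_lit 0) (nat_lit 264) Rl.nil) C5_10 = true := by decide +kernel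
def sc5_11 : stCov (nat_lit 0) (nat_lit 0) (Rl.cons (nat_lit 0) (nat_lit 453) Rl.nil) C5_11 = true := by decide +kernel
def sc5_12 : stCov (nat_lit 0) (nat_lit 0) (Rl.cons (nat_lit 0) (nat_lit 277) Rl.nil) C5_12 = true := by decide +kernel
def sc5_13 : stCov (nat_lit 0) (nat_lit 0) Rl.nil C5_13 = true := by decide +kernel
def sc5_14 : stCov (nat_lit 0) (nat_lit 0) Rl.nil C5_14 = true := by decide +kernel
def sc5_15 : stCov (nat_lit 0) (nat_lit 0) Rl.nil C5_15 = true := by decide +kernel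
def sc5_16 : stCov (nat_lit 0) (nat_lit 0) Rl.nil C5_16 = true := by decide +kernel
def sc5_17 : stCov (nat_lit 0) (nat_lit 0) Rl.nil C5_17 = true := by decide +kernel
def sc5_18 : stCov (nat_lit 2) (nat_lit 0) (Rl.cons (nat_lit 0) (nat_lit 2756) Rl.nil) C5_18 = true := by decide +kernel
def sc5_19 : stCov (nat_lit 1) (nat_lit 0) (Rl.cons (nat_lit 0) (nat_lit 1304) Rl.nil) C5_19 = true := by decide +kernel
def sc5_20 : stCov (nat_lit 0) (nat_lit 0) (Rl.cons (nat_lit 0) (nat_lit 5618) Rl.nil) C5_20 = true := by decide +kernel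
def sc5_21 : stCov (nat_lit 0) (nat_lit 0) (Rl.cons (nat_lit 0) (nat_lit 2903) Rl.nil) C5_21 = true := by decide +kernel
def sc5_22 : stCov (nat_lit 0) (nat_lit 0) (Rl.cons (nat_lit 0) (nat_lit 2726) Rl.nil) C5_22 = true := by decide +kernel
def sc5_23 : stCov (nat_lit 0) (nat_lit 0) (Rl.cons (nat_lit 0) (nat_lit 2226) Rl.nil) C5_23 = true := by decide +kernel
def sc5_24 : stCov (nat_lit 0) (nat_lit 0) (Rl.cons (nat_lit 0) (nat_lit 682) Rl.nil) C5_24 = true := by decide +kernel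
def tc5_13 : tiCov (nat_lit 1) (nat_lit 13) ZZ5 C5_13 = true := by decide +kernel
def tc5_14 : tiCov (nat_lit 1) (nat_lit 14) ZZ5 C5_14 = true := by decide +kernel
def tc5_15 : tiCov (nat_lit 1) (nat_lit 15) ZZ5 C5_15 = true := by decide +kernel
def tc5_16 : tiCov (nat_lit 1) (nat_lit 16) ZZ5 C5_16 = true := by decide +kernel
def tc5_17 : tiCov (nat_lit 1) (nat_lit 17) ZZ5 C5_17 = true := by decide +kernel
def wf6_13 : wfC (nat_lit 61) (nat_lit 4) C6_13 = true := by decide +kernel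
def wf6_14 : wfC (nat_lit 61) (nat_lit 4) C6_14 = true := by decide +kernel
def wf6_15 : wfC (nat_lit 61) (nat_lit 4) C6_15 = true := by decide +kernel
def wf6_16 : wfC (nat_lit 61) (nat_lit 4) C6_16 = true := by decide +kernel
def wf6_17 : wfC (nat_lit 61) (nat_lit 4) C6_17 = true := by decide +kernel
def rf6_13 : rfCk (nat_lit 61) (nat_lit 2) (nat_lit 61) (nat_lit 4) (nat_lit 9) (nat_lit 0) (nat_lit 13) TL6 CL5 CL6 = true := by decide +kernel
def rf6_14 : rfCk (nat_lit 61) (nat_lit 2) (nat_lit 61) (nat_lit 4) (nat_lit 9) (nat_lit 0) (nat_lit 14) TL6 CL5 CL6 = true := by decide +kernel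
def rf6_15 : rfCk (nat_lit 61) (nat_lit 2) (nat_lit 61) (nat_lit 4) (nat_lit 9) (nat_lit 0) (nat_lit 15) TL6 CL5 CL6 = true := by decide +kernel
def rf6_16 : rfCk (nat_lit 61) (nat_lit 2) (nat_lit 61) (nat_lit 4) (nat_lit 9) (nat_lit 0) (nat_lit 16) TL6 CL5 CL6 = true := by decide +kernel
def rf6_17 : rfCk (nat_lit 61) (nat_lit 2) (nat_lit 61) (nat_lit 4) (nat_lit 9) (nat_lit 0) (nat_lit 17) TL6 CL5 CL6 = true := by decide +kernel
def sc6_13 : stCov (nat_lit 0) (nat_lit 0) Rl.nil C6_13 = true := by decide +kernel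
def sc6_14 : stCov (nat_lit 0) (nat_lit 0) Rl.nil C6_14 = true := by decide +kernel
def sc6_15 : stCov (nat_lit 0) (nat_lit 0) Rl.nil C6_15 = true := by decide +kernel
def sc6_16 : stCov (nat_lit 0) (nat_lit 0) Rl.nil C6_16 = true := by decide +kernel
def sc6_17 : stCov (nat_lit 0) (nat_lit 0) Rl.nil C6_17 = true := by decide +kernel
def tc6_13 : tiCov (nat_lit 1) (nat_lit 13) ZZ6 C6_13 = true := by decide +kernel
def tc6_14 : tiCov (nat_lit 1) (nat_lit 14) ZZ6 C6_14 = true := by decide +kernel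
def tc6_15 : tiCov (nat_lit 1) (nat_lit 15) ZZ6 C6_15 = true := by decide +kernel
def tc6_16 : tiCov (nat_lit 1) (nat_lit 16) ZZ6 C6_16 = true := by decide +kernel
def tc6_17 : tiCov (nat_lit 1) (nat_lit 17) ZZ6 C6_17 = true := by decide +kernel
def wf7_13 : wfC (nat_lit 61) (nat_lit 3) C7_13 = true := by decide +kernel
def wf7_14 : wfC (nat_lit 61) (nat_lit 3) C7_14 = true := by decide +kernel
def wf7_15 : wfC (nat_lit 61) (nat_lit 3) C7_15 = true := by decide +kernel
def wf7_16 : wfC (nat_lit 61) (nat_lit 3) C7_16 = true := by decide +kernel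
def wf7_17 : wfC (nat_lit 61) (nat_lit 3) C7_17 = true := by decide +kernel
def rf7_13 : rfCk (nat_lit 61) (nat_lit 4) (nat_lit 61) (nat_lit 3) (nat_lit 3) (nat_lit 2097152) (nat_lit 13) TL7 CL6 CL7 = true := by decide +kernel
def rf7_14 : rfCk (nat_lit 61) (nat_lit 4) (nat_lit 61) (nat_lit 3) (nat_lit 3) (nat_lit 2097152) (nat_lit 14) TL7 CL6 CL7 = true := by decide +kernel
def rf7_15 : rfCk (nat_lit 61) (nat_lit 4) (nat_lit 61) (nat_lit 3) (nat_lit 3) (nat_lit 2097152) (nat_lit 15) TL7 CL6 CL7 = true := by decide +kernel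
def rf7_16 : rfCk (nat_lit 61) (nat_lit 4) (nat_lit 61) (nat_lit 3) (nat_lit 3) (nat_lit 2097152) (nat_lit 16) TL7 CL6 CL7 = true := by decide +kernel
def rf7_17 : rfCk (nat_lit 61) (nat_lit 4) (nat_lit 61) (nat_lit 3) (nat_lit 3) (nat_lit 2097152) (nat_lit 17) TL7 CL6 CL7 = true := by decide +kernel
def sc7_13 : stCov (nat_lit 0) (nat_lit 0) Rl.nil C7_13 = true := by decide +kernel
def sc7_14 : stCov (nat_lit 0) (nat_lit 0) Rl.nil C7_14 = true := by decide +kernel
def sc7_15 : stCov (nat_lit 0) (nat_lit 0) Rl.nil C7_15 = true := by decide +kernel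
def sc7_16 : stCov (nat_lit 0) (nat_lit 0) Rl.nil C7_16 = true := by decide +kernel
def sc7_17 : stCov (nat_lit 0) (nat_lit 0) Rl.nil C7_17 = true := by decide +kernel
def tc7_13 : tiCov (nat_lit 1) (nat_lit 13) ZZ7 C7_13 = true := by decide +kernel
def tc7_14 : tiCov (nat_lit 1) (nat_lit 14) ZZ7 C7_14 = true := by decide +kernel
def tc7_15 : tiCov (nat_lit 1) (nat_lit 15) ZZ7 C7_15 = true := by decide +kernel
def tc7_16 : tiCov (nat_lit 1) (nat_lit 16) ZZ7 C7_16 = true := by decide +kernel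
def tc7_17 : tiCov (nat_lit 1) (nat_lit 17) ZZ7 C7_17 = true := by decide +kernel
def wf8_13 : wfC (nat_lit 61) (nat_lit 15) C8_13 = true := by decide +kernel
def wf8_14 : wfC (nat_lit 61) (nat_lit 15) C8_14 = true := by decide +kernel
def wf8_15 : wfC (nat_lit 61) (nat_lit 15) C8_15 = true := by decide +kernel
def wf8_16 : wfC (nat_lit 61) (nat_lit 15) C8_16 = true := by decide +kernel
def wf8_17 : wfC (nat_lit 61) (nat_lit 15) C8_17 = true := by decide +kernel
def rf8_13 : rfCk (nat_lit 61) (nat_lit 3) (nat_lit 61) (nat_lit 15) (nat_lit 9) (nat_lit 0) (nat_lit 13) TL8 CL7 CL8 = true := by decide +kernel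
def rf8_14 : rfCk (nat_lit 61) (nat_lit 3) (nat_lit 61) (nat_lit 15) (nat_lit 9) (nat_lit 0) (nat_lit 14) TL8 CL7 CL8 = true := by decide +kernel
def rf8_15 : rfCk (nat_lit 61) (nat_lit 3) (nat_lit 61) (nat_lit 15) (nat_lit 9) (nat_lit 0) (nat_lit 15) TL8 CL7 CL8 = true := by decide +kernel
def rf8_16 : rfCk (nat_lit 61) (nat_lit 3) (nat_lit 61) (nat_lit 15) (nat_lit 9) (nat_lit 0) (nat_lit 16) TL8 CL7 CL8 = true := by decide +kernel
def rf8_17 : rfCk (nat_lit 61) (nat_lit 3) (nat_lit 61) (nat_lit 15) (nat_lit 9) (nat_lit 0) (nat_lit 17) TL8 CL7 CL8 = true := by decide +kernel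
def sc8_13 : stCov (nat_lit 0) (nat_lit 0) Rl.nil C8_13 = true := by decide +kernel
def sc8_14 : stCov (nat_lit 0) (nat_lit 0) Rl.nil C8_14 = true := by decide +kernel
def sc8_15 : stCov (nat_lit 0) (nat_lit 0) Rl.nil C8_15 = true := by decide +kernel
def sc8_16 : stCov (nat_lit 0) (nat_lit 0) Rl.nil C8_16 = true := by decide +kernel
def sc8_17 : stCov (nat_lit 0) (nat_lit 0) Rl.nil C8_17 = true := by decide +kernel
def tc8_13 : tiCov (nat_lit 1) (nat_lit 13) ZZ8 C8_13 = true := by decide +kernel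
def tc8_14 : tiCov (nat_lit 1) (nat_lit 14) ZZ8 C8_14 = true := by decide +kernel
def tc8_15 : tiCov (nat_lit 1) (nat_lit 15) ZZ8 C8_15 = true := by decide +kernel
def tc8_16 : tiCov (nat_lit 1) (nat_lit 16) ZZ8 C8_16 = true := by decide +kernel
def tc8_17 : tiCov (nat_lit 1) (nat_lit 17) ZZ8 C8_17 = true := by decide +kernel
def wf9_13 : wfC (nat_lit 59) (nat_lit 21) C9_13 = true := by decide +kernel
def wf9_14 : wfC (nat_lit 59) (nat_lit 21) C9_14 = true := by decide +kernel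
def wf9_15 : wfC (nat_lit 59) (nat_lit 21) C9_15 = true := by decide +kernel
def wf9_16 : wfC (nat_lit 59) (nat_lit 21) C9_16 = true := by decide +kernel
def wf9_17 : wfC (nat_lit 59) (nat_lit 21) C9_17 = true := by decide +kernel
def rf9_13 : rfCk (nat_lit 61) (nat_lit 15) (nat_lit 59) (nat_lit 21) (nat_lit 9) (nat_lit 0) (nat_lit 13) TL9 CL8 CL9 = true := by decide +kernel
def rf9_14 : rfCk (nat_lit 61) (nat_lit 15) (nat_lit 59) (nat_lit 21) (nat_lit 9) (nat_lit 0) (nat_lit 14) TL9 CL8 CL9 = true := by decide +kernel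
def rf9_15 : rfCk (nat_lit 61) (nat_lit 15) (nat_lit 59) (nat_lit 21) (nat_lit 9) (nat_lit 0) (nat_lit 15) TL9 CL8 CL9 = true := by decide +kernel
def rf9_16 : rfCk (nat_lit 61) (nat_lit 15) (nat_lit 59) (nat_lit 21) (nat_lit 9) (nat_lit 0) (nat_lit 16) TL9 CL8 CL9 = true := by decide +kernel
def rf9_17 : rfCk (nat_lit 61) (nat_lit 15) (nat_lit 59) (nat_lit 21) (nat_lit 9) (nat_lit 0) (nat_lit 17) TL9 CL8 CL9 = true := by decide +kernel
def sc9_13 : stCov (nat_lit 0) (nat_lit 0) Rl.nil C9_13 = true := by decide +kernel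
def sc9_14 : stCov (nat_lit 0) (nat_lit 0) Rl.nil C9_14 = true := by decide +kernel
def sc9_15 : stCov (nat_lit 0) (nat_lit 0) Rl.nil C9_15 = true := by decide +kernel
def sc9_16 : stCov (nat_lit 0) (nat_lit 0) Rl.nil C9_16 = true := by decide +kernel
def sc9_17 : stCov (nat_lit 0) (nat_lit 0) Rl.nil C9_17 = true := by decide +kernel
def tc9_13 : tiCov (nat_lit 1) (nat_lit 13) ZZ9 C9_13 = true := by decide +kernel
def tc9_14 : tiCov (nat_lit 1) (nat_lit 14) ZZ9 C9_14 = true := by decide +kernel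
def tc9_15 : tiCov (nat_lit 1) (nat_lit 15) ZZ9 C9_15 = true := by decide +kernel
def tc9_16 : tiCov (nat_lit 1) (nat_lit 16) ZZ9 C9_16 = true := by decide +kernel
def tc9_17 : tiCov (nat_lit 1) (nat_lit 17) ZZ9 C9_17 = true := by decide +kernel
def wf10_1 : wfC (nat_lit 14) (nat_lit 7) C10_1 = true := by decide +kernel
def wf10_7 : wfC (nat_lit 14) (nat_lit 7) C10_7 = true := by decide +kernel
def wf10_9 : wfC (nat_lit 14) (nat_lit 7) C10_9 = true := by decide +kernel
def wf10_11 : wfC (nat_lit 14) (nat_lit 7) C10_11 = true := by decide +kernel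
def wf10_13 : wfC (nat_lit 14) (nat_lit 7) C10_13 = true := by decide +kernel
def wf10_14 : wfC (nat_lit 14) (nat_lit 7) C10_14 = true := by decide +kernel
def wf10_15 : wfC (nat_lit 14) (nat_lit 7) C10_15 = true := by decide +kernel
def wf10_16 : wfC (nat_lit 14) (nat_lit 7) C10_16 = true := by decide +kernel
def wf10_17 : wfC (nat_lit 14) (nat_lit 7) C10_17 = true := by decide +kernel
def wf10_23 : wfC (nat_lit 14) (nat_lit 7) C10_23 = true := by decide +kernel
def wf10_24 : wfC (nat_lit 14) (nat_lit 7) C10_24 = true := by decide +kernel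
def rf10_1 : rfCk (nat_lit 59) (nat_lit 21) (nat_lit 14) (nat_lit 7) (nat_lit 9) (nat_lit 0) (nat_lit 1) TL10 CL9 CL10 = true := by decide +kernel
def rf10_7 : rfCk (nat_lit 59) (nat_lit 21) (nat_lit 14) (nat_lit 7) (nat_lit 9) (nat_lit 0) (nat_lit 7) TL10 CL9 CL10 = true := by decide +kernel
def rf10_9 : rfCk (nat_lit 59) (nat_lit 21) (nat_lit 14) (nat_lit 7) (nat_lit 9) (nat_lit 0) (nat_lit 9) TL10 CL9 CL10 = true := by decide +kernel
def rf10_11 : rfCk (nat_lit 59) (nat_lit 21) (nat_lit 14) (nat_lit 7) (nat_lit 9) (nat_lit 0) (nat_lit 11) TL10 CL9 CL10 = true := by decide +kernel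
def rf10_13 : rfCk (nat_lit 59) (nat_lit 21) (nat_lit 14) (nat_lit 7) (nat_lit 9) (nat_lit 0) (nat_lit 13) TL10 CL9 CL10 = true := by decide +kernel
def rf10_14 : rfCk (nat_lit 59) (nat_lit 21) (nat_lit 14) (nat_lit 7) (nat_lit 9) (nat_lit 0) (nat_lit 14) TL10 CL9 CL10 = true := by decide +kernel
def rf10_15 : rfCk (nat_lit 59) (nat_lit 21) (nat_lit 14) (nat_lit 7) (nat_lit 9) (nat_lit 0) (nat_lit 15) TL10 CL9 CL10 = true := by decide +kernel
def rf10_16 : rfCk (nat_lit 59) (nat_lit 21) (nat_lit 14) (nat_lit 7) (nat_lit 9) (nat_lit 0) (nat_lit 16) TL10 CL9 CL10 = true := by decide +kernel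
def rf10_17 : rfCk (nat_lit 59) (nat_lit 21) (nat_lit 14) (nat_lit 7) (nat_lit 9) (nat_lit 0) (nat_lit 17) TL10 CL9 CL10 = true := by decide +kernel
def rf10_23 : rfCk (nat_lit 59) (nat_lit 21) (nat_lit 14) (nat_lit 7) (nat_lit 9) (nat_lit 0) (nat_lit 23) TL10 CL9 CL10 = true := by decide +kernel
def rf10_24 : rfCk (nat_lit 59) (nat_lit 21) (nat_lit 14) (nat_lit 7) (nat_lit 9) (nat_lit 0) (nat_lit 24) TL10 CL9 CL10 = true := by decide +kernel
def sc10_1 : stCov (nat_lit 1) (nat_lit 0) Rl.nil C10_1 = true := by decide +kernel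
def sc10_7 : stCov (nat_lit 0) (nat_lit 0) Rl.nil C10_7 = true := by decide +kernel
def sc10_9 : stCov (nat_lit 0) (nat_lit 0) Rl.nil C10_9 = true := by decide +kernel
def sc10_11 : stCov (nat_lit 0) (nat_lit 0) Rl.nil C10_11 = true := by decide +kernel
def sc10_13 : stCov (nat_lit 0) (nat_lit 0) Rl.nil C10_13 = true := by decide +kernel
def sc10_14 : stCov (nat_lit 0) (nat_lit 0) Rl.nil C10_14 = true := by decide +kernel
def sc10_15 : stCov (nat_lit 0) (nat_lit 0) Rl.nil C10_15 = true := by decide +kernel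
def sc10_16 : stCov (nat_lit 0) (nat_lit 0) Rl.nil C10_16 = true := by decide +kernel
def sc10_17 : stCov (nat_lit 0) (nat_lit 0) Rl.nil C10_17 = true := by decide +kernel
def sc10_23 : stCov (nat_lit 0) (nat_lit 0) Rl.nil C10_23 = true := by decide +kernel
def sc10_24 : stCov (nat_lit 0) (nat_lit 0) Rl.nil C10_24 = true := by decide +kernel
def tc10_1 : tiCov (nat_lit 1) (nat_lit 1) ZZ10 C10_1 = true := by decide +kernel
def tc10_7 : tiCov (nat_lit 1) (nat_lit 7) ZZ10 C10_7 = true := by decide +kernel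
def tc10_9 : tiCov (nat_lit 1) (nat_lit 9) ZZ10 C10_9 = true := by decide +kernel
def tc10_11 : tiCov (nat_lit 1) (nat_lit 11) ZZ10 C10_11 = true := by decide +kernel
def tc10_13 : tiCov (nat_lit 1) (nat_lit 13) ZZ10 C10_13 = true := by decide +kernel
def tc10_14 : tiCov (nat_lit 1) (nat_lit 14) ZZ10 C10_14 = true := by decide +kernel
def tc10_15 : tiCov (nat_lit 1) (nat_lit 15) ZZ10 C10_15 = true := by decide +kernel
def tc10_16 : tiCov (nat_lit 1) (nat_lit 16) ZZ10 C10_16 = true := by decide +kernel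
def tc10_17 : tiCov (nat_lit 1) (nat_lit 17) ZZ10 C10_17 = true := by decide +kernel
def tc10_23 : tiCov (nat_lit 1) (nat_lit 23) ZZ10 C10_23 = true := by decide +kernel
def tc10_24 : tiCov (nat_lit 1) (nat_lit 24) ZZ10 C10_24 = true := by decide +kernel
def wf11_0 : wfC (nat_lit 1) (nat_lit 1) C11_0 = true := by decide +kernel
def wf11_1 : wfC (nat_lit 1) (nat_lit 1) C11_1 = true := by decide +kernel
def wf11_2 : wfC (nat_lit 1) (nat_lit 1) C11_2 = true := by decide +kernel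
def wf11_3 : wfC (nat_lit 1) (nat_lit 1) C11_3 = true := by decide +kernel
def wf11_4 : wfC (nat_lit 1) (nat_lit 1) C11_4 = true := by decide +kernel
def wf11_5 : wfC (nat_lit 1) (nat_lit 1) C11_5 = true := by decide +kernel
def wf11_6 : wfC (nat_lit 1) (nat_lit 1) C11_6 = true := by decide +kernel
def wf11_7 : wfC (nat_lit 1) (nat_lit 1) C11_7 = true := by decide +kernel
def wf11_8 : wfC (nat_lit 1) (nat_lit 1) C11_8 = true := by decide +kernel
def wf11_9 : wfC (nat_lit 1) (nat_lit 1) C11_9 = true := by decide +kernel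
def wf11_10 : wfC (nat_lit 1) (nat_lit 1) C11_10 = true := by decide +kernel
def wf11_11 : wfC (nat_lit 1) (nat_lit 1) C11_11 = true := by decide +kernel
def wf11_12 : wfC (nat_lit 1) (nat_lit 1) C11_12 = true := by decide +kernel
def wf11_13 : wfC (nat_lit 1) (nat_lit 1) C11_13 = true := by decide +kernel
def wf11_14 : wfC (nat_lit 1) (nat_lit 1) C11_14 = true := by decide +kernel
def wf11_15 : wfC (nat_lit 1) (nat_lit 1) C11_15 = true := by decide +kernel
def wf11_16 : wfC (nat_lit 1) (nat_lit 1) C11_16 = true := by decide +kernel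
def wf11_17 : wfC (nat_lit 1) (nat_lit 1) C11_17 = true := by decide +kernel
def wf11_18 : wfC (nat_lit 1) (nat_lit 1) C11_18 = true := by decide +kernel
def wf11_19 : wfC (nat_lit 1) (nat_lit 1) C11_19 = true := by decide +kernel
def wf11_20 : wfC (nat_lit 1) (nat_lit 1) C11_20 = true := by decide +kernel
def wf11_21 : wfC (nat_lit 1) (nat_lit 1) C11_21 = true := by decide +kernel
def wf11_22 : wfC (nat_lit 1) (nat_lit 1) C11_22 = true := by decide +kernel
def wf11_23 : wfC (nat_lit 1) (nat_lit 1) C11_23 = true := by decide +kernel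
def wf11_24 : wfC (nat_lit 1) (nat_lit 1) C11_24 = true := by decide +kernel
def rf11_0 : rfCk (nat_lit 14) (nat_lit 7) (nat_lit 1) (nat_lit 1) (nat_lit 9) (nat_lit 0) (nat_lit 0) TL11 CL10 CL11 = true := by decide +kernel
def rf11_1 : rfCk (nat_lit 14) (nat_lit 7) (nat_lit 1) (nat_lit 1) (nat_lit 9) (nat_lit 0) (nat_lit 1) TL11 CL10 CL11 = true := by decide +kernel
def rf11_2 : rfCk (nat_lit 14) (nat_lit 7) (nat_lit 1) (nat_lit 1) (nat_lit 9) (nat_lit 0) (nat_lit 2) TL11 CL10 CL11 = true := by decide +kernel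
def rf11_3 : rfCk (nat_lit 14) (nat_lit 7) (nat_lit 1) (nat_lit 1) (nat_lit 9) (nat_lit 0) (nat_lit 3) TL11 CL10 CL11 = true := by decide +kernel
def rf11_4 : rfCk (nat_lit 14) (nat_lit 7) (nat_lit 1) (nat_lit 1) (nat_lit 9) (nat_lit 0) (nat_lit 4) TL11 CL10 CL11 = true := by decide +kernel
def rf11_5 : rfCk (nat_lit 14) (nat_lit 7) (nat_lit 1) (nat_lit 1) (nat_lit 9) (nat_lit 0) (nat_lit 5) TL11 CL10 CL11 = true := by decide +kernel
def rf11_6 : rfCk (nat_lit 14) (nat_lit 7) (nat_lit 1) (nat_lit 1) (nat_lit 9) (nat_lit 0) (nat_lit 6) TL11 CL10 CL11 = true := by decide +kernel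
def rf11_7 : rfCk (nat_lit 14) (nat_lit 7) (nat_lit 1) (nat_lit 1) (nat_lit 9) (nat_lit 0) (nat_lit 7) TL11 CL10 CL11 = true := by decide +kernel
def rf11_8 : rfCk (nat_lit 14) (nat_lit 7) (nat_lit 1) (nat_lit 1) (nat_lit 9) (nat_lit 0) (nat_lit 8) TL11 CL10 CL11 = true := by decide +kernel
def rf11_9 : rfCk (nat_lit 14) (nat_lit 7) (nat_lit 1) (nat_lit 1) (nat_lit 9) (nat_lit 0) (nat_lit 9) TL11 CL10 CL11 = true := by decide +kernel
def rf11_10 : rfCk (nat_lit 14) (nat_lit 7) (nat_lit 1) (nat_lit 1) (nat_lit 9) (nat_lit 0) (nat_lit 10) TL11 CL10 CL11 = true := by decide +kernel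
def rf11_11 : rfCk (nat_lit 14) (nat_lit 7) (nat_lit 1) (nat_lit 1) (nat_lit 9) (nat_lit 0) (nat_lit 11) TL11 CL10 CL11 = true := by decide +kernel
def rf11_12 : rfCk (nat_lit 14) (nat_lit 7) (nat_lit 1) (nat_lit 1) (nat_lit 9) (nat_lit 0) (nat_lit 12) TL11 CL10 CL11 = true := by decide +kernel
def rf11_13 : rfCk (nat_lit 14) (nat_lit 7) (nat_lit 1) (nat_lit 1) (nat_lit 9) (nat_lit 0) (nat_lit 13) TL11 CL10 CL11 = true := by decide +kernel
def rf11_14 : rfCk (nat_lit 14) (nat_lit 7) (nat_lit 1) (nat_lit 1) (nat_lit 9) (nat_lit 0) (nat_lit 14) TL11 CL10 CL11 = true := by decide +kernel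
def rf11_15 : rfCk (nat_lit 14) (nat_lit 7) (nat_lit 1) (nat_lit 1) (nat_lit 9) (nat_lit 0) (nat_lit 15) TL11 CL10 CL11 = true := by decide +kernel
def rf11_16 : rfCk (nat_lit 14) (nat_lit 7) (nat_lit 1) (nat_lit 1) (nat_lit 9) (nat_lit 0) (nat_lit 16) TL11 CL10 CL11 = true := by decide +kernel
def rf11_17 : rfCk (nat_lit 14) (nat_lit 7) (nat_lit 1) (nat_lit 1) (nat_lit 9) (nat_lit 0) (nat_lit 17) TL11 CL10 CL11 = true := by decide +kernel
def rf11_18 : rfCk (nat_lit 14) (nat_lit 7) (nat_lit 1) (nat_lit 1) (nat_lit 9) (nat_lit 0) (nat_lit 18) TL11 CL10 CL11 = true := by decide +kernel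
def rf11_19 : rfCk (nat_lit 14) (nat_lit 7) (nat_lit 1) (nat_lit 1) (nat_lit 9) (nat_lit 0) (nat_lit 19) TL11 CL10 CL11 = true := by decide +kernel
def rf11_20 : rfCk (nat_lit 14) (nat_lit 7) (nat_lit 1) (nat_lit 1) (nat_lit 9) (nat_lit 0) (nat_lit 20) TL11 CL10 CL11 = true := by decide +kernel
def rf11_21 : rfCk (nat_lit 14) (nat_lit 7) (nat_lit 1) (nat_lit 1) (nat_lit 9) (nat_lit 0) (nat_lit 21) TL11 CL10 CL11 = true := by decide +kernel
def rf11_22 : rfCk (nat_lit 14) (nat_lit 7) (nat_lit 1) (nat_lit 1) (nat_lit 9) (nat_lit 0) (nat_lit 22) TL11 CL10 CL11 = true := by decide +kernel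
def rf11_23 : rfCk (nat_lit 14) (nat_lit 7) (nat_lit 1) (nat_lit 1) (nat_lit 9) (nat_lit 0) (nat_lit 23) TL11 CL10 CL11 = true := by decide +kernel
def rf11_24 : rfCk (nat_lit 14) (nat_lit 7) (nat_lit 1) (nat_lit 1) (nat_lit 9) (nat_lit 0) (nat_lit 24) TL11 CL10 CL11 = true := by decide +kernel
def de11_0 : deadCk (nat_lit 1) (nat_lit 1) C11_0 = true := by decide +kernel
def de11_1 : deadCk (nat_lit 1) (nat_lit 1) C11_1 = true := by decide +kernel
def de11_2 : deadCk (nat_lit 1) (nat_lit 1) C11_2 = true := by decide +kernel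
def de11_3 : deadCk (nat_lit 1) (nat_lit 1) C11_3 = true := by decide +kernel
def de11_4 : deadCk (nat_lit 1) (nat_lit 1) C11_4 = true := by decide +kernel
def de11_5 : deadCk (nat_lit 1) (nat_lit 1) C11_5 = true := by decide +kernel
def de11_6 : deadCk (nat_lit 1) (nat_lit 1) C11_6 = true := by decide +kernel
def de11_7 : deadCk (nat_lit 1) (nat_lit 1) C11_7 = true := by decide +kernel
def de11_8 : deadCk (nat_lit 1) (nat_lit 1) C11_8 = true := by decide +kernel
def de11_9 : deadCk (nat_lit 1) (nat_lit 1) C11_9 = true := by decide +kernel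
def de11_10 : deadCk (nat_lit 1) (nat_lit 1) C11_10 = true := by decide +kernel
def de11_11 : deadCk (nat_lit 1) (nat_lit 1) C11_11 = true := by decide +kernel
def de11_12 : deadCk (nat_lit 1) (nat_lit 1) C11_12 = true := by decide +kernel
def de11_13 : deadCk (nat_lit 1) (nat_lit 1) C11_13 = true := by decide +kernel
def de11_14 : deadCk (nat_lit 1) (nat_lit 1) C11_14 = true := by decide +kernel
def de11_15 : deadCk (nat_lit 1) (nat_lit 1) C11_15 = true := by decide +kernel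
def de11_16 : deadCk (nat_lit 1) (nat_lit 1) C11_16 = true := by decide +kernel
def de11_17 : deadCk (nat_lit 1) (nat_lit 1) C11_17 = true := by decide +kernel
def de11_18 : deadCk (nat_lit 1) (nat_lit 1) C11_18 = true := by decide +kernel
def de11_19 : deadCk (nat_lit 1) (nat_lit 1) C11_19 = true := by decide +kernel
def de11_20 : deadCk (nat_lit 1) (nat_lit 1) C11_20 = true := by decide +kernel
def de11_21 : deadCk (nat_lit 1) (nat_lit 1) C11_21 = true := by decide +kernel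
def de11_22 : deadCk (nat_lit 1) (nat_lit 1) C11_22 = true := by decide +kernel
def de11_23 : deadCk (nat_lit 1) (nat_lit 1) C11_23 = true := by decide +kernel
def de11_24 : deadCk (nat_lit 1) (nat_lit 1) C11_24 = true := by decide +kernel

end Pool.Agent.NNr.R11_1_2_3
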