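import Pool.Agent.NNr.R11_1_2_3.D1
import Pool.Agent.NNr.R11_1_2_3.D2
import Pool.Agent.NNr.R11_1_2_3.D3

set_option linter.all false
set_option maxRecDepth 1000000
namespace Pool.Agent.NNr.R11_1_2_3

open Pool.Agent.NNe

def st2_20_0 : starCk (nat_lit 61) (nat_lit 4) (nat_lit 1) (nat_lit 2) (nat_lit 85) (nat_lit 276) (nat_lit 16) C2_20 = true := by decide +kernel
def sc2_20 : stCov (nat_lit 1) (nat_lit 276) (Rl.cons (nat_lit 276) (nat_lit 85) Rl.nil) C2_20 = true := by decide +kernel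
def wf2_21 : wfC (nat_lit 61) (nat_lit 4) C2_21 = true := by decide +kernel
def rf2_21 : rfCk (nat_lit 61) (nat_lit 2) (nat_lit 61) (nat_lit 4) (nat_lit 9) (nat_lit 0) (nat_lit 21) TL2 CL1 CL2 = true := by decide +kernel
def st2_21_0 : starCk (nat_lit 61) (nat_lit 4) (nat_lit 1) (nat_lit 2) (nat_lit 118) (nat_lit 261) (nat_lit 16) C2_21 = true := by decide +kernel
def sc2_21 : stCov (nat_lit 1) (nat_lit 261) (Rl.cons (nat_lit 261) (nat_lit 118) Rl.nil) C2_21 = true := by decide +kernel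
def wf2_22 : wfC (nat_lit 61) (nat_lit 4) C2_22 = true := by decide +kernel
def rf2_22 : rfCk (nat_lit 61) (nat_lit 2) (nat_lit 61) (nat_lit 4) (nat_lit 9) (nat_lit 0) (nat_lit 22) TL2 CL1 CL2 = true := by decide +kernel
def st2_22_0 : starCk (nat_lit 61) (nat_lit 4) (nat_lit 1) (nat_lit 2) (nat_lit 98) (nat_lit 279) (nat_lit 256) C2_22 = true := by decide +kernel
def sc2_22 : stCov (nat_lit 2) (nat_lit 279) (Rl.cons (nat_lit 279) (nat_lit 98) Rl.nil) C2_22 = true := by decide +kernel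
def wf2_23 : wfC (nat_lit 61) (nat_lit 4) C2_23 = true := by decide +kernel
def rf2_23 : rfCk (nat_lit 61) (nat_lit 2) (nat_lit 61) (nat_lit 4) (nat_lit 9) (nat_lit 0) (nat_lit 23) TL2 CL1 CL2 = true := by decide +kernel
def st2_23_0 : starCk (nat_lit 61) (nat_lit 4) (nat_lit 1) (nat_lit 2) (nat_lit 58) (nat_lit 239) (nat_lit 16) C2_23 = true := by decide +kernel
def sc2_23 : stCov (nat_lit 1) (nat_lit 239) (Rl.cons (nat_lit 239) (nat_lit 58) Rl.nil) C2_23 = true := by decide +kernel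
def wf2_24 : wfC (nat_lit 61) (nat_lit 4) C2_24 = true := by decide +kernel
def rf2_24 : rfCk (nat_lit 61) (nat_lit 2) (nat_lit 61) (nat_lit 4) (nat_lit 9) (nat_lit 0) (nat_lit 24) TL2 CL1 CL2 = true := by decide +kernel
def st2_24_0 : starCk (nat_lit 61) (nat_lit 4) (nat_lit 1) (nat_lit 2) (nat_lit 86) (nat_lit 131) (nat_lit 4096) C2_24 = true := by decide +kernel
def sc2_24 : stCov (nat_lit 3) (nat_lit 131) (Rl.cons (nat_lit 131) (nat_lit 86) Rl.nil) C2_24 = true := by decide +kernel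
def ti2_0 : tileCk (nat_lit 61) (nat_lit 4) (nat_lit 2) (nat_lit 1) (nat_lit 532) (nat_lit 11) (nat_lit 25) ZL2_0 CL2 = true := by decide +kernel
def zl2_0 : zlOK (nat_lit 532) ZL2_0 = true := by decide +kernel
def ti2_1 : tileCk (nat_lit 61) (nat_lit 4) (nat_lit 2) (nat_lit 1) (nat_lit 110) (nat_lit 11) (nat_lit 25) ZL2_1 CL2 = true := by decide +kernel
def zl2_1 : zlOK (nat_lit 110) ZL2_1 = true := by decide +kernel
def tc2_0 : tiCov (nat_lit 1) (nat_lit 0) ZZ2 C2_0 = true := by decide +kernel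
def tc2_1 : tiCov (nat_lit 1) (nat_lit 1) ZZ2 C2_1 = true := by decide +kernel
def tc2_2 : tiCov (nat_lit 1) (nat_lit 2) ZZ2 C2_2 = true := by decide +kernel
def tc2_3 : tiCov (nat_lit 1) (nat_lit 3) ZZ2 C2_3 = true := by decide +kernel
def tc2_4 : tiCov (nat_lit 1) (nat_lit 4) ZZ2 C2_4 = true := by decide +kernel
def tc2_5 : tiCov (nat_lit 1) (nat_lit 5) ZZ2 C2_5 = true := by decide +kernel
def tc2_6 : tiCov (nat_lit 1) (nat_lit 6) ZZ2 C2_6 = true := by decide +kernel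
def tc2_7 : tiCov (nat_lit 1) (nat_lit 7) ZZ2 C2_7 = true := by decide +kernel
def tc2_8 : tiCov (nat_lit 1) (nat_lit 8) ZZ2 C2_8 = true := by decide +kernel
def tc2_9 : tiCov (nat_lit 1) (nat_lit 9) ZZ2 C2_9 = true := by decide +kernel
def tc2_10 : tiCov (nat_lit 1) (nat_lit 10) ZZ2 C2_10 = true := by decide +kernel
def tc2_11 : tiCov (nat_lit 1) (nat_lit 11) ZZ2 C2_11 = true := by decide +kernel
def tc2_12 : tiCov (nat_lit 1) (nat_lit 12) ZZ2 C2_12 = true := by decide +kernel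
def tc2_13 : tiCov (nat_lit 1) (nat_lit 13) ZZ2 C2_13 = true := by decide +kernel
def tc2_14 : tiCov (nat_lit 1) (nat_lit 14) ZZ2 C2_14 = true := by decide +kernel
def tc2_18 : tiCov (nat_lit 1) (nat_lit 18) ZZ2 C2_18 = true := by decide +kernel
def tc2_19 : tiCov (nat_lit 1) (nat_lit 19) ZZ2 C2_19 = true := by decide +kernel
def tc2_20 : tiCov (nat_lit 1) (nat_lit 20) ZZ2 C2_20 = true := by decide +kernel
def tc2_21 : tiCov (nat_lit 1) (nat_lit 21) ZZ2 C2_21 = true := by decide +kernel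
def tc2_22 : tiCov (nat_lit 1) (nat_lit 22) ZZ2 C2_22 = true := by decide +kernel
def tc2_23 : tiCov (nat_lit 1) (nat_lit 23) ZZ2 C2_23 = true := by decide +kernel
def tc2_24 : tiCov (nat_lit 1) (nat_lit 24) ZZ2 C2_24 = true := by decide +kernel
def wf3_0 : wfC (nat_lit 61) (nat_lit 2) C3_0 = true := by decide +kernel
def rf3_0 : rfCk (nat_lit 61) (nat_lit 4) (nat_lit 61) (nat_lit 2) (nat_lit 4) (nat_lit 524288) (nat_lit 0) TL3 CL2 CL3 = true := by decide +kernel
def wf3_1 : wfC (nat_lit 61) (nat_lit 2) C3_1 = true := by decide +kernel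
def rf3_1 : rfCk (nat_lit 61) (nat_lit 4) (nat_lit 61) (nat_lit 2) (nat_lit 4) (nat_lit 524288) (nat_lit 1) TL3 CL2 CL3 = true := by decide +kernel
def wf3_2 : wfC (nat_lit 61) (nat_lit 2) C3_2 = true := by decide +kernel
def rf3_2 : rfCk (nat_lit 61) (nat_lit 4) (nat_lit 61) (nat_lit 2) (nat_lit 4) (nat_lit 524288) (nat_lit 2) TL3 CL2 CL3 = true := by decide +kernel
def wf3_3 : wfC (nat_lit 61) (nat_lit 2) C3_3 = true := by decide +kernel
def rf3_3 : rfCk (nat_lit 61) (nat_lit 4) (nat_lit 61) (nat_lit 2) (nat_lit 4) (nat_lit 524288) (nat_lit 3) TL3 CL2 CL3 = true := by decide +kernel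
def wf3_4 : wfC (nat_lit 61) (nat_lit 2) C3_4 = true := by decide +kernel
def rf3_4 : rfCk (nat_lit 61) (nat_lit 4) (nat_lit 61) (nat_lit 2) (nat_lit 4) (nat_lit 524288) (nat_lit 4) TL3 CL2 CL3 = true := by decide +kernel
def wf3_5 : wfC (nat_lit 61) (nat_lit 2) C3_5 = true := by decide +kernel

end Pool.Agent.NNr.R11_1_2_3
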