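import Pool.Agent.NNr.R11_1_2_3.D2
import Pool.Agent.NNr.R11_1_2_3.D3

set_option linter.all false
set_option maxRecDepth 1000000
namespace Pool.Agent.NNr.R11_1_2_3

open Pool.Agent.NNe

def rf3_5 : rfCk (nat_lit 61) (nat_lit 4) (nat_lit 61) (nat_lit 2) (nat_lit 4) (nat_lit 524288) (nat_lit 5) TL3 CL2 CL3 = true := by decide +kernel
def wf3_6 : wfC (nat_lit 61) (nat_lit 2) C3_6 = true := by decide +kernel
def rf3_6 : rfCk (nat_lit 61) (nat_lit 4) (nat_lit 61) (nat_lit 2) (nat_lit 4) (nat_lit 524288) (nat_lit 6) TL3 CL2 CL3 = true := by decide +kernel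
def wf3_7 : wfC (nat_lit 61) (nat_lit 2) C3_7 = true := by decide +kernel
def rf3_7 : rfCk (nat_lit 61) (nat_lit 4) (nat_lit 61) (nat_lit 2) (nat_lit 4) (nat_lit 524288) (nat_lit 7) TL3 CL2 CL3 = true := by decide +kernel
def wf3_8 : wfC (nat_lit 61) (nat_lit 2) C3_8 = true := by decide +kernel
def rf3_8 : rfCk (nat_lit 61) (nat_lit 4) (nat_lit 61) (nat_lit 2) (nat_lit 4) (nat_lit 524288) (nat_lit 8) TL3 CL2 CL3 = true := by decide +kernel
def wf3_9 : wfC (nat_lit 61) (nat_lit 2) C3_9 = true := by decide +kernel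
def rf3_9 : rfCk (nat_lit 61) (nat_lit 4) (nat_lit 61) (nat_lit 2) (nat_lit 4) (nat_lit 524288) (nat_lit 9) TL3 CL2 CL3 = true := by decide +kernel
def wf3_10 : wfC (nat_lit 61) (nat_lit 2) C3_10 = true := by decide +kernel
def rf3_10 : rfCk (nat_lit 61) (nat_lit 4) (nat_lit 61) (nat_lit 2) (nat_lit 4) (nat_lit 524288) (nat_lit 10) TL3 CL2 CL3 = true := by decide +kernel
def wf3_11 : wfC (nat_lit 61) (nat_lit 2) C3_11 = true := by decide +kernel
def rf3_11 : rfCk (nat_lit 61) (nat_lit 4) (nat_lit 61) (nat_lit 2) (nat_lit 4) (nat_lit 524288) (nat_lit 11) TL3 CL2 CL3 = true := by decide +kernel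
def wf3_12 : wfC (nat_lit 61) (nat_lit 2) C3_12 = true := by decide +kernel
def rf3_12 : rfCk (nat_lit 61) (nat_lit 4) (nat_lit 61) (nat_lit 2) (nat_lit 4) (nat_lit 524288) (nat_lit 12) TL3 CL2 CL3 = true := by decide +kernel
def wf3_13 : wfC (nat_lit 61) (nat_lit 2) C3_13 = true := by decide +kernel
def rf3_13 : rfCk (nat_lit 61) (nat_lit 4) (nat_lit 61) (nat_lit 2) (nat_lit 4) (nat_lit 524288) (nat_lit 13) TL3 CL2 CL3 = true := by decide +kernel
def wf3_18 : wfC (nat_lit 61) (nat_lit 2) C3_18 = true := by decide +kernel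
def rf3_18 : rfCk (nat_lit 61) (nat_lit 4) (nat_lit 61) (nat_lit 2) (nat_lit 4) (nat_lit 524288) (nat_lit 18) TL3 CL2 CL3 = true := by decide +kernel
def wf3_19 : wfC (nat_lit 61) (nat_lit 2) C3_19 = true := by decide +kernel
def rf3_19 : rfCk (nat_lit 61) (nat_lit 4) (nat_lit 61) (nat_lit 2) (nat_lit 4) (nat_lit 524288) (nat_lit 19) TL3 CL2 CL3 = true := by decide +kernel
def wf3_20 : wfC (nat_lit 61) (nat_lit 2) C3_20 = true := by decide +kernel
def rf3_20 : rfCk (nat_lit 61) (nat_lit 4) (nat_lit 61) (nat_lit 2) (nat_lit 4) (nat_lit 524288) (nat_lit 20) TL3 CL2 CL3 = true := by decide +kernel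
def wf3_21 : wfC (nat_lit 61) (nat_lit 2) C3_21 = true := by decide +kernel
def rf3_21 : rfCk (nat_lit 61) (nat_lit 4) (nat_lit 61) (nat_lit 2) (nat_lit 4) (nat_lit 524288) (nat_lit 21) TL3 CL2 CL3 = true := by decide +kernel
def wf3_22 : wfC (nat_lit 61) (nat_lit 2) C3_22 = true := by decide +kernel
def rf3_22 : rfCk (nat_lit 61) (nat_lit 4) (nat_lit 61) (nat_lit 2) (nat_lit 4) (nat_lit 524288) (nat_lit 22) TL3 CL2 CL3 = true := by decide +kernel
def wf3_23 : wfC (nat_lit 61) (nat_lit 2) C3_23 = true := by decide +kernel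
def rf3_23 : rfCk (nat_lit 61) (nat_lit 4) (nat_lit 61) (nat_lit 2) (nat_lit 4) (nat_lit 524288) (nat_lit 23) TL3 CL2 CL3 = true := by decide +kernel
def wf3_24 : wfC (nat_lit 61) (nat_lit 2) C3_24 = true := by decide +kernel
def rf3_24 : rfCk (nat_lit 61) (nat_lit 4) (nat_lit 61) (nat_lit 2) (nat_lit 4) (nat_lit 524288) (nat_lit 24) TL3 CL2 CL3 = true := by decide +kernel

end Pool.Agent.NNr.R11_1_2_3
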