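import Pool.Agent.NNr.R11_1_2_3.D3

set_option linter.all false
set_option maxRecDepth 1000000
namespace Pool.Agent.NNr.R11_1_2_3

open Pool.Agent.NNe

def ti3_0 : tileCk (nat_lit 61) (nat_lit 2) (nat_lit 1) (nat_lit 1) (nat_lit 503) (nat_lit 11) (nat_lit 25) ZL3_0 CL3 = true := by decide +kernel
def zl3_0 : zlOK (nat_lit 503) ZL3_0 = true := by decide +kernel
def ti3_1 : tileCk (nat_lit 61) (nat_lit 2) (nat_lit 1) (nat_lit 1) (nat_lit 86) (nat_lit 11) (nat_lit 25) ZL3_1 CL3 = true := by decide +kernel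
def zl3_1 : zlOK (nat_lit 86) ZL3_1 = true := by decide +kernel
def ti3_2 : tileCk (nat_lit 61) (nat_lit 2) (nat_lit 1) (nat_lit 1) (nat_lit 245) (nat_lit 11) (nat_lit 25) ZL3_2 CL3 = true := by decide +kernel
def zl3_2 : zlOK (nat_lit 245) ZL3_2 = true := by decide +kernel
def tc3_0 : tiCov (nat_lit 1) (nat_lit 0) ZZ3 C3_0 = true := by decide +kernel
def tc3_1 : tiCov (nat_lit 1) (nat_lit 1) ZZ3 C3_1 = true := by decide +kernel
def tc3_2 : tiCov (nat_lit 1) (nat_lit 2) ZZ3 C3_2 = true := by decide +kernel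

end Pool.Agent.NNr.R11_1_2_3
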