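import Pool.Agent.NNr.R11_1_2_3.D3
import Pool.Agent.NNr.R11_1_2_3.D4

set_option linter.all false
set_option maxRecDepth 1000000
namespace Pool.Agent.NNr.R11_1_2_3

open Pool.Agent.NNe

def tc3_3 : tiCov (nat_lit 1) (nat_lit 3) ZZ3 C3_3 = true := by decide +kernel
def tc3_4 : tiCov (nat_lit 1) (nat_lit 4) ZZ3 C3_4 = true := by decide +kernel
def tc3_5 : tiCov (nat_lit 1) (nat_lit 5) ZZ3 C3_5 = true := by decide +kernel
def tc3_6 : tiCov (nat_lit 1) (nat_lit 6) ZZ3 C3_6 = true := by decide +kernel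
def tc3_7 : tiCov (nat_lit 1) (nat_lit 7) ZZ3 C3_7 = true := by decide +kernel
def tc3_8 : tiCov (nat_lit 1) (nat_lit 8) ZZ3 C3_8 = true := by decide +kernel
def tc3_9 : tiCov (nat_lit 1) (nat_lit 9) ZZ3 C3_9 = true := by decide +kernel
def tc3_10 : tiCov (nat_lit 1) (nat_lit 10) ZZ3 C3_10 = true := by decide +kernel
def tc3_11 : tiCov (nat_lit 1) (nat_lit 11) ZZ3 C3_11 = true := by decide +kernel
def tc3_12 : tiCov (nat_lit 1) (nat_lit 12) ZZ3 C3_12 = true := by decide +kernel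
def tc3_13 : tiCov (nat_lit 1) (nat_lit 13) ZZ3 C3_13 = true := by decide +kernel
def tc3_18 : tiCov (nat_lit 1) (nat_lit 18) ZZ3 C3_18 = true := by decide +kernel
def tc3_19 : tiCov (nat_lit 1) (nat_lit 19) ZZ3 C3_19 = true := by decide +kernel
def tc3_20 : tiCov (nat_lit 1) (nat_lit 20) ZZ3 C3_20 = true := by decide +kernel
def tc3_21 : tiCov (nat_lit 1) (nat_lit 21) ZZ3 C3_21 = true := by decide +kernel
def tc3_22 : tiCov (nat_lit 1) (nat_lit 22) ZZ3 C3_22 = true := by decide +kernel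
def tc3_23 : tiCov (nat_lit 1) (nat_lit 23) ZZ3 C3_23 = true := by decide +kernel
def tc3_24 : tiCov (nat_lit 1) (nat_lit 24) ZZ3 C3_24 = true := by decide +kernel
def wf4_0 : wfC (nat_lit 61) (nat_lit 4) C4_0 = true := by decide +kernel
def rf4_0 : rfCk (nat_lit 61) (nat_lit 2) (nat_lit 61) (nat_lit 4) (nat_lit 9) (nat_lit 0) (nat_lit 0) TL4 CL3 CL4 = true := by decide +kernel
def st4_0_0 : starCk (nat_lit 61) (nat_lit 4) (nat_lit 1) (nat_lit 2) (nat_lit 28) (nat_lit 0) (nat_lit 256) C4_0 = true := by decide +kernel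
def sc4_0 : stCov (nat_lit 2) (nat_lit 0) (Rl.cons (nat_lit 0) (nat_lit 28) Rl.nil) C4_0 = true := by decide +kernel
def wf4_1 : wfC (nat_lit 61) (nat_lit 4) C4_1 = true := by decide +kernel
def rf4_1 : rfCk (nat_lit 61) (nat_lit 2) (nat_lit 61) (nat_lit 4) (nat_lit 9) (nat_lit 0) (nat_lit 1) TL4 CL3 CL4 = true := by decide +kernel
def st4_1_0 : starCk (nat_lit 61) (nat_lit 4) (nat_lit 1) (nat_lit 2) (nat_lit 33) (nat_lit 56) (nat_lit 256) C4_1 = true := by decide +kernel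
def sc4_1 : stCov (nat_lit 2) (nat_lit 56) (Rl.cons (nat_lit 56) (nat_lit 33) Rl.nil) C4_1 = true := by decide +kernel
def wf4_2 : wfC (nat_lit 61) (nat_lit 4) C4_2 = true := by decide +kernel
def rf4_2 : rfCk (nat_lit 61) (nat_lit 2) (nat_lit 61) (nat_lit 4) (nat_lit 9) (nat_lit 0) (nat_lit 2) TL4 CL3 CL4 = true := by decide +kernel
def st4_2_0 : starCk (nat_lit 61) (nat_lit 4) (nat_lit 1) (nat_lit 2) (nat_lit 15) (nat_lit 0) (nat_lit 16) C4_2 = true := by decide +kernel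
def sc4_2 : stCov (nat_lit 1) (nat_lit 0) (Rl.cons (nat_lit 0) (nat_lit 15) Rl.nil) C4_2 = true := by decide +kernel
def wf4_3 : wfC (nat_lit 61) (nat_lit 4) C4_3 = true := by decide +kernel
def rf4_3 : rfCk (nat_lit 61) (nat_lit 2) (nat_lit 61) (nat_lit 4) (nat_lit 9) (nat_lit 0) (nat_lit 3) TL4 CL3 CL4 = true := by decide +kernel
def st4_3_0 : starCk (nat_lit 61) (nat_lit 4) (nat_lit 1) (nat_lit 2) (nat_lit 29) (nat_lit 127) (nat_lit 16) C4_3 = true := by decide +kernel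
def sc4_3 : stCov (nat_lit 1) (nat_lit 127) (Rl.cons (nat_lit 127) (nat_lit 29) Rl.nil) C4_3 = true := by decide +kernel
def wf4_4 : wfC (nat_lit 61) (nat_lit 4) C4_4 = true := by decide +kernel
def rf4_4 : rfCk (nat_lit 61) (nat_lit 2) (nat_lit 61) (nat_lit 4) (nat_lit 9) (nat_lit 0) (nat_lit 4) TL4 CL3 CL4 = true := by decide +kernel
def st4_4_0 : starCk (nat_lit 61) (nat_lit 4) (nat_lit 1) (nat_lit 2) (nat_lit 26) (nat_lit 200) (nat_lit 256) C4_4 = true := by decide +kernel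
def sc4_4 : stCov (nat_lit 2) (nat_lit 200) (Rl.cons (nat_lit 200) (nat_lit 26) Rl.nil) C4_4 = true := by decide +kernel
def wf4_5 : wfC (nat_lit 61) (nat_lit 4) C4_5 = true := by decide +kernel
def rf4_5 : rfCk (nat_lit 61) (nat_lit 2) (nat_lit 61) (nat_lit 4) (nat_lit 9) (nat_lit 0) (nat_lit 5) TL4 CL3 CL4 = true := by decide +kernel
def st4_5_0 : starCk (nat_lit 61) (nat_lit 4) (nat_lit 1) (nat_lit 2) (nat_lit 49) (nat_lit 185) (nat_lit 16) C4_5 = true := by decide +kernel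
def sc4_5 : stCov (nat_lit 1) (nat_lit 185) (Rl.cons (nat_lit 185) (nat_lit 49) Rl.nil) C4_5 = true := by decide +kernel
def wf4_6 : wfC (nat_lit 61) (nat_lit 4) C4_6 = true := by decide +kernel
def rf4_6 : rfCk (nat_lit 61) (nat_lit 2) (nat_lit 61) (nat_lit 4) (nat_lit 9) (nat_lit 0) (nat_lit 6) TL4 CL3 CL4 = true := by decide +kernel
def st4_6_0 : starCk (nat_lit 61) (nat_lit 4) (nat_lit 1) (nat_lit 2) (nat_lit 61) (nat_lit 30) (nat_lit 1) C4_6 = true := by decide +kernel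
def sc4_6 : stCov (nat_lit 0) (nat_lit 30) (Rl.cons (nat_lit 30) (nat_lit 61) Rl.nil) C4_6 = true := by decide +kernel
def wf4_7 : wfC (nat_lit 61) (nat_lit 4) C4_7 = true := by decide +kernel
def rf4_7 : rfCk (nat_lit 61) (nat_lit 2) (nat_lit 61) (nat_lit 4) (nat_lit 9) (nat_lit 0) (nat_lit 7) TL4 CL3 CL4 = true := by decide +kernel
def st4_7_0 : starCk (nat_lit 61) (nat_lit 4) (nat_lit 1) (nat_lit 2) (nat_lit 39) (nat_lit 123) (nat_lit 256) C4_7 = true := by decide +kernel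
def sc4_7 : stCov (nat_lit 2) (nat_lit 123) (Rl.cons (nat_lit 123) (nat_lit 39) Rl.nil) C4_7 = true := by decide +kernel
def wf4_8 : wfC (nat_lit 61) (nat_lit 4) C4_8 = true := by decide +kernel
def rf4_8 : rfCk (nat_lit 61) (nat_lit 2) (nat_lit 61) (nat_lit 4) (nat_lit 9) (nat_lit 0) (nat_lit 8) TL4 CL3 CL4 = true := by decide +kernel
def st4_8_0 : starCk (nat_lit 61) (nat_lit 4) (nat_lit 1) (nat_lit 2) (nat_lit 24) (nat_lit 226) (nat_lit 256) C4_8 = true := by decide +kernel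
def sc4_8 : stCov (nat_lit 2) (nat_lit 226) (Rl.cons (nat_lit 226) (nat_lit 24) Rl.nil) C4_8 = true := by decide +kernel
def wf4_9 : wfC (nat_lit 61) (nat_lit 4) C4_9 = true := by decide +kernel
def rf4_9 : rfCk (nat_lit 61) (nat_lit 2) (nat_lit 61) (nat_lit 4) (nat_lit 9) (nat_lit 0) (nat_lit 9) TL4 CL3 CL4 = true := by decide +kernel
def st4_9_0 : starCk (nat_lit 61) (nat_lit 4) (nat_lit 1) (nat_lit 2) (nat_lit 21) (nat_lit 145) (nat_lit 16) C4_9 = true := by decide +kernel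
def sc4_9 : stCov (nat_lit 1) (nat_lit 145) (Rl.cons (nat_lit 145) (nat_lit 21) Rl.nil) C4_9 = true := by decide +kernel
def wf4_10 : wfC (nat_lit 61) (nat_lit 4) C4_10 = true := by decide +kernel
def rf4_10 : rfCk (nat_lit 61) (nat_lit 2) (nat_lit 61) (nat_lit 4) (nat_lit 9) (nat_lit 0) (nat_lit 10) TL4 CL3 CL4 = true := by decide +kernel
def st4_10_0 : starCk (nat_lit 61) (nat_lit 4) (nat_lit 1) (nat_lit 2) (nat_lit 21) (nat_lit 68) (nat_lit 16) C4_10 = true := by decide +kernel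
def sc4_10 : stCov (nat_lit 1) (nat_lit 68) (Rl.cons (nat_lit 68) (nat_lit 21) Rl.nil) C4_10 = true := by decide +kernel
def wf4_11 : wfC (nat_lit 61) (nat_lit 4) C4_11 = true := by decide +kernel
def rf4_11 : rfCk (nat_lit 61) (nat_lit 2) (nat_lit 61) (nat_lit 4) (nat_lit 9) (nat_lit 0) (nat_lit 11) TL4 CL3 CL4 = true := by decide +kernel
def st4_11_0 : starCk (nat_lit 61) (nat_lit 4) (nat_lit 1) (nat_lit 2) (nat_lit 12) (nat_lit 132) (nat_lit 256) C4_11 = true := by decide +kernel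
def sc4_11 : stCov (nat_lit 2) (nat_lit 132) (Rl.cons (nat_lit 132) (nat_lit 12) Rl.nil) C4_11 = true := by decide +kernel
def wf4_12 : wfC (nat_lit 61) (nat_lit 4) C4_12 = true := by decide +kernel
def rf4_12 : rfCk (nat_lit 61) (nat_lit 2) (nat_lit 61) (nat_lit 4) (nat_lit 9) (nat_lit 0) (nat_lit 12) TL4 CL3 CL4 = true := by decide +kernel
def st4_12_0 : starCk (nat_lit 61) (nat_lit 4) (nat_lit 1) (nat_lit 2) (nat_lit 13) (nat_lit 66) (nat_lit 256) C4_12 = true := by decide +kernel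
def sc4_12 : stCov (nat_lit 2) (nat_lit 66) (Rl.cons (nat_lit 66) (nat_lit 13) Rl.nil) C4_12 = true := by decide +kernel
def wf4_13 : wfC (nat_lit 61) (nat_lit 4) C4_13 = true := by decide +kernel
def rf4_13 : rfCk (nat_lit 61) (nat_lit 2) (nat_lit 61) (nat_lit 4) (nat_lit 9) (nat_lit 0) (nat_lit 13) TL4 CL3 CL4 = true := by decide +kernel
def sc4_13 : stCov (nat_lit 1) (nat_lit 0) Rl.nil C4_13 = true := by decide +kernel
def wf4_18 : wfC (nat_lit 61) (nat_lit 4) C4_18 = true := by decide +kernel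
def rf4_18 : rfCk (nat_lit 61) (nat_lit 2) (nat_lit 61) (nat_lit 4) (nat_lit 9) (nat_lit 0) (nat_lit 18) TL4 CL3 CL4 = true := by decide +kernel
def st4_18_0 : starCk (nat_lit 61) (nat_lit 4) (nat_lit 1) (nat_lit 2) (nat_lit 376) (nat_lit 524) (nat_lit 4096) C4_18 = true := by decide +kernel
def sc4_18 : stCov (nat_lit 3) (nat_lit 524) (Rl.cons (nat_lit 524) (nat_lit 376) Rl.nil) C4_18 = true := by decide +kernel
def wf4_19 : wfC (nat_lit 61) (nat_lit 4) C4_19 = true := by decide +kernel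
def rf4_19 : rfCk (nat_lit 61) (nat_lit 2) (nat_lit 61) (nat_lit 4) (nat_lit 9) (nat_lit 0) (nat_lit 19) TL4 CL3 CL4 = true := by decide +kernel
def st4_19_0 : starCk (nat_lit 61) (nat_lit 4) (nat_lit 1) (nat_lit 2) (nat_lit 180) (nat_lit 250) (nat_lit 4096) C4_19 = true := by decide +kernel
def sc4_19 : stCov (nat_lit 3) (nat_lit 250) (Rl.cons (nat_lit 250) (nat_lit 180) Rl.nil) C4_19 = true := by decide +kernel
def wf4_20 : wfC (nat_lit 61) (nat_lit 4) C4_20 = true := by decide +kernel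
def rf4_20 : rfCk (nat_lit 61) (nat_lit 2) (nat_lit 61) (nat_lit 4) (nat_lit 9) (nat_lit 0) (nat_lit 20) TL4 CL3 CL4 = true := by decide +kernel
def st4_20_0 : starCk (nat_lit 61) (nat_lit 4) (nat_lit 1) (nat_lit 2) (nat_lit 100) (nat_lit 473) (nat_lit 16) C4_20 = true := by decide +kernel
def sc4_20 : stCov (nat_lit 1) (nat_lit 473) (Rl.cons (nat_lit 473) (nat_lit 100) Rl.nil) C4_20 = true := by decide +kernel
def wf4_21 : wfC (nat_lit 61) (nat_lit 4) C4_21 = true := by decide +kernel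

end Pool.Agent.NNr.R11_1_2_3
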