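import Pool.Agent.NNr.R11_1_2_3.D3
import Pool.Agent.NNr.R11_1_2_3.D4

set_option linter.all false
set_option maxRecDepth 1000000
namespace Pool.Agent.NNr.R11_1_2_3

open Pool.Agent.NNe

def rf4_21 : rfCk (nat_lit 61) (nat_lit 2) (nat_lit 61) (nat_lit 4) (nat_lit 9) (nat_lit 0) (nat_lit 21) TL4 CL3 CL4 = true := by decide +kernel
def st4_21_0 : starCk (nat_lit 61) (nat_lit 4) (nat_lit 1) (nat_lit 2) (nat_lit 102) (nat_lit 423) (nat_lit 16) C4_21 = true := by decide +kernel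
def sc4_21 : stCov (nat_lit 1) (nat_lit 423) (Rl.cons (nat_lit 423) (nat_lit 102) Rl.nil) C4_21 = true := by decide +kernel
def wf4_22 : wfC (nat_lit 61) (nat_lit 4) C4_22 = true := by decide +kernel
def rf4_22 : rfCk (nat_lit 61) (nat_lit 2) (nat_lit 61) (nat_lit 4) (nat_lit 9) (nat_lit 0) (nat_lit 22) TL4 CL3 CL4 = true := by decide +kernel
def st4_22_0 : starCk (nat_lit 61) (nat_lit 4) (nat_lit 1) (nat_lit 2) (nat_lit 131) (nat_lit 426) (nat_lit 256) C4_22 = true := by decide +kernel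
def sc4_22 : stCov (nat_lit 2) (nat_lit 426) (Rl.cons (nat_lit 426) (nat_lit 131) Rl.nil) C4_22 = true := by decide +kernel
def wf4_23 : wfC (nat_lit 61) (nat_lit 4) C4_23 = true := by decide +kernel
def rf4_23 : rfCk (nat_lit 61) (nat_lit 2) (nat_lit 61) (nat_lit 4) (nat_lit 9) (nat_lit 0) (nat_lit 23) TL4 CL3 CL4 = true := by decide +kernel
def st4_23_0 : starCk (nat_lit 61) (nat_lit 4) (nat_lit 1) (nat_lit 2) (nat_lit 58) (nat_lit 366) (nat_lit 16) C4_23 = true := by decide +kernel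
def sc4_23 : stCov (nat_lit 1) (nat_lit 366) (Rl.cons (nat_lit 366) (nat_lit 58) Rl.nil) C4_23 = true := by decide +kernel
def wf4_24 : wfC (nat_lit 61) (nat_lit 4) C4_24 = true := by decide +kernel
def rf4_24 : rfCk (nat_lit 61) (nat_lit 2) (nat_lit 61) (nat_lit 4) (nat_lit 9) (nat_lit 0) (nat_lit 24) TL4 CL3 CL4 = true := by decide +kernel
def st4_24_0 : starCk (nat_lit 61) (nat_lit 4) (nat_lit 1) (nat_lit 2) (nat_lit 121) (nat_lit 182) (nat_lit 4096) C4_24 = true := by decide +kernel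
def sc4_24 : stCov (nat_lit 3) (nat_lit 182) (Rl.cons (nat_lit 182) (nat_lit 121) Rl.nil) C4_24 = true := by decide +kernel
def ti4_0 : tileCk (nat_lit 61) (nat_lit 4) (nat_lit 2) (nat_lit 1) (nat_lit 401) (nat_lit 11) (nat_lit 25) ZL4_0 CL4 = true := by decide +kernel
def zl4_0 : zlOK (nat_lit 401) ZL4_0 = true := by decide +kernel
def ti4_1 : tileCk (nat_lit 61) (nat_lit 4) (nat_lit 2) (nat_lit 1) (nat_lit 72) (nat_lit 11) (nat_lit 25) ZL4_1 CL4 = true := by decide +kernel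
def zl4_1 : zlOK (nat_lit 72) ZL4_1 = true := by decide +kernel

end Pool.Agent.NNr.R11_1_2_3
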