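import Pool.Agent.NNr.R11_1_2_3.D4
import Pool.Agent.NNr.R11_1_2_3.D5

set_option linter.all false
set_option maxRecDepth 1000000
namespace Pool.Agent.NNr.R11_1_2_3

open Pool.Agent.NNe

def ti4_2 : tileCk (nat_lit 61) (nat_lit 4) (nat_lit 2) (nat_lit 1) (nat_lit 172) (nat_lit 11) (nat_lit 25) ZL4_2 CL4 = true := by decide +kernel
def zl4_2 : zlOK (nat_lit 172) ZL4_2 = true := by decide +kernel
def tc4_0 : tiCov (nat_lit 1) (nat_lit 0) ZZ4 C4_0 = true := by decide +kernel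
def tc4_1 : tiCov (nat_lit 1) (nat_lit 1) ZZ4 C4_1 = true := by decide +kernel
def tc4_2 : tiCov (nat_lit 1) (nat_lit 2) ZZ4 C4_2 = true := by decide +kernel
def tc4_3 : tiCov (nat_lit 1) (nat_lit 3) ZZ4 C4_3 = true := by decide +kernel
def tc4_4 : tiCov (nat_lit 1) (nat_lit 4) ZZ4 C4_4 = true := by decide +kernel
def tc4_5 : tiCov (nat_lit 1) (nat_lit 5) ZZ4 C4_5 = true := by decide +kernel
def tc4_6 : tiCov (nat_lit 1) (nat_lit 6) ZZ4 C4_6 = true := by decide +kernel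
def tc4_7 : tiCov (nat_lit 1) (nat_lit 7) ZZ4 C4_7 = true := by decide +kernel
def tc4_8 : tiCov (nat_lit 1) (nat_lit 8) ZZ4 C4_8 = true := by decide +kernel
def tc4_9 : tiCov (nat_lit 1) (nat_lit 9) ZZ4 C4_9 = true := by decide +kernel
def tc4_10 : tiCov (nat_lit 1) (nat_lit 10) ZZ4 C4_10 = true := by decide +kernel
def tc4_11 : tiCov (nat_lit 1) (nat_lit 11) ZZ4 C4_11 = true := by decide +kernel
def tc4_12 : tiCov (nat_lit 1) (nat_lit 12) ZZ4 C4_12 = true := by decide +kernel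
def tc4_13 : tiCov (nat_lit 1) (nat_lit 13) ZZ4 C4_13 = true := by decide +kernel
def tc4_18 : tiCov (nat_lit 1) (nat_lit 18) ZZ4 C4_18 = true := by decide +kernel
def tc4_19 : tiCov (nat_lit 1) (nat_lit 19) ZZ4 C4_19 = true := by decide +kernel
def tc4_20 : tiCov (nat_lit 1) (nat_lit 20) ZZ4 C4_20 = true := by decide +kernel
def tc4_21 : tiCov (nat_lit 1) (nat_lit 21) ZZ4 C4_21 = true := by decide +kernel
def tc4_22 : tiCov (nat_lit 1) (nat_lit 22) ZZ4 C4_22 = true := by decide +kernel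
def tc4_23 : tiCov (nat_lit 1) (nat_lit 23) ZZ4 C4_23 = true := by decide +kernel
def tc4_24 : tiCov (nat_lit 1) (nat_lit 24) ZZ4 C4_24 = true := by decide +kernel
def wf5_0 : wfC (nat_lit 61) (nat_lit 2) C5_0 = true := by decide +kernel
def rf5_0 : rfCk (nat_lit 61) (nat_lit 4) (nat_lit 61) (nat_lit 2) (nat_lit 0) (nat_lit 1048576) (nat_lit 0) TL5 CL4 CL5 = true := by decide +kernel
def wf5_1 : wfC (nat_lit 61) (nat_lit 2) C5_1 = true := by decide +kernel
def rf5_1 : rfCk (nat_lit 61) (nat_lit 4) (nat_lit 61) (nat_lit 2) (nat_lit 0) (nat_lit 1048576) (nat_lit 1) TL5 CL4 CL5 = true := by decide +kernel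
def wf5_2 : wfC (nat_lit 61) (nat_lit 2) C5_2 = true := by decide +kernel
def rf5_2 : rfCk (nat_lit 61) (nat_lit 4) (nat_lit 61) (nat_lit 2) (nat_lit 0) (nat_lit 1048576) (nat_lit 2) TL5 CL4 CL5 = true := by decide +kernel
def wf5_3 : wfC (nat_lit 61) (nat_lit 2) C5_3 = true := by decide +kernel
def rf5_3 : rfCk (nat_lit 61) (nat_lit 4) (nat_lit 61) (nat_lit 2) (nat_lit 0) (nat_lit 1048576) (nat_lit 3) TL5 CL4 CL5 = true := by decide +kernel
def wf5_4 : wfC (nat_lit 61) (nat_lit 2) C5_4 = true := by decide +kernel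
def rf5_4 : rfCk (nat_lit 61) (nat_lit 4) (nat_lit 61) (nat_lit 2) (nat_lit 0) (nat_lit 1048576) (nat_lit 4) TL5 CL4 CL5 = true := by decide +kernel
def wf5_5 : wfC (nat_lit 61) (nat_lit 2) C5_5 = true := by decide +kernel
def rf5_5 : rfCk (nat_lit 61) (nat_lit 4) (nat_lit 61) (nat_lit 2) (nat_lit 0) (nat_lit 1048576) (nat_lit 5) TL5 CL4 CL5 = true := by decide +kernel
def wf5_6 : wfC (nat_lit 61) (nat_lit 2) C5_6 = true := by decide +kernel
def rf5_6 : rfCk (nat_lit 61) (nat_lit 4) (nat_lit 61) (nat_lit 2) (nat_lit 0) (nat_lit 1048576) (nat_lit 6) TL5 CL4 CL5 = true := by decide +kernel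
def wf5_7 : wfC (nat_lit 61) (nat_lit 2) C5_7 = true := by decide +kernel
def rf5_7 : rfCk (nat_lit 61) (nat_lit 4) (nat_lit 61) (nat_lit 2) (nat_lit 0) (nat_lit 1048576) (nat_lit 7) TL5 CL4 CL5 = true := by decide +kernel
def wf5_8 : wfC (nat_lit 61) (nat_lit 2) C5_8 = true := by decide +kernel
def rf5_8 : rfCk (nat_lit 61) (nat_lit 4) (nat_lit 61) (nat_lit 2) (nat_lit 0) (nat_lit 1048576) (nat_lit 8) TL5 CL4 CL5 = true := by decide +kernel
def wf5_9 : wfC (nat_lit 61) (nat_lit 2) C5_9 = true := by decide +kernel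
def rf5_9 : rfCk (nat_lit 61) (nat_lit 4) (nat_lit 61) (nat_lit 2) (nat_lit 0) (nat_lit 1048576) (nat_lit 9) TL5 CL4 CL5 = true := by decide +kernel
def wf5_10 : wfC (nat_lit 61) (nat_lit 2) C5_10 = true := by decide +kernel
def rf5_10 : rfCk (nat_lit 61) (nat_lit 4) (nat_lit 61) (nat_lit 2) (nat_lit 0) (nat_lit 1048576) (nat_lit 10) TL5 CL4 CL5 = true := by decide +kernel
def wf5_11 : wfC (nat_lit 61) (nat_lit 2) C5_11 = true := by decide +kernel
def rf5_11 : rfCk (nat_lit 61) (nat_lit 4) (nat_lit 61) (nat_lit 2) (nat_lit 0) (nat_lit 1048576) (nat_lit 11) TL5 CL4 CL5 = true := by decide +kernel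
def wf5_12 : wfC (nat_lit 61) (nat_lit 2) C5_12 = true := by decide +kernel
def rf5_12 : rfCk (nat_lit 61) (nat_lit 4) (nat_lit 61) (nat_lit 2) (nat_lit 0) (nat_lit 1048576) (nat_lit 12) TL5 CL4 CL5 = true := by decide +kernel
def wf5_18 : wfC (nat_lit 61) (nat_lit 2) C5_18 = true := by decide +kernel
def rf5_18 : rfCk (nat_lit 61) (nat_lit 4) (nat_lit 61) (nat_lit 2) (nat_lit 0) (nat_lit 1048576) (nat_lit 18) TL5 CL4 CL5 = true := by decide +kernel
def wf5_19 : wfC (nat_lit 61) (nat_lit 2) C5_19 = true := by decide +kernel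
def rf5_19 : rfCk (nat_lit 61) (nat_lit 4) (nat_lit 61) (nat_lit 2) (nat_lit 0) (nat_lit 1048576) (nat_lit 19) TL5 CL4 CL5 = true := by decide +kernel
def wf5_20 : wfC (nat_lit 61) (nat_lit 2) C5_20 = true := by decide +kernel

end Pool.Agent.NNr.R11_1_2_3
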