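import Pool.Agent.NNr.R11_1_2_3.D7
import Pool.Agent.NNr.R11_1_2_3.D8

set_option linter.all false
set_option maxRecDepth 1000000
namespace Pool.Agent.NNr.R11_1_2_3

open Pool.Agent.NNe

def rf8_4 : rfCk (nat_lit 61) (nat_lit 3) (nat_lit 61) (nat_lit 15) (nat_lit 9) (nat_lit 0) (nat_lit 4) TL8 CL7 CL8 = true := by decide +kernel
def st8_4_0 : starCk (nat_lit 61) (nat_lit 15) (nat_lit 1) (nat_lit 7) (nat_lit 72) (nat_lit 348) (nat_lit 256) C8_4 = true := by decide +kernel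
def sc8_4 : stCov (nat_lit 2) (nat_lit 348) (Rl.cons (nat_lit 348) (nat_lit 72) Rl.nil) C8_4 = true := by decide +kernel
def wf8_5 : wfC (nat_lit 61) (nat_lit 15) C8_5 = true := by decide +kernel
def rf8_5 : rfCk (nat_lit 61) (nat_lit 3) (nat_lit 61) (nat_lit 15) (nat_lit 9) (nat_lit 0) (nat_lit 5) TL8 CL7 CL8 = true := by decide +kernel
def st8_5_0 : starCk (nat_lit 61) (nat_lit 15) (nat_lit 1) (nat_lit 7) (nat_lit 79) (nat_lit 211) (nat_lit 16) C8_5 = true := by decide +kernel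
def sc8_5 : stCov (nat_lit 1) (nat_lit 211) (Rl.cons (nat_lit 211) (nat_lit 79) Rl.nil) C8_5 = true := by decide +kernel
def wf8_6 : wfC (nat_lit 61) (nat_lit 15) C8_6 = true := by decide +kernel
def rf8_6 : rfCk (nat_lit 61) (nat_lit 3) (nat_lit 61) (nat_lit 15) (nat_lit 9) (nat_lit 0) (nat_lit 6) TL8 CL7 CL8 = true := by decide +kernel
def st8_6_0 : starCk (nat_lit 61) (nat_lit 15) (nat_lit 1) (nat_lit 7) (nat_lit 62) (nat_lit 32) (nat_lit 1) C8_6 = true := by decide +kernel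
def sc8_6 : stCov (nat_lit 0) (nat_lit 32) (Rl.cons (nat_lit 32) (nat_lit 62) Rl.nil) C8_6 = true := by decide +kernel
def wf8_7 : wfC (nat_lit 61) (nat_lit 15) C8_7 = true := by decide +kernel
def rf8_7 : rfCk (nat_lit 61) (nat_lit 3) (nat_lit 61) (nat_lit 15) (nat_lit 9) (nat_lit 0) (nat_lit 7) TL8 CL7 CL8 = true := by decide +kernel
def st8_7_0 : starCk (nat_lit 61) (nat_lit 15) (nat_lit 1) (nat_lit 7) (nat_lit 82) (nat_lit 35) (nat_lit 1) C8_7 = true := by decide +kernel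
def sc8_7 : stCov (nat_lit 0) (nat_lit 35) (Rl.cons (nat_lit 35) (nat_lit 82) Rl.nil) C8_7 = true := by decide +kernel
def wf8_8 : wfC (nat_lit 61) (nat_lit 15) C8_8 = true := by decide +kernel
def rf8_8 : rfCk (nat_lit 61) (nat_lit 3) (nat_lit 61) (nat_lit 15) (nat_lit 9) (nat_lit 0) (nat_lit 8) TL8 CL7 CL8 = true := by decide +kernel
def st8_8_0 : starCk (nat_lit 61) (nat_lit 15) (nat_lit 1) (nat_lit 7) (nat_lit 73) (nat_lit 352) (nat_lit 256) C8_8 = true := by decide +kernel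
def sc8_8 : stCov (nat_lit 2) (nat_lit 352) (Rl.cons (nat_lit 352) (nat_lit 73) Rl.nil) C8_8 = true := by decide +kernel
def wf8_9 : wfC (nat_lit 61) (nat_lit 15) C8_9 = true := by decide +kernel
def rf8_9 : rfCk (nat_lit 61) (nat_lit 3) (nat_lit 61) (nat_lit 15) (nat_lit 9) (nat_lit 0) (nat_lit 9) TL8 CL7 CL8 = true := by decide +kernel
def st8_9_0 : starCk (nat_lit 61) (nat_lit 15) (nat_lit 1) (nat_lit 7) (nat_lit 26) (nat_lit 163) (nat_lit 16) C8_9 = true := by decide +kernel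
def sc8_9 : stCov (nat_lit 1) (nat_lit 163) (Rl.cons (nat_lit 163) (nat_lit 26) Rl.nil) C8_9 = true := by decide +kernel
def wf8_10 : wfC (nat_lit 61) (nat_lit 15) C8_10 = true := by decide +kernel
def rf8_10 : rfCk (nat_lit 61) (nat_lit 3) (nat_lit 61) (nat_lit 15) (nat_lit 9) (nat_lit 0) (nat_lit 10) TL8 CL7 CL8 = true := by decide +kernel
def st8_10_0 : starCk (nat_lit 61) (nat_lit 15) (nat_lit 1) (nat_lit 7) (nat_lit 31) (nat_lit 70) (nat_lit 16) C8_10 = true := by decide +kernel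
def sc8_10 : stCov (nat_lit 1) (nat_lit 70) (Rl.cons (nat_lit 70) (nat_lit 31) Rl.nil) C8_10 = true := by decide +kernel
def wf8_11 : wfC (nat_lit 61) (nat_lit 15) C8_11 = true := by decide +kernel
def rf8_11 : rfCk (nat_lit 61) (nat_lit 3) (nat_lit 61) (nat_lit 15) (nat_lit 9) (nat_lit 0) (nat_lit 11) TL8 CL7 CL8 = true := by decide +kernel
def st8_11_0 : starCk (nat_lit 61) (nat_lit 15) (nat_lit 1) (nat_lit 7) (nat_lit 27) (nat_lit 168) (nat_lit 256) C8_11 = true := by decide +kernel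
def sc8_11 : stCov (nat_lit 2) (nat_lit 168) (Rl.cons (nat_lit 168) (nat_lit 27) Rl.nil) C8_11 = true := by decide +kernel
def wf8_12 : wfC (nat_lit 61) (nat_lit 15) C8_12 = true := by decide +kernel
def rf8_12 : rfCk (nat_lit 61) (nat_lit 3) (nat_lit 61) (nat_lit 15) (nat_lit 9) (nat_lit 0) (nat_lit 12) TL8 CL7 CL8 = true := by decide +kernel
def st8_12_0 : starCk (nat_lit 61) (nat_lit 15) (nat_lit 1) (nat_lit 7) (nat_lit 21) (nat_lit 71) (nat_lit 256) C8_12 = true := by decide +kernel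
def sc8_12 : stCov (nat_lit 2) (nat_lit 71) (Rl.cons (nat_lit 71) (nat_lit 21) Rl.nil) C8_12 = true := by decide +kernel
def wf8_18 : wfC (nat_lit 61) (nat_lit 15) C8_18 = true := by decide +kernel
def rf8_18 : rfCk (nat_lit 61) (nat_lit 3) (nat_lit 61) (nat_lit 15) (nat_lit 9) (nat_lit 0) (nat_lit 18) TL8 CL7 CL8 = true := by decide +kernel
def st8_18_0 : starCk (nat_lit 61) (nat_lit 15) (nat_lit 1) (nat_lit 7) (nat_lit 190) (nat_lit 861) (nat_lit 4096) C8_18 = true := by decide +kernel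
def st8_18_1 : starCk (nat_lit 61) (nat_lit 15) (nat_lit 1) (nat_lit 7) (nat_lit 191) (nat_lit 1051) (nat_lit 4096) C8_18 = true := by decide +kernel
def st8_18_2 : starCk (nat_lit 61) (nat_lit 15) (nat_lit 1) (nat_lit 7) (nat_lit 191) (nat_lit 1242) (nat_lit 4096) C8_18 = true := by decide +kernel
def sc8_18 : stCov (nat_lit 3) (nat_lit 861) (Rl.cons (nat_lit 861) (nat_lit 190) (Rl.cons (nat_lit 1051) (nat_lit 191) (Rl.cons (nat_lit 1242) (nat_lit 191) Rl.nil))) C8_18 = true := by decide +kernel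
def wf8_19 : wfC (nat_lit 61) (nat_lit 15) C8_19 = true := by decide +kernel
def rf8_19 : rfCk (nat_lit 61) (nat_lit 3) (nat_lit 61) (nat_lit 15) (nat_lit 9) (nat_lit 0) (nat_lit 19) TL8 CL7 CL8 = true := by decide +kernel
def st8_19_0 : starCk (nat_lit 61) (nat_lit 15) (nat_lit 1) (nat_lit 7) (nat_lit 212) (nat_lit 598) (nat_lit 4096) C8_19 = true := by decide +kernel
def st8_19_1 : starCk (nat_lit 61) (nat_lit 15) (nat_lit 1) (nat_lit 7) (nat_lit 212) (nat_lit 810) (nat_lit 4096) C8_19 = true := by decide +kernel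
def sc8_19 : stCov (nat_lit 3) (nat_lit 598) (Rl.cons (nat_lit 598) (nat_lit 212) (Rl.cons (nat_lit 810) (nat_lit 212) Rl.nil)) C8_19 = true := by decide +kernel
def wf8_20 : wfC (nat_lit 61) (nat_lit 15) C8_20 = true := by decide +kernel

end Pool.Agent.NNr.R11_1_2_3
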