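import Pool.Agent.NNr.R11_1_2_3.D4
import Pool.Agent.NNr.R11_1_2_3.D5

set_option linter.all false
set_option maxRecDepth 1000000
namespace Pool.Agent.NNr.R11_1_2_3

open Pool.Agent.NNe

def rf5_20 : rfCk (nat_lit 61) (nat_lit 4) (nat_lit 61) (nat_lit 2) (nat_lit 0) (nat_lit 1048576) (nat_lit 20) TL5 CL4 CL5 = true := by decide +kernel
def wf5_21 : wfC (nat_lit 61) (nat_lit 2) C5_21 = true := by decide +kernel
def rf5_21 : rfCk (nat_lit 61) (nat_lit 4) (nat_lit 61) (nat_lit 2) (nat_lit 0) (nat_lit 1048576) (nat_lit 21) TL5 CL4 CL5 = true := by decide +kernel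
def wf5_22 : wfC (nat_lit 61) (nat_lit 2) C5_22 = true := by decide +kernel
def rf5_22 : rfCk (nat_lit 61) (nat_lit 4) (nat_lit 61) (nat_lit 2) (nat_lit 0) (nat_lit 1048576) (nat_lit 22) TL5 CL4 CL5 = true := by decide +kernel
def wf5_23 : wfC (nat_lit 61) (nat_lit 2) C5_23 = true := by decide +kernel
def rf5_23 : rfCk (nat_lit 61) (nat_lit 4) (nat_lit 61) (nat_lit 2) (nat_lit 0) (nat_lit 1048576) (nat_lit 23) TL5 CL4 CL5 = true := by decide +kernel
def wf5_24 : wfC (nat_lit 61) (nat_lit 2) C5_24 = true := by decide +kernel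
def rf5_24 : rfCk (nat_lit 61) (nat_lit 4) (nat_lit 61) (nat_lit 2) (nat_lit 0) (nat_lit 1048576) (nat_lit 24) TL5 CL4 CL5 = true := by decide +kernel
def ti5_0 : tileCk (nat_lit 61) (nat_lit 2) (nat_lit 1) (nat_lit 1) (nat_lit 537) (nat_lit 11) (nat_lit 25) ZL5_0 CL5 = true := by decide +kernel
def zl5_0 : zlOK (nat_lit 537) ZL5_0 = true := by decide +kernel

end Pool.Agent.NNr.R11_1_2_3
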